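import Pool.Agent.Work.MP_7daf81_ag.V22.KosStd

/-! From a nonzero determinant to a point of the chart. -/

namespace Pool.Agent.Work.MP_7daf81_ag.V22

open Matrix

theorem exists_der (w : Fin 3 → K) : ∃ D : Derivation ℂ K K, ∀ i, D (tt i) = w i := by
  have : Algebra.FormallyEtale (MvPolynomial (Fin 3) ℂ) K :=
    Algebra.FormallyEtale.of_isLocalization (nonZeroDivisors (MvPolynomial (Fin 3) ℂ))
  have hb := KaehlerDifferential.isBaseChange_of_formallyEtale ℂ (MvPolynomial (Fin 3) ℂ) K
  let d : Derivation ℂ (MvPolynomial (Fin 3) ℂ) K := MvPolynomial.mkDerivation ℂ w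
  refine ⟨(hb.lift d.liftKaehlerDifferential).compDer (KaehlerDifferential.D ℂ K), fun i => ?_⟩
  have := hb.lift_eq d.liftKaehlerDifferential (KaehlerDifferential.D ℂ _ (MvPolynomial.X i))
  rw [KaehlerDifferential.map_D] at this
  simp only [Derivation.liftKaehlerDifferential_comp_D, d, MvPolynomial.mkDerivation_X] at this
  exact this

theorem exists_jac_one : ∃ D : Fin 3 → Derivation ℂ K K, Jac D tt = 1 := by
  choose D hD using fun i : Fin 3 => exists_der (Pi.single i 1)
  refine ⟨D, ?_⟩
  simp [Jac, det_fin_three, hD]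

theorem eq_top_of_tt (L : IntermediateField ℂ K) (h : ∀ i, tt i ∈ L) : L = ⊤ := by
  have h1 : ∀ p, algebraMap (MvPolynomial (Fin 3) ℂ) K p ∈ L := by
    intro p
    induction p using MvPolynomial.induction_on with
    | C c => exact L.algebraMap_mem c
    | add p q hp hq => rw [map_add]; exact add_mem hp hq
    | mul_X p x hp => rw [map_mul]; exact mul_mem hp (h x)
  rw [eq_top_iff]
  intro x _
  obtain ⟨a, b, -, rfl⟩ := IsFractionRing.div_surjective (A := MvPolynomial (Fin 3) ℂ) x
  exact div_mem (h1 a) (h1 b)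

theorem affine_ne_zero {y : Fin 3 → K} {D : Fin 3 → Derivation ℂ K K} (hJ : Jac D y ≠ 0)
    (a : Fin 4 → ℂ) (ha : a ≠ 0) :
    y 0 * algebraMap ℂ K (a 0) + y 1 * algebraMap ℂ K (a 1) + y 2 * algebraMap ℂ K (a 2) +
      algebraMap ℂ K (a 3) ≠ 0 := by
  intro h
  have hv : (Matrix.of fun i j => D i (y j)) *ᵥ (fun j => algebraMap ℂ K (a j.castSucc)) = 0 := by
    funext i
    have := congrArg (D i) h
    simp only [map_add, Derivation.leibniz, Derivation.map_algebraMap, smul_eq_mul, mul_zero,
      zero_add, add_zero, map_zero] at this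
    simp only [Matrix.mulVec, dotProduct, Fin.sum_univ_three, of_apply, Pi.zero_apply]
    have c0 : (0 : Fin 3).castSucc = (0 : Fin 4) := rfl
    have c1 : (1 : Fin 3).castSucc = (1 : Fin 4) := rfl
    have c2 : (2 : Fin 3).castSucc = (2 : Fin 4) := rfl
    rw [c0, c1, c2]
    linear_combination this
  have h0 := Matrix.eq_zero_of_mulVec_eq_zero hJ hv
  have a0 : a 0 = 0 := by simpa using congrFun h0 0
  have a1 : a 1 = 0 := by simpa using congrFun h0 1
  have a2 : a 2 = 0 := by simpa using congrFun h0 2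
  have a3 : a 3 = 0 := by simpa [a0, a1, a2] using h
  apply ha
  funext i
  fin_cases i <;> assumption

section Form

variable {F : Type} [Field F] [Algebra ℂ F] (A : Matrix (Fin 7) (Fin 7) ℂ)

/-- The form as a bilinear map. -/
noncomputable def formL : (Fin 7 → F) →ₗ[F] (Fin 7 → F) →ₗ[F] F :=
  Matrix.toLinearMap₂' F (A.map (algebraMap ℂ F))

theorem form_eq (x y : Fin 7 → F) : form A x y = formL A x y := by
  simp only [form, formL, Matrix.toLinearMap₂'_apply, Matrix.map_apply, smul_eq_mul]
  refine Finset.sum_congr rfl fun i _ => Finset.sum_congr rfl fun j _ => by ring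

theorem form_skew (hA : Aᵀ = -A) (x y : Fin 7 → F) : form A x y = -form A y x := by
  have h : ∀ i j, A i j = -A j i := fun i j => by
    have := congrFun (congrFun hA j) i
    simpa using this
  unfold form
  rw [Finset.sum_comm, ← Finset.sum_neg_distrib]
  refine Finset.sum_congr rfl fun i _ => ?_
  rw [← Finset.sum_neg_distrib]
  refine Finset.sum_congr rfl fun j _ => ?_
  rw [h j i, map_neg]; ring

theorem form_map (x y : Fin 7 → ℂ) :
    form A (fun n => algebraMap ℂ F (x n)) (fun n => algebraMap ℂ F (y n)) =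
      algebraMap ℂ F (form A x y) := by
  simp [form]

end Form

theorem exists_point (ω : Fin 3 → Matrix (Fin 7) (Fin 7) ℂ) (hω : ∀ k, (ω k)ᵀ = -ω k)
    (u g : Fin 3 → Fin 7 → K) (hu : Isotropic ω u)
    (hd : (Kos fun k i l => form (ω k) (u i) (g l)).det ≠ 0) :
    ∃ X : Fin 3 × Fin 3 → K, Isotropic ω (fun j => g j + ∑ i, X (j, i) • u i) ∧
      (Matrix.of fun p q : Fin 3 × Fin 3 => dE ω (fun j => g j + ∑ i, X (j, i) • u i)
        (Pi.single p.1 (u p.2)) q) = Kos fun k i l => form (ω k) (u i) (g l) := by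
  set M := Kos fun k i l => form (ω k) (u i) (g l) with hM
  set E0 : Fin 3 × Fin 3 → K := fun q => form (ω q.1) (g (q.2 + 1)) (g (q.2 + 2)) with hE
  have hsk : ∀ k (x y : Fin 7 → K), formL (ω k) x y = -formL (ω k) y x := fun k x y => by
    rw [← form_eq, ← form_eq, form_skew _ (hω k)]
  have huu : ∀ k i j, formL (ω k) (u i) (u j) = 0 := fun k i j => by rw [← form_eq, hu]
  have halt : ∀ k (x : Fin 7 → K), formL (ω k) x x = 0 := fun k x => by
    have := hsk k x x
    have h2 : (2 : K) ≠ 0 := two_ne_zero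
    apply mul_left_cancel₀ h2
    linear_combination this
  obtain ⟨X, hX⟩ : ∃ X : Fin 3 × Fin 3 → K, X ᵥ* M = -E0 :=
    ⟨(-E0) ᵥ* M⁻¹, by rw [vecMul_vecMul, nonsing_inv_mul _ (Ne.isUnit hd), vecMul_one]⟩
  refine ⟨X, ?_, ?_⟩
  · have hc : ∀ k r, formL (ω k) (g (r + 1) + ∑ i, X (r + 1, i) • u i)
        (g (r + 2) + ∑ i, X (r + 2, i) • u i) = 0 := by
      intro k r
      have := congrFun hX (k, r)
      simp only [vecMul, dotProduct, Fintype.sum_prod_type, Fin.sum_univ_three, hM, hE, Kos, cr,
        of_apply, Pi.neg_apply, form_eq, cons_val_zero, cons_val_one, cons_val] at this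
      simp only [Fin.sum_univ_three, map_add, map_smul, LinearMap.add_apply, LinearMap.smul_apply,
        smul_eq_mul, huu, hsk k (g _) (u _)]
      fin_cases r <;> simp at this ⊢ <;> linear_combination this
    intro k i j
    rw [form_eq]
    have h0 := hc k 0
    have h1 := hc k 1
    have h2 := hc k 2
    fin_cases i <;> fin_cases j
    · exact halt k _
    · exact h2
    · rw [hsk, neg_eq_zero]; exact h1
    · rw [hsk, neg_eq_zero]; exact h2
    · exact halt k _
    · exact h0
    · exact h1
    · rw [hsk, neg_eq_zero]; exact h0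
    · exact halt k _
  · ext ⟨j, i⟩ ⟨k, r⟩
    simp only [of_apply, dE, hM, Kos, form_eq, map_add, map_sum, map_smul, LinearMap.add_apply,
      LinearMap.sum_apply, LinearMap.smul_apply]
    fin_cases j <;> fin_cases r <;> simp [cr, huu, hsk k (g _) (u _)]

end Pool.Agent.Work.MP_7daf81_ag.V22
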