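import Pool.Agent.Work.MP_7daf81_ag.V22.N2

/-! Lemma P for determinantal cubics and the cubic surface of the normal form. -/

namespace Pool.Agent.Work.MP_7daf81_ag.V22

/-- Determinant of three row vectors. -/
def T3 (x y z : Fin 3 → ℂ) : ℂ :=
  x 0 * y 1 * z 2 - x 0 * y 2 * z 1 - x 1 * y 0 * z 2 + x 1 * y 2 * z 0 + x 2 * y 0 * z 1 -
    x 2 * y 1 * z 0

/-- Mixed determinant of type `(2,1)`. -/
def m2 (A B : Fin 3 → Fin 3 → ℂ) : ℂ :=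
  T3 (A 0) (A 1) (B 2) + T3 (A 0) (B 1) (A 2) + T3 (B 0) (A 1) (A 2)

/-- Mixed determinant of type `(1,1,1)`. -/
def m3 (A B C : Fin 3 → Fin 3 → ℂ) : ℂ :=
  T3 (A 0) (B 1) (C 2) + T3 (A 0) (C 1) (B 2) + T3 (B 0) (A 1) (C 2) + T3 (B 0) (C 1) (A 2) +
    T3 (C 0) (A 1) (B 2) + T3 (C 0) (B 1) (A 2)

theorem toric_of_det (P Q R W : Fin 3 → Fin 3 → ℂ) (h1 : T3 (P 0) (P 1) (P 2) = 0)
    (h2 : m2 P Q = 0) (h3 : m2 Q P = 0) (h4 : T3 (Q 0) (Q 1) (Q 2) = 0)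
    (hd : m3 P Q R ^ 2 - 4 * m2 P R * m2 Q R ≠ 0) :
    Toric fun a1 a2 t => (Matrix.of fun i j => a1 * algebraMap ℂ K (P i j) +
      a2 * algebraMap ℂ K (Q i j) + t * algebraMap ℂ K (R i j) + algebraMap ℂ K (W i j)).det := by
  refine toric_of_coeffs _ (m2 P R) (m2 P W) (m3 P Q R) (m3 P Q W) (m2 Q R) (m2 Q W) (m2 R P)
    (m3 P R W) (m2 W P) (m2 R Q) (m3 Q R W) (m2 W Q) (T3 (R 0) (R 1) (R 2)) (m2 R W) (m2 W R)
    (T3 (W 0) (W 1) (W 2)) hd fun a1 a2 t => ?_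
  have g1 := congrArg (algebraMap ℂ K) h1
  have g2 := congrArg (algebraMap ℂ K) h2
  have g3 := congrArg (algebraMap ℂ K) h3
  have g4 := congrArg (algebraMap ℂ K) h4
  simp only [T3, m2, m3, map_add, map_sub, map_mul, map_zero, Matrix.det_fin_three,
    Matrix.of_apply] at g1 g2 g3 g4 ⊢
  linear_combination a1 ^ 3 * g1 + a1 ^ 2 * a2 * g2 + a1 * a2 ^ 2 * g3 + a2 ^ 3 * g4

/-- The matrix of linear forms defining the cubic. -/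
def Nmat (θ2 θ3 : Fin 3 → ℂ) (c1 c2 c3 : Fin 2 → ℂ) (y : Fin 4 → ℂ) : Fin 3 → Fin 3 → ℂ :=
  ![![y 2 * θ3 0 + c1 0 * y 0, y 2 * θ3 1 + (c1 0 * y 1 + c1 1 * y 0), y 2 * θ3 2 + c1 1 * y 1],
    ![y 3 * θ3 0 - y 2 * θ2 0 + c2 0 * y 0, y 3 * θ3 1 - y 2 * θ2 1 + (c2 0 * y 1 + c2 1 * y 0),
      y 3 * θ3 2 - y 2 * θ2 2 + c2 1 * y 1],
    ![y 3 * θ2 0 - c3 0 * y 0, y 3 * θ2 1 - (c3 0 * y 1 + c3 1 * y 0), y 3 * θ2 2 - c3 1 * y 1]]

theorem Scub_eq (θ2 θ3 : Fin 3 → ℂ) (c1 c2 c3 : Fin 2 → ℂ) (Λ : Matrix (Fin 4) (Fin 4) ℂ)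
    (a1 a2 t : K) :
    Scub (algebraMap ℂ K ∘ θ2) (algebraMap ℂ K ∘ θ3) (algebraMap ℂ K ∘ c1) (algebraMap ℂ K ∘ c2)
      (algebraMap ℂ K ∘ c3) (Matrix.vecMul ![a1, a2, t, 1] (Λ.map (algebraMap ℂ K))) =
    (Matrix.of fun i j => a1 * algebraMap ℂ K (Nmat θ2 θ3 c1 c2 c3 (Λ 0) i j) +
      a2 * algebraMap ℂ K (Nmat θ2 θ3 c1 c2 c3 (Λ 1) i j) +
      t * algebraMap ℂ K (Nmat θ2 θ3 c1 c2 c3 (Λ 2) i j) +
      algebraMap ℂ K (Nmat θ2 θ3 c1 c2 c3 (Λ 3) i j)).det := by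
  unfold Scub
  congr 1
  ext i j
  fin_cases i <;> fin_cases j <;>
    simp [Nmat, Matrix.vecMul, dotProduct, Fin.sum_univ_four] <;> ring

theorem exists_compl (z2 z3 : ℂ) (h : ¬(z2 = 0 ∧ z3 = 0)) :
    ∃ w2 w3 : ℂ, z2 * w3 - z3 * w2 ≠ 0 := by
  by_cases h2 : z2 = 0
  · refine ⟨1, 0, ?_⟩
    simp only [mul_zero, mul_one, zero_sub, neg_ne_zero]
    exact fun h3 => h ⟨h2, h3⟩
  · exact ⟨0, 1, by simpa using h2⟩

theorem toric_of_goodNum (θ2 θ3 : Fin 3 → ℂ) (c1 c2 c3 : Fin 2 → ℂ)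
    (h : GoodNum θ2 θ3 c1 c2 c3) :
    ∃ Λ : Matrix (Fin 4) (Fin 4) ℂ, Λ.det ≠ 0 ∧ Toric fun a1 a2 t =>
      Scub (algebraMap ℂ K ∘ θ2) (algebraMap ℂ K ∘ θ3) (algebraMap ℂ K ∘ c1)
        (algebraMap ℂ K ∘ c2) (algebraMap ℂ K ∘ c3)
        (Matrix.vecMul ![a1, a2, t, 1] (Λ.map (algebraMap ℂ K))) := by
  rcases h with ⟨hΔ, s, r, hsr⟩ | ⟨h0, h1, y0, y1, hψ⟩
  · set s1 := c2 0 * c3 1 - c2 1 * c3 0 with hs1
    set s2 := c3 0 * c1 1 - c3 1 * c1 0 with hs2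
    set s3 := c1 0 * c2 1 - c1 1 * c2 0 with hs3
    obtain ⟨w2, w3, hw⟩ := exists_compl (-s2 * s - s3 * r) (s2 * r + s1 * s) (by
      rintro ⟨g1, g2⟩
      have e1 : (s1 * s3 - s2 ^ 2) * s = 0 := by linear_combination s2 * g1 + s3 * g2
      have e2 : (s1 * s3 - s2 ^ 2) * r = 0 := by linear_combination -s1 * g1 - s2 * g2
      rw [mul_eq_zero] at e1 e2
      apply hsr
      rw [e1.resolve_left hΔ, e2.resolve_left hΔ]
      ring)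
    refine ⟨!![1, 0, 0, 0; 0, 1, 0, 0; 0, 0, -s2 * s - s3 * r, s2 * r + s1 * s; 0, 0, w2, w3],
      ?_, ?_⟩
    · convert hw using 1
      simp [Matrix.det_succ_row_zero, Fin.sum_univ_succ, Fin.succAbove]
      ring
    · simp only [Scub_eq]
      apply toric_of_det
      · simp [T3, Nmat]
      · simp [T3, m2, Nmat]; ring
      · simp [T3, m2, Nmat]; ring
      · simp [T3, Nmat]
      · convert mul_ne_zero (pow_ne_zero 2 hΔ) hsr using 1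
        simp only [T3, m2, m3, Nmat, Matrix.of_apply, Matrix.cons_val_zero, Matrix.cons_val_one,
          Matrix.cons_val, hs1, hs2, hs3]
        ring
  · obtain ⟨w0, w1, hw⟩ := exists_compl y0 y1 (by
      rintro ⟨g1, g2⟩
      apply hψ
      simp [g1, g2, mu, Matrix.det_fin_three])
    refine ⟨!![y0, y1, 0, 0; 0, 0, 0, 1; 0, 0, 1, 0; w0, w1, 0, 0], ?_, ?_⟩
    · intro hh
      apply hw
      simp [Matrix.det_succ_row_zero, Fin.sum_univ_succ, Fin.succAbove] at hh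
      linear_combination -hh
    · simp only [Scub_eq]
      apply toric_of_det
      · simp [T3, Nmat, h0, h1]
      · simp [T3, m2, Nmat, h0, h1]
      · simp [T3, m2, Nmat, h0, h1]
      · simp [T3, Nmat]
      · convert pow_ne_zero 2 hψ using 1
        simp only [T3, m2, m3, Nmat, mu, h0, h1, Matrix.det_fin_three, Matrix.of_apply,
          Matrix.cons_val_zero, Matrix.cons_val_one, Matrix.cons_val]
        ring

end Pool.Agent.Work.MP_7daf81_ag.V22
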