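import Pool.Agent.Work.MP_7daf81_ag.V22.Asm1
import Pool.Agent.Work.MP_7daf81_ag.V22.N3

/-! From a good point to the toric chart. -/

namespace Pool.Agent.Work.MP_7daf81_ag.V22

open Matrix

/-- The net as a linear family of bilinear forms. -/
noncomputable def Om (ω : Fin 3 → Matrix (Fin 7) (Fin 7) ℂ) :
    (Fin 3 → ℂ) →ₗ[ℂ] (Fin 7 → ℂ) →ₗ[ℂ] (Fin 7 → ℂ) →ₗ[ℂ] ℂ :=
  Fintype.linearCombination ℂ fun k => formL (F := ℂ) (ω k)

theorem Om_apply (ω : Fin 3 → Matrix (Fin 7) (Fin 7) ℂ) (n : Fin 3 → ℂ) (x y : Fin 7 → ℂ) :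
    Om ω n x y = ∑ k, n k * form (ω k) x y := by
  simp [Om, Fintype.linearCombination_apply, LinearMap.sum_apply, form_eq]

theorem Om_skew (ω : Fin 3 → Matrix (Fin 7) (Fin 7) ℂ) (hω : ∀ k, (ω k)ᵀ = -ω k)
    (n : Fin 3 → ℂ) (x y : Fin 7 → ℂ) : Om ω n x y = -Om ω n y x := by
  rw [Om_apply, Om_apply, ← Finset.sum_neg_distrib]
  refine Finset.sum_congr rfl fun k _ => ?_
  rw [form_skew _ (hω k)]; ring

theorem Scub_hom {F : Type} [Field F] (θ2 θ3 : Fin 3 → F) (c1 c2 c3 : Fin 2 → F) (y : Fin 4 → F)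
    (h : y 3 ≠ 0) : Scub θ2 θ3 c1 c2 c3 y =
      y 3 ^ 3 * Scub θ2 θ3 c1 c2 c3 ![y 0 / y 3, y 1 / y 3, y 2 / y 3, 1] := by
  simp only [Scub, det_fin_three, of_apply, cons_val_zero, cons_val_one, cons_val]
  field_simp

theorem det_top (Γ Λ : Matrix (Fin 4) (Fin 4) K) (h : Λ * Γ = 1) (y : Fin 3 → K) :
    (Matrix.of fun l j : Fin 3 => Γ l.castSucc j.castSucc - y j * Γ l.castSucc 3).det =
      (![y 0, y 1, y 2, 1] ᵥ* Λ) 3 * Γ.det := by
  set yh := ![y 0, y 1, y 2, 1] ᵥ* Λ with hyh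
  have h1 : yh ᵥ* Γ = ![y 0, y 1, y 2, 1] := by rw [hyh, vecMul_vecMul, h, vecMul_one]
  have e0 := congrFun h1 0
  have e1 := congrFun h1 1
  have e2 := congrFun h1 2
  have e3 := congrFun h1 3
  simp only [vecMul, dotProduct, Fin.sum_univ_four, cons_val_zero, cons_val_one, cons_val] at e0 e1 e2 e3
  have hE : (!![1, 0, 0, 0; 0, 1, 0, 0; 0, 0, 1, 0; yh 0, yh 1, yh 2, yh 3] :
      Matrix (Fin 4) (Fin 4) K).det = yh 3 := by
    simp [Matrix.det_succ_row_zero, Fin.sum_univ_succ, Fin.succAbove]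
  have hP : (!![1, 0, 0, 0; 0, 1, 0, 0; 0, 0, 1, 0; yh 0, yh 1, yh 2, yh 3] :
      Matrix (Fin 4) (Fin 4) K) * Γ = !![Γ 0 0, Γ 0 1, Γ 0 2, Γ 0 3; Γ 1 0, Γ 1 1, Γ 1 2, Γ 1 3;
        Γ 2 0, Γ 2 1, Γ 2 2, Γ 2 3; y 0, y 1, y 2, 1] := by
    ext i j
    fin_cases i <;> fin_cases j <;> simp [Matrix.mul_apply, Fin.sum_univ_four, e0, e1, e2, e3]
  rw [← hE, ← det_mul, hP]
  have c0 : (0 : Fin 3).castSucc = (0 : Fin 4) := rfl
  have c1 : (1 : Fin 3).castSucc = (1 : Fin 4) := rfl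
  have c2 : (2 : Fin 3).castSucc = (2 : Fin 4) := rfl
  simp only [det_fin_three, of_apply, c0, c1, c2]
  simp [Matrix.det_succ_row_zero, Fin.sum_univ_succ, Fin.succAbove]
  ring

theorem det_Kos_chart (B : Fin 3 → Fin 3 → Fin 4 → ℂ) (γ : ℂ) (hγ : γ ≠ 0)
    (h00 : B 0 0 = ![0, -γ, 0, 0]) (h10 : B 1 0 = ![γ, 0, 0, 0]) (h20 : B 2 0 = ![0, 0, 0, 0])
    (h21 : B 2 1 = ![0, 0, 1, 0]) (h22 : B 2 2 = ![0, 0, 0, 1])
    (Γ Λ : Matrix (Fin 4) (Fin 4) ℂ) (h : Λ * Γ = 1) :
    ∃ κ : ℂ, κ ≠ 0 ∧ ∀ y : Fin 3 → K,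
      (∀ l, (![y 0, y 1, y 2, 1] ᵥ* Λ.map (algebraMap ℂ K)) l ≠ 0) →
      (Kos fun k i j => ∑ l, algebraMap ℂ K (B k i l) *
        (algebraMap ℂ K (Γ l j.castSucc) - y j * algebraMap ℂ K (Γ l 3))).det =
      algebraMap ℂ K κ * Scub (algebraMap ℂ K ∘ ![B 0 1 0, B 0 1 1 + B 1 1 0, B 1 1 1])
        (algebraMap ℂ K ∘ ![B 0 2 0, B 0 2 1 + B 1 2 0, B 1 2 1])
        (algebraMap ℂ K ∘ ![-B 0 2 2, -B 1 2 2])
        (algebraMap ℂ K ∘ ![B 0 1 2 - B 0 2 3, B 1 1 2 - B 1 2 3])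
        (algebraMap ℂ K ∘ ![B 0 1 3, B 1 1 3]) (![y 0, y 1, y 2, 1] ᵥ* Λ.map (algebraMap ℂ K)) := by
  obtain ⟨s, hs, hstd⟩ := Kos_std (F := K)
  have hΓ : Γ.det ≠ 0 := by
    intro h0
    have := congrArg Matrix.det h
    rw [det_mul, h0, det_one] at this
    simp at this
  refine ⟨s * γ ^ 3 * Γ.det ^ 3, mul_ne_zero (mul_ne_zero (Int.cast_ne_zero.mpr hs)
    (pow_ne_zero _ hγ)) (pow_ne_zero _ hΓ), fun y hy => ?_⟩
  have h' : Λ.map (algebraMap ℂ K) * Γ.map (algebraMap ℂ K) = 1 := by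
    rw [← Matrix.map_mul, h, Matrix.map_one _ (map_zero _) (map_one _)]
  have htop := det_top _ _ h' y
  set yh := ![y 0, y 1, y 2, 1] ᵥ* Λ.map (algebraMap ℂ K) with hyh
  have h1 : yh ᵥ* Γ.map (algebraMap ℂ K) = ![y 0, y 1, y 2, 1] := by
    rw [hyh, vecMul_vecMul, h', vecMul_one]
  have hΓ' : (Γ.map (algebraMap ℂ K)).det = algebraMap ℂ K Γ.det := by
    rw [RingHom.map_det]; rfl
  rw [hΓ'] at htop
  have h3 := hy 3
  have hG : ∀ j : Fin 3, ∑ l, yh l * (algebraMap ℂ K (Γ l j.castSucc) -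
      y j * algebraMap ℂ K (Γ l 3)) = 0 := by
    intro j
    have e3 := congrFun h1 3
    have ej := congrFun h1 j.castSucc
    simp only [vecMul, dotProduct, Matrix.map_apply, cons_val] at e3 ej
    have : ![y 0, y 1, y 2, 1] j.castSucc = y j := by fin_cases j <;> rfl
    rw [this] at ej
    simp only [mul_sub, Finset.sum_sub_distrib, ej, mul_left_comm _ (y j), ← Finset.mul_sum, e3]
    ring
  have c0 : (0 : Fin 3).castSucc = (0 : Fin 4) := rfl
  have c1 : (1 : Fin 3).castSucc = (1 : Fin 4) := rfl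
  have c2 : (2 : Fin 3).castSucc = (2 : Fin 4) := rfl
  have hB : (fun k i (j : Fin 3) => ∑ l, algebraMap ℂ K (B k i l) *
        (algebraMap ℂ K (Γ l j.castSucc) - y j * algebraMap ℂ K (Γ l 3))) =
      fun k i j => ∑ l' : Fin 3, (algebraMap ℂ K (B k i l'.castSucc) -
        ![yh 0 / yh 3, yh 1 / yh 3, yh 2 / yh 3] l' * algebraMap ℂ K (B k i 3)) *
        (Matrix.of fun l j : Fin 3 => (Γ.map (algebraMap ℂ K)) l.castSucc j.castSucc -
          y j * (Γ.map (algebraMap ℂ K)) l.castSucc 3) l' j := by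
    funext k i j
    have := hG j
    simp only [Fin.sum_univ_four, Fin.sum_univ_three, of_apply, Matrix.map_apply, c0, c1, c2,
      cons_val_zero, cons_val_one, cons_val] at this ⊢
    field_simp
    linear_combination algebraMap ℂ K (B k i 3) * this
  rw [hB, Kos_cov2 _ _ (by rw [htop]; exact mul_ne_zero h3 ((map_ne_zero _).mpr hΓ)), htop,
    hstd (fun k i l => algebraMap ℂ K (B k i l)) (algebraMap ℂ K γ) _ (div_ne_zero (hy 0) h3)
      (by funext l; rw [h00]; fin_cases l <;> simp) (by funext l; rw [h10]; fin_cases l <;> simp)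
      (by funext l; rw [h20]; fin_cases l <;> simp) (by funext l; rw [h21]; fin_cases l <;> simp)
      (by funext l; rw [h22]; fin_cases l <;> simp), Scub_hom _ _ _ _ _ yh h3]
  simp only [Scub, Function.comp_apply, cons_val_zero, cons_val_one, cons_val, map_add, map_sub,
    map_neg, map_mul, map_pow, map_intCast]
  ring

theorem toricChart_of_good (ω : Fin 3 → Matrix (Fin 7) (Fin 7) ℂ) (hω : ∀ k, (ω k)ᵀ = -ω k)
    {n1 n2 n3 : Fin 3 → ℂ} {e k1 k2 : Fin 7 → ℂ} (hB : IsBase (Om ω) n1 n2 n3 e k1 k2)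
    (hG : IsGood (Om ω) n1 n2 n3 e k1 k2) : ToricChart ω := by
  obtain ⟨u2, u3, f2, f3, hN, hg⟩ := hG
  obtain ⟨Λ, hΛ, y, c, hc, hF, hgen, hJ⟩ := toric_of_goodNum _ _ _ _ _ hg
  have hsk := Om_skew ω hω
  have halt : ∀ n x, Om ω n x x = 0 := fun n x => by
    have := hsk n x x
    linear_combination this / 2
  set γ := Om ω n3 k1 k2 with hγ
  have p11 : Om ω n1 e k1 = 0 := by
    have := LinearMap.congr_fun hB.hk1 k1
    rw [halt, LinearMap.neg_apply] at this
    linear_combination this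
  have p12 : Om ω n1 e k2 = -γ := by
    have := LinearMap.congr_fun hB.hk1 k2
    rw [LinearMap.neg_apply] at this
    linear_combination this
  have p21 : Om ω n2 e k1 = γ := by
    have := LinearMap.congr_fun hB.hk2 k1
    rw [LinearMap.neg_apply, hsk] at this
    linear_combination this
  have p22 : Om ω n2 e k2 = 0 := by
    have := LinearMap.congr_fun hB.hk2 k2
    rw [halt, LinearMap.neg_apply] at this
    linear_combination this
  have q1 : ∀ w, Om ω n3 w k1 = Om ω n1 e w := fun w => by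
    have := LinearMap.congr_fun hB.hk1 w
    rw [LinearMap.neg_apply, hsk] at this
    linear_combination -this
  have q2 : ∀ w, Om ω n3 w k2 = Om ω n2 e w := fun w => by
    have := LinearMap.congr_fun hB.hk2 w
    rw [LinearMap.neg_apply, hsk] at this
    linear_combination -this
  have p3 : ∀ w, Om ω n3 e w = 0 := fun w => by rw [hB.h3]; rfl
  set u : Fin 3 → Fin 7 → ℂ := ![e, u2, u3] with hu
  set v : Fin 4 → Fin 7 → ℂ := ![k1, k2, f2, f3] with hv
  set g : Matrix (Fin 3) (Fin 3) ℂ := Matrix.of ![n1, n2, n3] with hgm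
  have hg0 : g.det ≠ 0 := by
    intro h0
    obtain ⟨x, hx0, hx⟩ := Matrix.exists_vecMul_eq_zero_iff.mpr h0
    have hx' : x 0 • n1 + x 1 • n2 + x 2 • n3 = 0 := by
      funext i
      have := congrFun hx i
      simpa [vecMul, dotProduct, Fin.sum_univ_three, hgm] using this
    have t1 := congrArg (fun n => Om ω n e k2) hx'
    have t2 := congrArg (fun n => Om ω n e k1) hx'
    have t3 := congrArg (fun n => Om ω n k1 k2) hx'
    simp only [map_add, map_smul, LinearMap.add_apply, LinearMap.smul_apply, smul_eq_mul, p11, p12,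
      p21, p22, p3, map_zero, LinearMap.zero_apply, mul_zero, add_zero, zero_add, mul_neg,
      neg_eq_zero, mul_eq_zero] at t1 t2 t3
    have x0 := t1.resolve_right hB.hg
    have x1 := t2.resolve_right hB.hg
    rw [x0, x1, zero_mul, zero_mul, zero_add, zero_add, mul_eq_zero] at t3
    have x2 := t3.resolve_right hB.hg
    apply hx0
    funext i
    fin_cases i
    exacts [x0, x1, x2]
  have hall : ∀ a b : Fin 7 → ℂ, Om ω n1 a b = 0 → Om ω n2 a b = 0 → Om ω n3 a b = 0 →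
      ∀ k, form (ω k) a b = 0 := by
    intro a b h1 h2 h3
    have : g *ᵥ (fun k => form (ω k) a b) = 0 := by
      funext i
      rw [Om_apply] at h1 h2 h3
      fin_cases i
      · simpa [mulVec, dotProduct, hgm] using h1
      · simpa [mulVec, dotProduct, hgm] using h2
      · simpa [mulVec, dotProduct, hgm] using h3
    exact congrFun (Matrix.eq_zero_of_mulVec_eq_zero hg0 this)
  have hiso : Isotropic ω u := by
    intro k i j
    have a0 : ∀ x : Fin 7 → ℂ, form (ω k) x x = 0 := fun x => hall x x (halt _ _) (halt _ _) (halt _ _) k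
    have a1 := hall e u2 hN.a12 hN.a22 (p3 _) k
    have a2 := hall e u3 hN.a13 hN.a23 (p3 _) k
    have a3 := hall u2 u3 hN.i1 hN.i2 hN.i3 k
    fin_cases i <;> fin_cases j
    · exact a0 _
    · exact a1
    · exact a2
    · rw [form_skew _ (hω k), neg_eq_zero]; exact a1
    · exact a0 _
    · exact a3
    · rw [form_skew _ (hω k), neg_eq_zero]; exact a2
    · rw [form_skew _ (hω k), neg_eq_zero]; exact a3
    · exact a0 _
  set Γ := Λ⁻¹ with hΓ
  have hΛΓ : Λ * Γ = 1 := mul_nonsing_inv _ (Ne.isUnit hΛ)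
  have hΓ0 : Γ.det ≠ 0 := by
    intro h0
    have := congrArg Matrix.det hΛΓ
    rw [det_mul, h0, det_one] at this
    simp at this
  obtain ⟨κ, hκ, hdet⟩ := det_Kos_chart (fun k i l => Om ω (g k) (u i) (v l)) γ hB.hg
    (by funext l; fin_cases l; exacts [p11, p12, hN.b12, hN.b13])
    (by funext l; fin_cases l; exacts [p21, p22, hN.b22, hN.b23])
    (by funext l; fin_cases l; exacts [p3 _, p3 _, p3 _, p3 _])
    (by funext l; fin_cases l; exacts [(q1 _).trans hN.a12, (q2 _).trans hN.a22, hN.d22, hN.d23])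
    (by funext l; fin_cases l; exacts [(q1 _).trans hN.a13, (q2 _).trans hN.a23, hN.d32, hN.d33])
    Γ Λ hΛΓ
  obtain ⟨D0, hD0⟩ := exists_jac_one
  have hJ0 : Jac D0 y ≠ 0 := by
    intro h0
    have := hJ D0
    rw [h0, hD0, zero_mul, mul_one] at this
    exact mul_ne_zero ((map_ne_zero _).mpr hc) hF this.symm
  have hy : ∀ l, (![y 0, y 1, y 2, 1] ᵥ* Λ.map (algebraMap ℂ K)) l ≠ 0 := by
    intro l
    have := affine_ne_zero hJ0 (fun m => Λ m l) (by
      intro h0
      exact hΛ (det_eq_zero_of_column_eq_zero l (congrFun h0)))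
    simpa [vecMul, dotProduct, Fin.sum_univ_four] using this
  have hd := hdet y hy
  set w : Fin 4 → Fin 7 → ℂ := fun m => ∑ l, Γ l m • v l with hw
  set uK : Fin 3 → Fin 7 → K := fun i n => algebraMap ℂ K (u i n) with huK
  set gK : Fin 3 → Fin 7 → K := fun j n => algebraMap ℂ K (w j.castSucc n) -
    y j * algebraMap ℂ K (w 3 n) with hgK
  have hisoK : Isotropic ω uK := fun k i j => by
    simp only [huK]
    rw [form_map, hiso, map_zero]
  have hBK : (fun k i (j : Fin 3) => ∑ l, algebraMap ℂ K (Om ω (g k) (u i) (v l)) *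
        (algebraMap ℂ K (Γ l j.castSucc) - y j * algebraMap ℂ K (Γ l 3))) =
      fun k i j => ∑ k', (g.map (algebraMap ℂ K)) k k' * form (ω k') (uK i) (gK j) := by
    funext k i j
    have e1 : gK j = ∑ l, (algebraMap ℂ K (Γ l j.castSucc) - y j * algebraMap ℂ K (Γ l 3)) •
        fun n => algebraMap ℂ K (v l n) := by
      funext n
      simp only [hgK, hw, Finset.sum_apply, Pi.smul_apply, smul_eq_mul, map_sum, map_mul,
        Finset.mul_sum, sub_mul, Finset.sum_sub_distrib, mul_assoc]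
    have e2 : ∀ k' l, formL (ω k') (uK i) (fun n => algebraMap ℂ K (v l n)) =
        algebraMap ℂ K (form (ω k') (u i) (v l)) := fun k' l => by
      rw [← form_eq, ← form_map]
    simp only [e1, form_eq (F := K), map_smul, e2, Om_apply, map_mul, Matrix.map_apply,
      smul_eq_mul, Fin.sum_univ_three, Fin.sum_univ_four, map_add]
    ring
  rw [hBK, Kos_cov1] at hd
  have hg' : (g.map (algebraMap ℂ K)).det = algebraMap ℂ K g.det := by
    rw [RingHom.map_det]; rfl
  rw [hg'] at hd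
  have hg0' : algebraMap ℂ K g.det ≠ 0 := (map_ne_zero _).mpr hg0
  have hκ' : algebraMap ℂ K κ ≠ 0 := (map_ne_zero _).mpr hκ
  change _ = _ * Scub (algebraMap ℂ K ∘ theta (Om ω) n1 n2 k1 k2 u2)
    (algebraMap ℂ K ∘ theta (Om ω) n1 n2 k1 k2 u3) (algebraMap ℂ K ∘ ![-Om ω n1 u3 f2, -Om ω n2 u3 f2])
    (algebraMap ℂ K ∘ ![Om ω n1 u2 f2 - Om ω n1 u3 f3, Om ω n2 u2 f2 - Om ω n2 u3 f3])
    (algebraMap ℂ K ∘ ![Om ω n1 u2 f3, Om ω n2 u2 f3]) _ at hd
  have hd0 : (Kos fun k i l => form (ω k) (uK i) (gK l)).det ≠ 0 := by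
    intro h0
    rw [h0, mul_zero] at hd
    exact mul_ne_zero hκ' hF hd.symm
  obtain ⟨X, hXiso, hXM⟩ := exists_point ω hω uK gK hisoK hd0
  set b : Fin 3 ⊕ Fin 4 → Fin 7 → ℂ := Sum.elim (fun j => w j.castSucc) ![w 3, e, u2, u3] with hb
  set x : Fin 3 × Fin 4 → K := fun p => ![-y p.1, X (p.1, 0), X (p.1, 1), X (p.1, 2)] p.2 with hx
  have hpt : chartPoint b x = fun j => gK j + ∑ i, X (j, i) • uK i := by
    funext j n
    simp only [chartPoint, hb, hx, hgK, huK, hu, Sum.elim_inl, Sum.elim_inr, Fin.sum_univ_four,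
      Fin.sum_univ_three, cons_val_zero, cons_val_one, cons_val, Pi.add_apply, Pi.smul_apply,
      smul_eq_mul]
    ring
  have hjac : jacE ω b x = (Kos fun k i l => form (ω k) (uK i) (gK l)).det := by
    rw [← hXM, jacE, hpt]
    congr 1
  refine ⟨b, ?_, x, by rw [hpt]; exact hXiso, ?_, by rw [hjac]; exact hd0,
    -c * g.det ^ 3 / κ, div_ne_zero (mul_ne_zero (neg_ne_zero.mpr hc) (pow_ne_zero _ hg0)) hκ,
    fun D => ?_⟩
  · rw [Fintype.linearIndependent_iff]
    intro a ha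
    set z : Fin 4 → ℂ := ![a (Sum.inl 0), a (Sum.inl 1), a (Sum.inl 2), a (Sum.inr 0)] with hz
    have c0 : (0 : Fin 3).castSucc = (0 : Fin 4) := rfl
    have c1 : (1 : Fin 3).castSucc = (1 : Fin 4) := rfl
    have c2 : (2 : Fin 3).castSucc = (2 : Fin 4) := rfl
    have ha' : (Γ *ᵥ z) 0 • k1 + (Γ *ᵥ z) 1 • k2 + (Γ *ᵥ z) 2 • f2 + (Γ *ᵥ z) 3 • f3 +
        a (Sum.inr 1) • e + a (Sum.inr 2) • u2 + a (Sum.inr 3) • u3 = 0 := by
      rw [← ha]
      simp only [Fintype.sum_sum_type, hb, hw, hv, hz, Sum.elim_inl, Sum.elim_inr, Fin.sum_univ_four,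
        Fin.sum_univ_three, cons_val_zero, cons_val_one, cons_val, mulVec, dotProduct, c0, c1, c2]
      module
    have t0 := congrArg (Om ω n2 e) ha'
    have t1 := congrArg (Om ω n1 e) ha'
    have t2 := congrArg (Om ω n3 u2) ha'
    have t3 := congrArg (Om ω n3 u3) ha'
    have r2 : Om ω n3 u2 e = 0 := by rw [hsk, p3, neg_zero]
    have r3 : Om ω n3 u3 e = 0 := by rw [hsk, p3, neg_zero]
    have r4 : Om ω n3 u3 u2 = 0 := by rw [hsk, hN.i3, neg_zero]
    simp only [map_add, map_smul, smul_eq_mul, p11, p12, p21, p22, q1, q2, halt, hN.a12, hN.a13,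
      hN.a22, hN.a23, hN.b12, hN.b13, hN.b22, hN.b23, hN.i3, hN.d22, hN.d23, hN.d32, hN.d33, r2, r3,
      r4, mul_zero, add_zero, zero_add, mul_one, map_zero, mul_neg, neg_eq_zero,
      mul_eq_zero] at t0 t1 t2 t3
    have t0' := t0.resolve_right hB.hg
    have t1' := t1.resolve_right hB.hg
    have hz0 : z = 0 := Matrix.eq_zero_of_mulVec_eq_zero hΓ0 (by
      funext l
      fin_cases l
      exacts [t0', t1', t2, t3])
    rw [t0', t1', t2, t3] at ha'
    simp only [zero_smul, zero_add] at ha'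
    have s2 := congrArg (fun x => Om ω n3 x f2) ha'
    have s3 := congrArg (fun x => Om ω n3 x f3) ha'
    simp only [map_add, map_smul, LinearMap.add_apply, LinearMap.smul_apply, smul_eq_mul, p3,
      hN.d22, hN.d23, hN.d32, hN.d33, mul_zero, add_zero, zero_add, mul_one, map_zero,
      LinearMap.zero_apply] at s2 s3
    rw [s2, s3, zero_smul, zero_smul, add_zero, add_zero, smul_eq_zero] at ha'
    have s1 := ha'.resolve_right hB.he
    rintro (i | i)
    · fin_cases i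
      · exact congrFun hz0 0
      · exact congrFun hz0 1
      · exact congrFun hz0 2
    · fin_cases i
      · exact congrFun hz0 3
      · exact s1
      · exact s2
      · exact s3
  · apply eq_top_of_tt
    intro i
    refine IntermediateField.adjoin_le_iff.mpr ?_ (hgen i)
    rintro _ ⟨j, rfl⟩
    have : x (j, 0) ∈ IntermediateField.adjoin ℂ (Set.range x) :=
      IntermediateField.subset_adjoin _ _ ⟨(j, 0), rfl⟩
    have h2 := neg_mem this
    simp only [hx, cons_val_zero, neg_neg] at h2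
    exact h2
  · have h1 : (Matrix.of fun i j => D i (x (j, 0))).det = -Jac D y := by
      simp only [Jac, hx, det_fin_three, of_apply, cons_val_zero, map_neg]
      ring
    have h2 := hJ D
    rw [h1, hjac, map_div₀, map_mul, map_pow, map_neg]
    change _ = _ * Jac D tt * _
    field_simp
    linear_combination -algebraMap ℂ K κ * h2 + algebraMap ℂ K c * Jac D tt * hd

end Pool.Agent.Work.MP_7daf81_ag.V22
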