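import Mathlib

/-! Definitions for the statement on Fano threefolds of genus 12 given by a net of alternating
forms on a seven-dimensional space. -/

namespace Pool.Agent.Work.MP_7daf81_ag.V22

/-- The field of rational functions in three variables over the complex numbers. -/
abbrev K : Type := FractionRing (MvPolynomial (Fin 3) ℂ)

/-- The three coordinate functions in `K`. -/
noncomputable def tt (i : Fin 3) : K :=
  algebraMap (MvPolynomial (Fin 3) ℂ) K (MvPolynomial.X i)

/-- The value of the bilinear form with complex matrix `A` on two vectors over a field `F`. -/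
noncomputable def form {F : Type} [Field F] [Algebra ℂ F] (A : Matrix (Fin 7) (Fin 7) ℂ)
    (x y : Fin 7 → F) : F :=
  ∑ i, ∑ j, x i * algebraMap ℂ F (A i j) * y j

/-- The three vectors `u` span a subspace on which the three forms vanish. -/
def Isotropic {F : Type} [Field F] [Algebra ℂ F] (ω : Fin 3 → Matrix (Fin 7) (Fin 7) ℂ)
    (u : Fin 3 → Fin 7 → F) : Prop :=
  ∀ k i j, form (ω k) (u i) (u j) = 0

/-- The differential at `u`, in the direction `φ`, of the nine equations
`ω k (u (r+1)) (u (r+2)) = 0`, indexed by `(k, r)`. -/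
noncomputable def dE {F : Type} [Field F] [Algebra ℂ F] (ω : Fin 3 → Matrix (Fin 7) (Fin 7) ℂ)
    (u φ : Fin 3 → Fin 7 → F) (p : Fin 3 × Fin 3) : F :=
  form (ω p.1) (φ (p.2 + 1)) (u (p.2 + 2)) + form (ω p.1) (u (p.2 + 1)) (φ (p.2 + 2))

/-- Jacobian criterion: the zero scheme of the nine equations in `Gr(3,7)` is smooth of
dimension three at each of its complex points. -/
def SmoothThreefold (ω : Fin 3 → Matrix (Fin 7) (Fin 7) ℂ) : Prop :=
  ∀ u : Fin 3 → Fin 7 → ℂ, LinearIndependent ℂ u → Isotropic ω u → Function.Surjective (dE ω u)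

/-- The point with coordinates `x` in the affine chart of `Gr(3,7)` given by the basis `b`: its
`j`-th spanning vector is `b (inl j) + ∑ l, x (j, l) • b (inr l)`. -/
noncomputable def chartPoint (b : Fin 3 ⊕ Fin 4 → Fin 7 → ℂ) (x : Fin 3 × Fin 4 → K)
    (j : Fin 3) : Fin 7 → K :=
  fun n => algebraMap ℂ K (b (Sum.inl j) n) + ∑ l, x (j, l) * algebraMap ℂ K (b (Sum.inr l) n)

/-- The Jacobian determinant, at the point `x`, of the nine equations with respect to the nine
chart coordinates `x (j, l)` with `l ≠ 0`. -/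
noncomputable def jacE (ω : Fin 3 → Matrix (Fin 7) (Fin 7) ℂ) (b : Fin 3 ⊕ Fin 4 → Fin 7 → ℂ)
    (x : Fin 3 × Fin 4 → K) : K :=
  (Matrix.of fun p q : Fin 3 × Fin 3 => dE ω (chartPoint b x)
    (Pi.single p.1 fun n => algebraMap ℂ K (b (Sum.inr p.2.succ) n)) q).det

end Pool.Agent.Work.MP_7daf81_ag.V22
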