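import Pool.Agent.Work.MP_7daf81_ag.V22.Step3

/-! The structure of a double line. -/

namespace Pool.Agent.Work.MP_7daf81_ag.V22

open Module

variable {V : Type} [AddCommGroup V] [Module ℂ V] [FiniteDimensional ℂ V]
variable {Ω : (Fin 3 → ℂ) →ₗ[ℂ] V →ₗ[ℂ] V →ₗ[ℂ] ℂ}

theorem span3 {x y z : Fin 3 → ℂ} (h : Ind3 x y z) (v : Fin 3 → ℂ) :
    ∃ a b c : ℂ, v = a • x + b • y + c • z := by
  have := h.li.span_eq_top_of_card_eq_finrank (by simp)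
  obtain ⟨c, hc⟩ := (Submodule.mem_span_range_iff_exists_fun ℂ).mp (this ▸ Submodule.mem_top (x := v))
  exact ⟨c 0, c 1, c 2, by rw [← hc]; simp [Fin.sum_univ_three]⟩

/-- Normalised data of a double line. -/
structure Dbl0 (Ω : (Fin 3 → ℂ) →ₗ[ℂ] V →ₗ[ℂ] V →ₗ[ℂ] ℂ) (m1 m2 n3 : Fin 3 → ℂ)
    (e k1 k2 v : V) : Prop where
  base : IsBase Ω m1 m2 n3 e k1 k2
  vW : ∀ n, Ω n e v = 0
  hv : ∀ c : ℂ, v ≠ c • e
  kill : ∀ w, (∀ n, Ω n e w = 0) → Ω m1 v w = 0 ∧ Ω m2 v w = 0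
  iso : ∀ w w', (∀ n, Ω n e w = 0) → Ω n3 v w = 0 → (∀ n, Ω n e w' = 0) → Ω n3 v w' = 0 →
    Ω m1 w w' = 0 ∧ Ω m2 w w' = 0

section
omit [FiniteDimensional ℂ V]
variable (hsk : ∀ n x y, Ω n x y = -Ω n y x)
include hsk

theorem IsBase.inW {n1 n2 n3 : Fin 3 → ℂ} {e k1 k2 : V} (hB : IsBase Ω n1 n2 n3 e k1 k2) {w : V}
    (a : Ω n1 e w = 0) (b : Ω n2 e w = 0) (n : Fin 3 → ℂ) : Ω n e w = 0 := by
  obtain ⟨x, y, z, rfl⟩ := span3 (hB.ind hsk) n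
  simp [a, b, hB.h3]

theorem IsDbl.dbl0 {n1 n2 n3 : Fin 3 → ℂ} {e k1 k2 : V} (hB : IsBase Ω n1 n2 n3 e k1 k2)
    (hD : IsDbl Ω n1 n2 n3 e) : ∃ m1 m2 v, Dbl0 Ω m1 m2 n3 e k1 k2 v := by
  obtain ⟨β1, β2, v, a, b, c, d, f⟩ := hD
  refine ⟨n1 - β1 • n3, n2 - β2 • n3, v, ⟨hB.he, hB.h3, ?_, ?_, hB.hg⟩, hB.inW hsk a b, c,
    fun w hw => d w (hw _) (hw _), fun w w' x y x' y' => f w w' (x _) (x _) y (x' _) (x' _) y'⟩
  · simp [hB.hk1, hB.h3]
  · simp [hB.hk2, hB.h3]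

variable {m1 m2 n3 : Fin 3 → ℂ} {e k1 k2 v : V} (hD : Dbl0 Ω m1 m2 n3 e k1 k2 v)
include hD

theorem Dbl0.change (a b c d l : ℂ) (h : a * d - b * c ≠ 0) :
    Dbl0 Ω (a • m1 + b • m2) (c • m1 + d • m2) n3 e (a • k1 + b • k2) (c • k1 + d • k2)
      (v - l • e) := by
  have halt : ∀ n x, Ω n x x = 0 := fun n x => by linear_combination hsk n x x / 2
  have h3 : ∀ w, Ω n3 (v - l • e) w = Ω n3 v w := fun w => by simp [hD.base.h3]
  refine ⟨⟨hD.base.he, hD.base.h3, ?_, ?_, ?_⟩, fun n => by simp [hD.vW, halt], fun c hc => ?_,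
    fun w hw => ?_, fun w w' x y x' y' => ?_⟩
  · simp only [map_add, map_smul, LinearMap.add_apply, LinearMap.smul_apply, hD.base.hk1,
      hD.base.hk2]
    module
  · simp only [map_add, map_smul, LinearMap.add_apply, LinearMap.smul_apply, hD.base.hk1,
      hD.base.hk2]
    module
  · simp only [map_add, map_smul, LinearMap.add_apply, LinearMap.smul_apply, smul_eq_mul, halt,
      hsk n3 k2 k1]
    intro h0
    exact mul_ne_zero h hD.base.hg (by linear_combination h0)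
  · exact hD.hv (c + l) (by rw [sub_eq_iff_eq_add.mp hc]; module)
  · simp [(hD.kill w hw).1, (hD.kill w hw).2, hw]
  · rw [h3] at y y'
    simp [(hD.iso w w' x y x' y').1, (hD.iso w w' x y x' y').2]

theorem Dbl0.ind2 : Ind2 m1 m2 := fun a b h => by
  obtain ⟨x, y, -⟩ := hD.base.ind hsk a b 0 (by simpa using h)
  exact ⟨x, y⟩

theorem Dbl0.v0 : v ≠ 0 := fun h => hD.hv 0 (by simp [h])

theorem Dbl0.vU {w : V} (hw : ∀ n, Ω n e w = 0) (hw' : Ω n3 v w = 0) (n : Fin 3 → ℂ) :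
    Ω n v w = 0 := by
  obtain ⟨x, y, z, rfl⟩ := span3 (hD.base.ind hsk) n
  simp [(hD.kill w hw).1, (hD.kill w hw).2, hw']

theorem Dbl0.kerU (h1 : H1 Ω) {x : V} (hx : ∀ n, Ω n e x = 0)
    (h : ∀ w, (∀ n, Ω n e w = 0) → Ω n3 v w = 0 → Ω n3 x w = 0) : ∃ a b : ℂ, x = a • e + b • v := by
  obtain ⟨g, g1, g2⟩ : ∃ g, (∀ n, Ω n e g = 0) ∧ Ω n3 v g = 1 := by
    by_contra hh
    push Not at hh
    obtain ⟨c, hc⟩ := hD.base.nondeg hsk h1 (hD.vW _) (hD.vW _) (fun w a b => by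
      by_contra hne
      exact hh ((Ω n3 v w)⁻¹ • w) (fun n => by simp [hD.base.inW hsk a b n])
        (by rw [map_smul, smul_eq_mul, inv_mul_cancel₀ hne]))
    exact hD.hv c hc
  obtain ⟨c, hc⟩ := hD.base.nondeg hsk h1 (w := x - Ω n3 x g • v) (by simp [hx, hD.vW])
    (by simp [hx, hD.vW]) (fun w a b => by
      have := h (w - Ω n3 v w • g) (fun n => by simp [hD.base.inW hsk a b n, g1]) (by simp [g2])
      simp only [map_sub, map_smul, LinearMap.sub_apply, LinearMap.smul_apply, smul_eq_mul] at this ⊢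
      linear_combination this)
  exact ⟨c, _, sub_eq_iff_eq_add.mp hc⟩

theorem Dbl0.un (h1 : H1 Ω) {n' : Fin 3 → ℂ} {w : V} (hw : ∀ n, Ω n e w = 0)
    (hwe : ∀ c : ℂ, w ≠ c • e) (h : Ω n' w = 0) : ∃ a b : ℂ, n' = a • m1 + b • m2 := by
  have halt : ∀ n x, Ω n x x = 0 := fun n x => by linear_combination hsk n x x / 2
  obtain ⟨a, b, c, rfl⟩ := span3 (hD.base.ind hsk) n'
  by_cases hc : c = 0
  · exact ⟨a, b, by simp [hc]⟩
  exfalso
  have h' : ∀ y, a * Ω m1 w y + b * Ω m2 w y + c * Ω n3 w y = 0 := fun y => by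
    simpa using LinearMap.congr_fun h y
  have e1 : Ω n3 v w = 0 := by
    have := h' v
    rw [hsk m1, hsk m2, hsk n3, (hD.kill w hw).1, (hD.kill w hw).2] at this
    simpa [hc] using this
  obtain ⟨s, t, rfl⟩ := hD.kerU hsk h1 hw (fun w' x y => by
    have := h' w'
    rw [(hD.iso w w' hw e1 x y).1, (hD.iso w w' hw e1 x y).2] at this
    simpa [hc] using this)
  have ht : t ≠ 0 := fun h0 => hwe s (by simp [h0])
  obtain ⟨r, hr⟩ := hD.base.nondeg hsk h1 (hD.vW _) (hD.vW _) (fun w' x y => by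
    have hw' := hD.base.inW hsk x y
    have := h' w'
    simpa [hw', (hD.kill w' hw').1, (hD.kill w' hw').2, hc, ht] using this)
  exact hD.hv r hr

end

variable (hV : finrank ℂ V = 7) (hsk : ∀ n x y, Ω n x y = -Ω n y x) (h1 : H1 Ω)
  {m1 m2 n3 : Fin 3 → ℂ} {e k1 k2 v : V} (hD : Dbl0 Ω m1 m2 n3 e k1 k2 v)
include hV hsk h1 hD

theorem Dbl0.types :
    (∃ (o1 o2 : Fin 3 → ℂ) (j1 j2 v' : V) (δ : ℂ), δ ≠ 0 ∧ Dbl0 Ω o1 o2 n3 e j1 j2 v' ∧
      Ω o1 v' = 0 ∧ Ω o2 (v' - δ • e) = 0) ∨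
    ∃ (o1 o2 : Fin 3 → ℂ) (j1 j2 v' : V), Dbl0 Ω o1 o2 n3 e j1 j2 v' ∧ Ω o1 v' = 0 ∧ Ω o2 v' = Ω o1 e := by
  obtain ⟨s1, t1, g1⟩ := hD.base.comb hsk _ fun w a b => (hD.kill w (hD.base.inW hsk a b)).1
  obtain ⟨s2, t2, g2⟩ := hD.base.comb hsk _ fun w a b => (hD.kill w (hD.base.inW hsk a b)).2
  obtain ⟨a0, a1, ha, hq⟩ := exists_root_quad t1 (t2 - s1) (-s2)
  obtain ⟨l, hl0, hl1⟩ := par (s := a0 * s1 + a1 * s2) (t := a0 * t1 + a1 * t2) ha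
    (by linear_combination hq)
  obtain ⟨b0, b1, hb⟩ : ∃ b0 b1 : ℂ, a0 * b1 - a1 * b0 = 1 := by
    by_cases h0 : a0 = 0
    · have : a1 ≠ 0 := fun h => ha ⟨h0, h⟩
      exact ⟨-a1⁻¹, 0, by field_simp; ring⟩
    · exact ⟨0, a0⁻¹, by field_simp; ring⟩
  have e1 : Ω (a0 • m1 + a1 • m2) (v - l • e) = 0 := by
    simp only [map_add, map_sub, map_smul, LinearMap.add_apply, LinearMap.smul_apply, g1, g2]
    match_scalars
    · linear_combination hl0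
    · linear_combination hl1
  set μ := (b0 * s1 + b1 * s2) * b1 - (b0 * t1 + b1 * t2) * b0 with hμ
  set δ := (b0 * t1 + b1 * t2) * a0 - (b0 * s1 + b1 * s2) * a1 - l with hδ
  have e2 : Ω (b0 • m1 + b1 • m2) (v - l • e) =
      μ • Ω (a0 • m1 + a1 • m2) e + δ • Ω (b0 • m1 + b1 • m2) e := by
    simp only [map_add, map_sub, map_smul, LinearMap.add_apply, LinearMap.smul_apply, g1, g2, hμ, hδ]
    match_scalars
    · linear_combination -(b0 * s1 + b1 * s2) * hb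
    · linear_combination -(b0 * t1 + b1 * t2) * hb
  have hD' := hD.change hsk a0 a1 b0 b1 l (by rw [hb]; exact one_ne_zero)
  generalize a0 • m1 + a1 • m2 = o1 at e1 e2 hD'
  generalize b0 • m1 + b1 • m2 = o2 at e2 hD'
  generalize v - l • e = v' at e1 e2 hD'
  by_cases h0 : δ = 0
  · have hμ0 : μ ≠ 0 := fun h => no_common_kernel hV hsk h1 (hD'.ind2 hsk) (hD'.v0 hsk) e1
      (by rw [e2, h, h0]; simp)
    exact Or.inr ⟨_, _, _, _, _, hD'.change hsk μ 0 0 1 0 (by simpa using hμ0), by simp [e1],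
      by simp [e2, h0]⟩
  · refine Or.inl ⟨_, _, _, _, _, δ, h0, hD'.change hsk 1 0 μ δ 0 (by simpa using h0),
      by simp [e1], ?_⟩
    simp only [map_add, map_sub, map_smul, LinearMap.add_apply, LinearMap.smul_apply, e1, e2]
    module

theorem Dbl0.newBase {n m' : Fin 3 → ℂ} (hn : ∃ a b : ℂ, n = a • m1 + b • m2)
    (hm : ∃ a b : ℂ, m' = a • m1 + b • m2) (hn0 : n ≠ 0) {e' : V} (he' : e' ≠ 0) (h0 : Ω n e' = 0) :
    (∀ n, Ω n e e' = 0) ∧ Ω n3 v e' = 0 ∧ ∃ k' k'', Ω n k' = -Ω m' e' ∧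
      (IsBase Ω m' n3 n e' k' k'' ∨ (∃ a b : ℂ, e' = a • e + b • v) ∨
        ∃ a b c : ℂ, k' = a • e + b • v + c • e') := by
  have halt : ∀ n x, Ω n x x = 0 := fun n x => by linear_combination hsk n x x / 2
  have ve : Ω n3 v e = 0 := by rw [hsk, hD.vW, neg_zero]
  let f : V →ₗ[ℂ] (Fin 3 → ℂ) := LinearMap.pi ![Ω m1 e, Ω m2 e, Ω n3 v]
  have r1 := LinearMap.finrank_range_add_finrank_ker f
  have r2 : finrank ℂ (LinearMap.range f) ≤ 3 := by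
    simpa using (LinearMap.range f).finrank_le
  have hex : ∀ x : V, ∃ u, (∀ n, Ω n e u = 0) ∧ Ω n3 v u = 0 ∧
      ∀ a b c : ℂ, u ≠ a • e + b • v + c • x := by
    intro x
    obtain ⟨w, hw, hw'⟩ : ∃ w ∈ LinearMap.ker f, w ∉ Submodule.span ℂ (Set.range ![e, v, x]) := by
      by_contra hh
      push Not at hh
      have r3 := Submodule.finrank_mono (show LinearMap.ker f ≤ _ from hh)
      have r4 : finrank ℂ (Submodule.span ℂ (Set.range ![e, v, x])) ≤ 3 :=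
        finrank_range_le_card ![e, v, x]
      omega
    refine ⟨w, hD.base.inW hsk (congrFun hw 0) (congrFun hw 1), congrFun hw 2, fun a b c h => hw' ?_⟩
    rw [h]
    exact Submodule.add_mem _ (Submodule.add_mem _
      (Submodule.smul_mem _ _ (Submodule.subset_span ⟨0, rfl⟩))
      (Submodule.smul_mem _ _ (Submodule.subset_span ⟨1, rfl⟩)))
      (Submodule.smul_mem _ _ (Submodule.subset_span ⟨2, rfl⟩))
  have hiso : ∀ m : Fin 3 → ℂ, (∃ a b : ℂ, m = a • m1 + b • m2) → ∀ w w', (∀ n, Ω n e w = 0) →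
      Ω n3 v w = 0 → (∀ n, Ω n e w' = 0) → Ω n3 v w' = 0 → Ω m w w' = 0 := by
    rintro m ⟨a, b, rfl⟩ w w' x y x' y'
    simp [(hD.iso w w' x y x' y').1, (hD.iso w w' x y x' y').2]
  have i2 : Ind2 e v := Ind2.of_not hD.base.he hD.hv
  have hmax : ∀ u u', Ind4 e v u u' → (∀ n, Ω n e u = 0) → Ω n3 v u = 0 → (∀ n, Ω n e u' = 0) →
      Ω n3 v u' = 0 → ∀ x, Ω n e x = 0 → Ω n v x = 0 → Ω n u x = 0 → Ω n u' x = 0 →
      ∃ a b c d : ℂ, x = a • e + b • v + c • u + d • u' := fun u u' i a b c d =>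
    maxIso hV (Ω n) (hsk n) (h1 n hn0) i (hD.vW _) (a _) (c _) (hD.vU hsk a b _) (hD.vU hsk c d _)
      (hiso n hn u u' a b c d)
  obtain ⟨u, u1, u2, u3⟩ := hex 0
  obtain ⟨u', u1', u2', u3'⟩ := hex u
  have i4 : Ind4 e v u u' := Ind4.of_not (Ind3.of_not i2 fun a b h => u3 a b 0 (by simp [h])) u3'
  have hin : ∀ x, (∀ w, (∀ n, Ω n e w = 0) → Ω n3 v w = 0 → Ω n w x = 0) →
      (∀ n, Ω n e x = 0) ∧ Ω n3 v x = 0 := by
    intro x hx
    obtain ⟨a, b, c, d, rfl⟩ := hmax u u' i4 u1 u2 u1' u2' x (hx e (fun n => halt n e) ve)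
      (hx v hD.vW (halt _ _)) (hx u u1 u2) (hx u' u1' u2')
    exact ⟨fun n => by simp [halt, hD.vW, u1, u1'], by simp [halt, ve, u2, u2']⟩
  obtain ⟨e1, e2⟩ := hin e' fun w _ _ => by rw [hsk, h0]; simp
  have hpre : ∀ m, ∃ k, Ω n k = -Ω m e' := fun m => exists_preimage (Ω n) (hsk n) _ fun x hx => by
    obtain ⟨c, rfl⟩ := h1 n hn0 e' x h0 hx he'
    simp [halt]
  obtain ⟨k', hk'⟩ := hpre m'
  obtain ⟨k'', hk''⟩ := hpre n3
  obtain ⟨c1, c2⟩ := hin k' fun w x y => by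
    rw [hsk, hk', LinearMap.neg_apply, neg_neg]
    exact hiso m' hm e' w e1 e2 x y
  refine ⟨e1, e2, k', k'', hk', ?_⟩
  by_contra hh
  push Not at hh
  obtain ⟨hb, ha, hc⟩ := hh
  have hz : Ω n3 e' k' = 0 := by
    by_contra hne
    refine hb ⟨he', h0, hk', hk'', ?_⟩
    rw [hsk, hk'']
    simpa using hne
  have j4 : Ind4 e v e' k' := Ind4.of_not (Ind3.of_not i2 ha) hc
  obtain ⟨a, b, hab⟩ := hD.kerU hsk h1 e1 (fun w x y => by
    obtain ⟨a, b, c, d, rfl⟩ := hmax e' k' j4 e1 e2 c1 c2 w (x _) (hD.vU hsk x y _)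
      (hiso n hn e' w e1 e2 x y) (hiso n hn k' w c1 c2 x y)
    have t1 : Ω n3 e' e = 0 := by rw [hsk, e1, neg_zero]
    have t2 : Ω n3 e' v = 0 := by rw [hsk, e2, neg_zero]
    simp [t1, t2, halt, hz])
  exact ha a b hab

end Pool.Agent.Work.MP_7daf81_ag.V22
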