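import Pool.Agent.Work.MP_7daf81_ag.V22.Glob1

/-! Not every base member has a double line. -/

namespace Pool.Agent.Work.MP_7daf81_ag.V22

open Module

variable {V : Type} [AddCommGroup V] [Module ℂ V] [FiniteDimensional ℂ V]
variable {Ω : (Fin 3 → ℂ) →ₗ[ℂ] V →ₗ[ℂ] V →ₗ[ℂ] ℂ}
variable (hV : finrank ℂ V = 7) (hsk : ∀ n x y, Ω n x y = -Ω n y x) (h1 : H1 Ω)
include hV hsk h1

theorem case_two
    (hall : ∀ (n1 n2 n3 : Fin 3 → ℂ) (e k1 k2 : V), IsBase Ω n1 n2 n3 e k1 k2 → IsDbl Ω n1 n2 n3 e)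
    {m1 m2 n3 : Fin 3 → ℂ} {e k1 k2 v : V} (hD : Dbl0 Ω m1 m2 n3 e k1 k2 v) {δ : ℂ} (hδ : δ ≠ 0)
    (g1 : Ω m1 v = 0) (g2 : Ω m2 (v - δ • e) = 0) : False := by
  have halt : ∀ n x, Ω n x x = 0 := fun n x => by linear_combination hsk n x x / 2
  have i1 : Ind2 (m1 + m2) m1 := fun a b h => by
    obtain ⟨x, y⟩ := hD.ind2 hsk (a + b) a (by rw [← h]; module)
    exact ⟨y, by linear_combination x - y⟩
  have i2 : Ind2 (m1 + m2) m2 := fun a b h => by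
    obtain ⟨x, y⟩ := hD.ind2 hsk a (a + b) (by rw [← h]; module)
    exact ⟨x, by linear_combination y - x⟩
  have hn0 : m1 + m2 ≠ 0 := fun h => by simpa using (i1 1 0 (by simp [h])).1
  obtain ⟨e', he', h0⟩ := exists_ker_of_odd (Ω (m1 + m2)) (hsk _) (by rw [hV]; decide)
  obtain ⟨e1, e2, k', k'', hk', hcase⟩ := hD.newBase hV hsk h1 (n := m1 + m2) (m' := m1)
    ⟨1, 1, by simp⟩ ⟨1, 0, by simp⟩ hn0 he' h0
  have t1 : Ω m1 (v - δ • e) = Ω (m1 + m2) (v - δ • e) := by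
    rw [map_add, LinearMap.add_apply, g2, add_zero]
  have t2 : Ω (m1 + m2) e = δ⁻¹ • Ω (m1 + m2) v + (-δ⁻¹) • Ω (m1 + m2) (v - δ • e) := by
    rw [map_sub, map_smul]
    match_scalars <;> field_simp <;> ring
  have t3 : Ω m1 e = (-δ⁻¹) • Ω (m1 + m2) (v - δ • e) := by
    rw [← t1, map_sub, map_smul, g1]
    match_scalars
    field_simp
  have hK : (∃ b c : ℂ, Ω m1 e' = b • Ω (m1 + m2) v + c • Ω (m1 + m2) (v - δ • e)) → False :=
    fun h => lemmaK hV hsk h1 i1 he' h0 (y1 := v) (y2 := v - δ • e)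
      (by rw [map_sub, map_smul, halt, hsk, hD.vW]; simp) h ⟨0, 0, by simp [g1]⟩
      ⟨0, 1, by rw [t1]; simp⟩
  rcases hcase with hB | ⟨a, b, h⟩ | ⟨a, b, c, h⟩
  · obtain ⟨o1, o2, v', hD'⟩ := (hall _ _ _ _ _ _ hB).dbl0 hsk hB
    have w1 : ∀ n, Ω n e' v = 0 := fun n => by rw [hsk, hD.vU hsk e1 e2, neg_zero]
    have w2 : ∀ n, Ω n e' (v - δ • e) = 0 := fun n => by
      rw [map_sub, map_smul, w1, hsk, e1]; simp
    obtain ⟨a, b, hab⟩ := hD'.un hsk h1 w1 (fun c hc => no_common_kernel hV hsk h1 i1 (hD.v0 hsk)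
      (by rw [hc, map_smul, h0, smul_zero]) g1) g1
    obtain ⟨a', b', hab'⟩ := hD'.un hsk h1 w2 (fun c hc => no_common_kernel hV hsk h1 i2
      (fun h => hD.hv δ (sub_eq_zero.mp h)) (by rw [hc, map_smul, h0, smul_zero]) g2) g2
    have := (hD'.base.ind hsk (a + a') (b + b') (-1) (by rw [hab, hab']; module)).2.2
    simp at this
  · exact hK ⟨0, -(a * δ⁻¹), by rw [h, map_add, map_smul, map_smul, g1, t3]; module⟩
  · refine hK ⟨-(a * δ⁻¹) - b, a * δ⁻¹, ?_⟩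
    rw [← neg_neg (Ω m1 e'), ← hk', h, map_add (Ω _), map_add (Ω _), map_smul, map_smul, map_smul,
      h0, t2]
    module

theorem jordan_base {m1 m2 n3 : Fin 3 → ℂ} {e k1 k2 v : V} (hD : Dbl0 Ω m1 m2 n3 e k1 k2 v)
    (g1 : Ω m1 v = 0) (g2 : Ω m2 v = Ω m1 e) {n : Fin 3 → ℂ} {x y : ℂ} (hn : n = x • m1 + y • m2)
    (hy : y ≠ 0) {e' : V} (he' : e' ≠ 0) (h0 : Ω n e' = 0) :
    (∀ n, Ω n e e' = 0) ∧ Ω n3 v e' = 0 ∧ (∀ a b : ℂ, e' ≠ a • e + b • v) ∧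
      ∃ k' k'', IsBase Ω m1 n3 n e' k' k'' := by
  have i1 : Ind2 n m1 := fun a b h => by
    obtain ⟨s, t⟩ := hD.ind2 hsk (a * x + b) (a * y) (by rw [← h, hn]; module)
    have ha := (mul_eq_zero.mp t).resolve_right hy
    exact ⟨ha, by linear_combination s - x * ha⟩
  have hn0 : n ≠ 0 := fun h => by simpa using (i1 1 0 (by simp [h])).1
  obtain ⟨e1, e2, k', k'', hk', hcase⟩ := hD.newBase hV hsk h1 (n := n) (m' := m1)
    ⟨x, y, hn⟩ ⟨1, 0, by simp⟩ hn0 he' h0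
  have t1 : Ω m1 e = y⁻¹ • Ω n v := by
    rw [hn, map_add, map_smul, map_smul, LinearMap.add_apply, LinearMap.smul_apply,
      LinearMap.smul_apply, g1, g2]
    match_scalars
    field_simp
  have hK : (∃ b c : ℂ, Ω m1 e' = b • Ω n v + c • Ω n e) → False :=
    fun h => lemmaK hV hsk h1 i1 he' h0 (y1 := v) (y2 := e) (by rw [hsk, hD.vW, neg_zero]) h
      ⟨0, 0, by simp [g1]⟩ ⟨y⁻¹, 0, by rw [t1]; simp⟩
  have hA : ∀ a b : ℂ, e' ≠ a • e + b • v := fun a b h =>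
    hK ⟨a * y⁻¹, 0, by rw [h, map_add, map_smul, map_smul, g1, t1]; module⟩
  refine ⟨e1, e2, hA, k', k'', ?_⟩
  rcases hcase with hB | ⟨a, b, h⟩ | ⟨a, b, c, h⟩
  · exact hB
  · exact (hA a b h).elim
  · refine (hK ⟨-b, -a, ?_⟩).elim
    rw [← neg_neg (Ω m1 e'), ← hk', h, map_add (Ω _), map_add (Ω _), map_smul, map_smul, map_smul,
      h0]
    module

theorem case_three
    (hall : ∀ (n1 n2 n3 : Fin 3 → ℂ) (e k1 k2 : V), IsBase Ω n1 n2 n3 e k1 k2 → IsDbl Ω n1 n2 n3 e)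
    {m1 m2 n3 : Fin 3 → ℂ} {e k1 k2 v : V} (hD : Dbl0 Ω m1 m2 n3 e k1 k2 v)
    (g1 : Ω m1 v = 0) (g2 : Ω m2 v = Ω m1 e) : False := by
  have halt : ∀ n x, Ω n x x = 0 := fun n x => by linear_combination hsk n x x / 2
  have hm1 : m1 ≠ 0 := fun h => by simpa using (hD.ind2 hsk 1 0 (by simp [h])).1
  have hv0 := hD.v0 hsk
  obtain ⟨kω, hkω⟩ := exists_preimage (Ω m1) (hsk m1) (-Ω n3 v) fun x hx => by
    obtain ⟨c, rfl⟩ := h1 m1 hm1 v x g1 hx hv0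
    simp [halt]
  have hT : ∀ n : Fin 3 → ℂ, ∃ b c : ℂ, Ω n v = Ω m1 (b • e + c • kω) := by
    intro n
    obtain ⟨a, b, c, rfl⟩ := span3 (hD.base.ind hsk) n
    refine ⟨b, -c, ?_⟩
    simp only [map_add, map_smul, LinearMap.add_apply, LinearMap.smul_apply, g1, g2, hkω]
    module
  have hek : Ω m1 kω e = 0 := by rw [hkω, LinearMap.neg_apply, hsk, hD.vW]; simp
  have hnot : ∀ (n1 n2 : Fin 3 → ℂ) (k k' : V), ¬IsBase Ω n1 n2 m1 v k k' := by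
    intro n1 n2 k k' hB
    obtain ⟨b, c, h⟩ := hT n1
    obtain ⟨b', c', h'⟩ := hT n2
    apply hB.hg
    have s1 : ∀ z, Ω m1 z k' = Ω m1 (b' • e + c' • kω) z := fun z => by
      rw [hsk, hB.hk2, h', LinearMap.neg_apply, neg_neg]
    rw [hB.hk1, h, LinearMap.neg_apply, s1]
    simp [halt, hek, hsk m1 e kω]
  have hx : ∀ x : ℂ, ∃ (e' : V) (α β δ : ℂ), e' ≠ 0 ∧ Ω (x • m1 + m2) e' = 0 ∧
      e' = α • v + β • e + δ • kω ∧ δ ≠ 0 := by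
    intro x
    obtain ⟨e', he', h0⟩ := exists_ker_of_odd (Ω (x • m1 + m2)) (hsk _) (by rw [hV]; decide)
    obtain ⟨e1, e2, e3, k', k'', hB⟩ := jordan_base hV hsk h1 hD g1 g2 (n := x • m1 + m2) (x := x)
      (y := 1) (by simp) one_ne_zero he' h0
    obtain ⟨p1, p2, v0, hD0⟩ := (hall _ _ _ _ _ _ hB).dbl0 hsk hB
    rcases hD0.types hV hsk h1 with ⟨o1, o2, j1, j2, v', δ, hδ, hD', a, b⟩ |
      ⟨o1, o2, j1, j2, v', hD', a1, a2⟩
    · exact (case_two hV hsk h1 hall hD' hδ a b).elim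
    have w1 : ∀ n, Ω n e' v = 0 := fun n => by rw [hsk, hD.vU hsk e1 e2, neg_zero]
    obtain ⟨a, b, hab⟩ := hD'.un hsk h1 w1 (fun c hc => by
      have hc0 : c ≠ 0 := fun h => hv0 (by rw [hc, h, zero_smul])
      exact e3 0 c⁻¹ (by rw [hc, smul_smul, inv_mul_cancel₀ hc0]; simp)) g1
    have hb : b = 0 := by
      by_contra hb
      obtain ⟨-, -, -, k, k', hB'⟩ := jordan_base hV hsk h1 hD' a1 a2 hab hb hv0 g1
      exact hnot _ _ _ _ hB'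
    rw [hb, zero_smul, add_zero] at hab
    obtain ⟨c, hc⟩ := h1 m1 hm1 v v' g1 (by rw [hab]; simp [a1]) hv0
    obtain ⟨s, t, hst⟩ := hT o2
    obtain ⟨r, hr⟩ := h1 m1 hm1 v (e' - (a * c) • (s • e + t • kω)) g1 (by
      rw [map_sub, map_smul, ← hst]
      nth_rewrite 1 [hab]
      rw [map_smul, LinearMap.smul_apply, ← a2, hc, map_smul]
      module) hv0
    have he2 : e' = r • v + (a * c * s) • e + (a * c * t) • kω := by
      rw [sub_eq_iff_eq_add.mp hr]; module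
    refine ⟨e', r, a * c * s, a * c * t, he', h0, he2, fun h => e3 (a * c * s) r ?_⟩
    rw [he2, h]; module
  obtain ⟨e0, α0, β0, δ0, he0, z0, f0, -⟩ := hx 0
  obtain ⟨e1, α1, β1, δ1, -, z1, f1, hδ1⟩ := hx 1
  rw [zero_smul, zero_add] at z0
  rw [one_smul] at z1
  have i1 : Ind2 m2 m1 := fun a b h => by
    obtain ⟨s, t⟩ := hD.ind2 hsk b a (by rw [← h]; module)
    exact ⟨t, s⟩
  refine lemmaK hV hsk h1 i1 he0 z0 (y1 := v) (y2 := e) (by rw [hsk, hD.vW, neg_zero])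
    ⟨β0 + α0 - δ0 / δ1 * (β1 + α1), β0 - δ0 / δ1 * β1, ?_⟩ ⟨0, 0, by simp [g1]⟩ ⟨1, 0, by simp [g2]⟩
  rw [f0] at z0 ⊢
  rw [f1] at z1
  simp only [map_add, map_smul, LinearMap.add_apply, g1, g2] at z0 z1 ⊢
  ext y
  have y0 := LinearMap.congr_fun z0 y
  have y1 := LinearMap.congr_fun z1 y
  simp only [LinearMap.add_apply, LinearMap.smul_apply, smul_eq_mul, LinearMap.zero_apply] at y0 y1 ⊢
  field_simp
  linear_combination δ0 * y1 - δ1 * y0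

omit h1 in
theorem exists_good (hS : Sm Ω) : ∃ (n1 n2 n3 : Fin 3 → ℂ) (e k1 k2 : V),
    IsBase Ω n1 n2 n3 e k1 k2 ∧ IsGood Ω n1 n2 n3 e k1 k2 := by
  have h1 := h1_of_sm hV hsk hS
  by_contra hh
  have hall : ∀ (n1 n2 n3 : Fin 3 → ℂ) (e k1 k2 : V), IsBase Ω n1 n2 n3 e k1 k2 →
      IsDbl Ω n1 n2 n3 e := fun n1 n2 n3 e k1 k2 hB =>
    (good_or_dbl hV hsk h1 hB).resolve_left fun hG => hh ⟨_, _, _, _, _, _, hB, hG⟩
  obtain ⟨n1, n2, n3, e, k1, k2, hB⟩ := exists_base hV hsk hS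
  obtain ⟨m1, m2, v, hD⟩ := (hall _ _ _ _ _ _ hB).dbl0 hsk hB
  rcases hD.types hV hsk h1 with ⟨o1, o2, j1, j2, v', δ, hδ, hD', a, b⟩ |
    ⟨o1, o2, j1, j2, v', hD', a1, a2⟩
  · exact case_two hV hsk h1 hall hD' hδ a b
  · exact case_three hV hsk h1 hall hD' a1 a2

end Pool.Agent.Work.MP_7daf81_ag.V22
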