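import Pool.Agent.Work.MP_7daf81_ag.V22.Defs

/-! Internal notions for the proof. -/

namespace Pool.Agent.Work.MP_7daf81_ag.V22

/-- The conclusion of the theorem. -/
def ToricChart (ω : Fin 3 → Matrix (Fin 7) (Fin 7) ℂ) : Prop :=
  ∃ b : Fin 3 ⊕ Fin 4 → Fin 7 → ℂ, LinearIndependent ℂ b ∧
    ∃ x : Fin 3 × Fin 4 → K, Isotropic ω (chartPoint b x) ∧
      IntermediateField.adjoin ℂ (Set.range x) = ⊤ ∧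
      jacE ω b x ≠ 0 ∧ ∃ c : ℂ, c ≠ 0 ∧ ∀ D : Fin 3 → Derivation ℂ K K,
        (Matrix.of fun i j => D i (x (j, 0))).det * (tt 0 * tt 1 * tt 2) =
          algebraMap ℂ K c * (Matrix.of fun i j => D i (tt j)).det * jacE ω b x

/-- Jacobian of three functions for three derivations. -/
noncomputable def Jac (D : Fin 3 → Derivation ℂ K K) (y : Fin 3 → K) : K :=
  (Matrix.of fun i j => D i (y j)).det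

/-- The form `dy / F(y)` on affine three-space is the torus form in suitable coordinates. -/
def Toric (F : K → K → K → K) : Prop :=
  ∃ (y : Fin 3 → K) (c : ℂ), c ≠ 0 ∧ F (y 0) (y 1) (y 2) ≠ 0 ∧
    (∀ i, tt i ∈ IntermediateField.adjoin ℂ (Set.range y)) ∧
    ∀ D : Fin 3 → Derivation ℂ K K,
      Jac D y * (tt 0 * tt 1 * tt 2) = algebraMap ℂ K c * Jac D tt * F (y 0) (y 1) (y 2)

/-- The product of two binary linear forms, as coefficients of `a₁², a₁a₂, a₂²`. -/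
def mu {F : Type} [CommRing F] (c0 c1 y0 y1 : F) : Fin 3 → F :=
  ![c0 * y0, c0 * y1 + c1 * y0, c1 * y1]

/-- The cubic surface. -/
noncomputable def Scub {F : Type} [CommRing F] (θ2 θ3 : Fin 3 → F) (c1 c2 c3 : Fin 2 → F)
    (y : Fin 4 → F) : F :=
  Matrix.det !![y 2 * θ3 0 + c1 0 * y 0, y 2 * θ3 1 + (c1 0 * y 1 + c1 1 * y 0), y 2 * θ3 2 + c1 1 * y 1;
    y 3 * θ3 0 - y 2 * θ2 0 + c2 0 * y 0, y 3 * θ3 1 - y 2 * θ2 1 + (c2 0 * y 1 + c2 1 * y 0),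
      y 3 * θ3 2 - y 2 * θ2 2 + c2 1 * y 1;
    y 3 * θ2 0 - c3 0 * y 0, y 3 * θ2 1 - (c3 0 * y 1 + c3 1 * y 0), y 3 * θ2 2 - c3 1 * y 1]

/-- The numerical condition under which the cubic surface has a good line. -/
def GoodNum (θ2 θ3 : Fin 3 → ℂ) (c1 c2 c3 : Fin 2 → ℂ) : Prop :=
  ((c2 0 * c3 1 - c2 1 * c3 0) * (c1 0 * c2 1 - c1 1 * c2 0) - (c3 0 * c1 1 - c3 1 * c1 0) ^ 2 ≠ 0 ∧
      ∃ s r : ℂ, (s * θ2 1 + r * θ3 1) ^ 2 - 4 * (s * θ2 0 + r * θ3 0) * (s * θ2 2 + r * θ3 2) ≠ 0) ∨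
    (c1 0 = 0 ∧ c1 1 = 0 ∧ ∃ y0 y1 : ℂ, (Matrix.of ![θ3, mu (c2 0) (c2 1) y0 y1, θ2]).det ≠ 0)

section Net

variable {V : Type} [AddCommGroup V] [Module ℂ V]

/-- Dual form of smoothness. -/
def Sm (Ω : (Fin 3 → ℂ) →ₗ[ℂ] V →ₗ[ℂ] V →ₗ[ℂ] ℂ) : Prop :=
  ∀ u0 u1 u2 : V, LinearIndependent ℂ ![u0, u1, u2] →
    (∀ n, Ω n u0 u1 = 0) → (∀ n, Ω n u0 u2 = 0) → (∀ n, Ω n u1 u2 = 0) →
    ∀ n0 n1 n2 : Fin 3 → ℂ, Ω n1 u2 = Ω n2 u1 → Ω n2 u0 = Ω n0 u2 → Ω n0 u1 = Ω n1 u0 →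
      n0 = 0 ∧ n1 = 0 ∧ n2 = 0

/-- Every nonzero member of the net has kernel of dimension at most one. -/
def H1 (Ω : (Fin 3 → ℂ) →ₗ[ℂ] V →ₗ[ℂ] V →ₗ[ℂ] ℂ) : Prop :=
  ∀ n : Fin 3 → ℂ, n ≠ 0 → ∀ x y : V, Ω n x = 0 → Ω n y = 0 → x ≠ 0 → ∃ c : ℂ, y = c • x

/-- A member `n3` of the net with nondegenerate restriction to the tangent plane. -/
structure IsBase (Ω : (Fin 3 → ℂ) →ₗ[ℂ] V →ₗ[ℂ] V →ₗ[ℂ] ℂ) (n1 n2 n3 : Fin 3 → ℂ)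
    (e k1 k2 : V) : Prop where
  he : e ≠ 0
  h3 : Ω n3 e = 0
  hk1 : Ω n3 k1 = -Ω n1 e
  hk2 : Ω n3 k2 = -Ω n2 e
  hg : Ω n3 k1 k2 ≠ 0

/-- A point of the conic with a dual pair of vectors. -/
structure IsNF (Ω : (Fin 3 → ℂ) →ₗ[ℂ] V →ₗ[ℂ] V →ₗ[ℂ] ℂ) (n1 n2 n3 : Fin 3 → ℂ)
    (e u2 u3 f2 f3 : V) : Prop where
  a12 : Ω n1 e u2 = 0
  a13 : Ω n1 e u3 = 0
  a22 : Ω n2 e u2 = 0
  a23 : Ω n2 e u3 = 0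
  b12 : Ω n1 e f2 = 0
  b13 : Ω n1 e f3 = 0
  b22 : Ω n2 e f2 = 0
  b23 : Ω n2 e f3 = 0
  i1 : Ω n1 u2 u3 = 0
  i2 : Ω n2 u2 u3 = 0
  i3 : Ω n3 u2 u3 = 0
  d22 : Ω n3 u2 f2 = 1
  d23 : Ω n3 u2 f3 = 0
  d32 : Ω n3 u3 f2 = 0
  d33 : Ω n3 u3 f3 = 1

/-- The binary quadratic form attached to a vector. -/
def theta (Ω : (Fin 3 → ℂ) →ₗ[ℂ] V →ₗ[ℂ] V →ₗ[ℂ] ℂ) (n1 n2 : Fin 3 → ℂ) (k1 k2 w : V) :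
    Fin 3 → ℂ :=
  ![Ω n1 w k1, Ω n1 w k2 + Ω n2 w k1, Ω n2 w k2]

/-- A good point on the conic. -/
def IsGood (Ω : (Fin 3 → ℂ) →ₗ[ℂ] V →ₗ[ℂ] V →ₗ[ℂ] ℂ) (n1 n2 n3 : Fin 3 → ℂ)
    (e k1 k2 : V) : Prop :=
  ∃ u2 u3 f2 f3 : V, IsNF Ω n1 n2 n3 e u2 u3 f2 f3 ∧
    GoodNum (theta Ω n1 n2 k1 k2 u2) (theta Ω n1 n2 k1 k2 u3)
      ![-Ω n1 u3 f2, -Ω n2 u3 f2]
      ![Ω n1 u2 f2 - Ω n1 u3 f3, Ω n2 u2 f2 - Ω n2 u3 f3]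
      ![Ω n1 u2 f3, Ω n2 u2 f3]

/-- The conic is a double line. -/
def IsDbl (Ω : (Fin 3 → ℂ) →ₗ[ℂ] V →ₗ[ℂ] V →ₗ[ℂ] ℂ) (n1 n2 n3 : Fin 3 → ℂ) (e : V) : Prop :=
  ∃ (β1 β2 : ℂ) (v : V), Ω n1 e v = 0 ∧ Ω n2 e v = 0 ∧ (∀ c : ℂ, v ≠ c • e) ∧
    (∀ w, Ω n1 e w = 0 → Ω n2 e w = 0 →
      Ω (n1 - β1 • n3) v w = 0 ∧ Ω (n2 - β2 • n3) v w = 0) ∧
    ∀ w w', Ω n1 e w = 0 → Ω n2 e w = 0 → Ω n3 v w = 0 →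
      Ω n1 e w' = 0 → Ω n2 e w' = 0 → Ω n3 v w' = 0 →
      Ω (n1 - β1 • n3) w w' = 0 ∧ Ω (n2 - β2 • n3) w w' = 0

end Net

end Pool.Agent.Work.MP_7daf81_ag.V22
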