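import Pool.Agent.Work.MP_7daf81_ag.V22.Iface

/-! The nine by nine matrix of a tensor and its covariance. -/

namespace Pool.Agent.Work.MP_7daf81_ag.V22

open Matrix
open scoped Kronecker

variable {F : Type} [Field F]

/-- Cross product matrix. -/
def cr (v : Fin 3 → F) : Matrix (Fin 3) (Fin 3) F :=
  !![0, -v 2, v 1; v 2, 0, -v 0; -v 1, v 0, 0]

/-- Koszul flattening of a tensor. -/
def Kos (B : Fin 3 → Fin 3 → Fin 3 → F) : Matrix (Fin 3 × Fin 3) (Fin 3 × Fin 3) F :=
  Matrix.of fun p q => cr (B q.1 p.2) p.1 q.2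

theorem cr_sum (g : Fin 3 → F) (v : Fin 3 → Fin 3 → F) (j r : Fin 3) :
    cr (fun l => ∑ k', g k' * v k' l) j r = ∑ k', cr (v k') j r * g k' := by
  fin_cases j <;> fin_cases r <;> simp [cr, Fin.sum_univ_three] <;> ring

theorem cr_cov (Γ : Matrix (Fin 3) (Fin 3) F) (v : Fin 3 → F) (j r : Fin 3) :
    ∑ r', (∑ j', Γ j j' * cr (fun l => ∑ l', v l' * Γ l' l) j' r') * Γ r r' = Γ.det * cr v j r := by
  simp only [Fin.sum_univ_three, det_fin_three, cr, of_apply, cons_val_zero, cons_val_one, cons_val]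
  fin_cases j <;> fin_cases r <;> simp <;> ring

theorem Kos_cov1 (B : Fin 3 → Fin 3 → Fin 3 → F) (g : Matrix (Fin 3) (Fin 3) F) :
    (Kos fun k i l => ∑ k', g k k' * B k' i l).det = g.det ^ 3 * (Kos B).det := by
  have : (Kos fun k i l => ∑ k', g k k' * B k' i l) =
      Kos B * (gᵀ ⊗ₖ (1 : Matrix (Fin 3) (Fin 3) F)) := by
    ext ⟨j, i⟩ ⟨k, r⟩
    simp only [Kos, Matrix.mul_apply, Fintype.sum_prod_type, Matrix.of_apply, kroneckerMap_apply,
      Matrix.transpose_apply, Matrix.one_apply, mul_ite, mul_one, mul_zero, Finset.sum_ite_eq',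
      Finset.mem_univ, if_true]
    exact cr_sum (g k) (fun k' => B k' i) j r
  rw [this, det_mul, det_kronecker]
  simp [mul_comm]

theorem Kos_cov2 (B : Fin 3 → Fin 3 → Fin 3 → F) (Γ : Matrix (Fin 3) (Fin 3) F) (hΓ : Γ.det ≠ 0) :
    (Kos fun k i l => ∑ l', B k i l' * Γ l' l).det = Γ.det ^ 3 * (Kos B).det := by
  have e1 : ∀ (M : Matrix (Fin 3 × Fin 3) (Fin 3 × Fin 3) F) j i q,
      ((Γ ⊗ₖ (1 : Matrix (Fin 3) (Fin 3) F)) * M) (j, i) q = ∑ j', Γ j j' * M (j', i) q := by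
    intro M j i q
    simp [Matrix.mul_apply, Fintype.sum_prod_type, Matrix.one_apply]
  have e2 : ∀ (M : Matrix (Fin 3 × Fin 3) (Fin 3 × Fin 3) F) p k r,
      (M * ((1 : Matrix (Fin 3) (Fin 3) F) ⊗ₖ Γᵀ)) p (k, r) = ∑ r', M p (k, r') * Γ r r' := by
    intro M p k r
    simp only [Matrix.mul_apply, Fintype.sum_prod_type, Matrix.one_apply, kroneckerMap_apply,
      transpose_apply]
    rw [Finset.sum_comm]
    simp
  have : (Γ ⊗ₖ (1 : Matrix (Fin 3) (Fin 3) F)) * (Kos fun k i l => ∑ l', B k i l' * Γ l' l) *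
      ((1 : Matrix (Fin 3) (Fin 3) F) ⊗ₖ Γᵀ) = Γ.det • Kos B := by
    ext ⟨j, i⟩ ⟨k, r⟩
    rw [e2]
    simp only [e1, Kos, of_apply, Matrix.smul_apply, smul_eq_mul]
    exact cr_cov Γ (B k i) j r
  have h := congrArg Matrix.det this
  rw [det_mul, det_mul, det_kronecker, det_kronecker, det_smul] at h
  simp only [det_one, det_transpose, Fintype.card_fin, Fintype.card_prod, one_pow, mul_one,
    one_mul] at h
  have h6 : Γ.det ^ 6 ≠ 0 := pow_ne_zero _ hΓ
  apply mul_left_cancel₀ h6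
  linear_combination h

theorem det_block3 (T : Matrix (Fin 3 × Fin 3) (Fin 3 × Fin 3) F)
    (h10 : ∀ r s, T (1, r) (0, s) = 0) (h20 : ∀ r s, T (2, r) (0, s) = 0)
    (h21 : ∀ r s, T (2, r) (1, s) = 0) :
    T.det = (Matrix.of fun r s => T (0, r) (0, s)).det *
      ((Matrix.of fun r s => T (1, r) (1, s)).det * (Matrix.of fun r s => T (2, r) (2, s)).det) := by
  let e : Fin 3 ⊕ Fin 3 ⊕ Fin 3 ≃ Fin 3 × Fin 3 :=
    ⟨Sum.elim (fun r => (0, r)) (Sum.elim (fun r => (1, r)) fun r => (2, r)),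
      fun p => if p.1 = 0 then Sum.inl p.2 else if p.1 = 1 then Sum.inr (Sum.inl p.2)
        else Sum.inr (Sum.inr p.2), by decide, by decide⟩
  rw [← det_submatrix_equiv_self e]
  have : T.submatrix e e = fromBlocks (Matrix.of fun r s => T (0, r) (0, s))
      (Matrix.of fun r s => T (0, r) (e (Sum.inr s))) 0
      (fromBlocks (Matrix.of fun r s => T (1, r) (1, s)) (Matrix.of fun r s => T (1, r) (2, s)) 0
        (Matrix.of fun r s => T (2, r) (2, s))) := by
    ext a b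
    rcases a with a | a | a <;> rcases b with b | b | b
    · rfl
    · rfl
    · rfl
    · exact h10 a b
    · rfl
    · rfl
    · exact h20 a b
    · exact h21 a b
    · rfl
  rw [this, det_fromBlocks_zero₂₁, det_fromBlocks_zero₂₁]

/-- A matrix of blocks as one matrix. -/
def blk (A : Matrix (Fin 3) (Fin 3) (Matrix (Fin 3) (Fin 3) F)) :
    Matrix (Fin 3 × Fin 3) (Fin 3 × Fin 3) F :=
  Matrix.of fun p q => A p.1 q.1 p.2 q.2

theorem blk_mul (A B : Matrix (Fin 3) (Fin 3) (Matrix (Fin 3) (Fin 3) F)) :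
    blk A * blk B = blk (A * B) := by
  ext ⟨a, m⟩ ⟨b, n⟩
  simp only [blk, Matrix.mul_apply, Fintype.sum_prod_type, of_apply, Matrix.sum_apply]

theorem det_blk_up (A : Matrix (Fin 3) (Fin 3) (Matrix (Fin 3) (Fin 3) F)) (h10 : A 1 0 = 0)
    (h20 : A 2 0 = 0) (h21 : A 2 1 = 0) :
    (blk A).det = (A 0 0).det * ((A 1 1).det * (A 2 2).det) := by
  rw [det_block3]
  · rfl
  · intro r s; simp only [blk, of_apply, h10, Matrix.zero_apply]
  · intro r s; simp only [blk, of_apply, h20, Matrix.zero_apply]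
  · intro r s; simp only [blk, of_apply, h21, Matrix.zero_apply]

theorem det_blk_low (A : Matrix (Fin 3) (Fin 3) (Matrix (Fin 3) (Fin 3) F)) (h10 : A 0 1 = 0)
    (h20 : A 0 2 = 0) (h21 : A 1 2 = 0) :
    (blk A).det = (A 0 0).det * ((A 1 1).det * (A 2 2).det) := by
  rw [← det_transpose, det_block3, ← det_transpose (A 0 0), ← det_transpose (A 1 1),
    ← det_transpose (A 2 2)]
  · rfl
  · intro r s; simp only [blk, transpose_apply, of_apply, h10, Matrix.zero_apply]
  · intro r s; simp only [blk, transpose_apply, of_apply, h20, Matrix.zero_apply]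
  · intro r s; simp only [blk, transpose_apply, of_apply, h21, Matrix.zero_apply]

end Pool.Agent.Work.MP_7daf81_ag.V22
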