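import Pool.Agent.Work.MP_7daf81_ag.V22.Kos

/-! The determinant of the nine by nine matrix in normal form. -/

namespace Pool.Agent.Work.MP_7daf81_ag.V22

open Matrix

variable {F : Type} [Field F]

/-- Row permutation. -/
def sigR : Equiv.Perm (Fin 3 × Fin 3) :=
  ⟨fun p => ![![(0, 1), (1, 1), (1, 2)], ![(0, 2), (2, 2), (2, 1)], ![(0, 0), (1, 0), (2, 0)]] p.1 p.2,
    fun p => ![![(2, 0), (0, 0), (1, 0)], ![(2, 1), (0, 1), (0, 2)], ![(2, 2), (1, 2), (1, 1)]] p.1 p.2,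
    by decide, by decide⟩

/-- Column permutation. -/
def sigC : Equiv.Perm (Fin 3 × Fin 3) :=
  ⟨fun p => ![![(2, 0), (2, 1), (2, 2)], ![(0, 1), (1, 1), (1, 0)], ![(0, 2), (1, 2), (0, 0)]] p.1 p.2,
    fun p => ![![(2, 2), (1, 0), (2, 0)], ![(1, 2), (1, 1), (2, 1)], ![(0, 0), (0, 1), (0, 2)]] p.1 p.2,
    by decide, by decide⟩

theorem Kos_perm (B : Fin 3 → Fin 3 → Fin 3 → F) : (Kos B).submatrix sigR sigC =
    blk !![!![0, -B 2 1 2, B 2 1 1; B 2 1 2, 0, -B 2 1 0; B 2 2 2, 0, -B 2 2 0],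
      !![-B 0 1 2, -B 1 1 2, 0; 0, 0, B 1 1 2; 0, 0, B 1 2 2],
      !![B 0 1 1, B 1 1 1, 0; -B 0 1 0, -B 1 1 0, B 0 1 2; -B 0 2 0, -B 1 2 0, B 0 2 2];
      !![0, -B 2 2 2, B 2 2 1; -B 2 2 1, B 2 2 0, 0; -B 2 1 1, B 2 1 0, 0],
      !![-B 0 2 2, -B 1 2 2, 0; B 0 2 0, B 1 2 0, -B 1 2 1; B 0 1 0, B 1 1 0, -B 1 1 1],
      !![B 0 2 1, B 1 2 1, 0; 0, 0, -B 0 2 1; 0, 0, -B 0 1 1];
      !![0, -B 2 0 2, B 2 0 1; B 2 0 2, 0, -B 2 0 0; -B 2 0 1, B 2 0 0, 0],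
      !![-B 0 0 2, -B 1 0 2, 0; 0, 0, B 1 0 2; B 0 0 0, B 1 0 0, -B 1 0 1],
      !![B 0 0 1, B 1 0 1, 0; -B 0 0 0, -B 1 0 0, B 0 0 2; 0, 0, -B 0 0 1]] := by
  ext ⟨a, m⟩ ⟨b, n⟩
  fin_cases a <;> fin_cases m <;> fin_cases b <;> fin_cases n <;> rfl

theorem blk_prod (L10 L11 C11 C21 M00 M01 M02 M10 M11 M12 M20 M21 M22 : Matrix (Fin 3) (Fin 3) F)
    (h10 : L10 * M00 + L11 * M10 = 0) (h20 : M20 = 0) (h21 : M21 * C11 + M22 * C21 = 0) :
    L11.det * (blk !![M00, M01, M02; M10, M11, M12; M20, M21, M22]).det * C11.det =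
      M00.det * (((L10 * M01 + L11 * M11) * C11 + (L10 * M02 + L11 * M12) * C21).det * M22.det) := by
  have hL : (blk !![1, 0, 0; L10, L11, 0; 0, 0, 1]).det = L11.det := by
    rw [det_blk_low] <;> simp
  have hC : (blk !![1, 0, 0; 0, C11, 0; 0, C21, 1]).det = C11.det := by
    rw [det_blk_low] <;> simp
  rw [← hL, ← hC, ← det_mul, ← det_mul, blk_mul, blk_mul, Matrix.mul_fin_three, Matrix.mul_fin_three,
    det_blk_up] <;> simp [h10, h20, h21]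

theorem Kos_std0 (B : Fin 3 → Fin 3 → Fin 3 → F) (γ y0 y1 t : F) (hY : y0 ≠ 0)
    (h000 : B 0 0 0 = 0) (h001 : B 0 0 1 = -γ) (h002 : B 0 0 2 = 0)
    (h100 : B 1 0 0 = γ) (h101 : B 1 0 1 = 0) (h102 : B 1 0 2 = 0)
    (h200 : B 2 0 0 = 0) (h201 : B 2 0 1 = 0) (h202 : B 2 0 2 = 0)
    (h210 : B 2 1 0 = 0) (h211 : B 2 1 1 = 0) (h212 : B 2 1 2 = 1)
    (h220 : B 2 2 0 = -y0) (h221 : B 2 2 1 = -y1) (h222 : B 2 2 2 = -t) :
    ((Kos B).submatrix sigR sigC).det = -(γ ^ 3 * Matrix.det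
      !![t * B 0 2 0 - y0 * B 0 2 2, t * (B 0 2 1 + B 1 2 0) - y0 * B 1 2 2 - y1 * B 0 2 2,
          t * B 1 2 1 - y1 * B 1 2 2;
        B 0 2 0 - t * B 0 1 0 + y0 * B 0 1 2,
          B 0 2 1 + B 1 2 0 - t * (B 0 1 1 + B 1 1 0) + y0 * B 1 1 2 + y1 * B 0 1 2,
          B 1 2 1 - t * B 1 1 1 + y1 * B 1 1 2;
        B 0 1 0, B 0 1 1 + B 1 1 0, B 1 1 1]) := by
  rw [Kos_perm]
  simp only [h000, h001, h002, h100, h101, h102, h200, h201, h202, h210, h211, h212, h220, h221, h222]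
  apply mul_left_cancel₀ hY
  have := fun M00 M01 M02 M10 M11 M12 M20 M21 M22 => blk_prod (F := F)
    !![0, 0, y1; -y0, -y1, 0; 0, 0, 0] !![y0, t, 0; 0, 1, -t; 0, 0, 1] !![1, 0, 0; 0, 1, 0; 0, 0, -1]
    !![0, 0, 0; 0, 0, 0; 0, -1, 0] M00 M01 M02 M10 M11 M12 M20 M21 M22
  have e1 : (!![y0, t, 0; 0, 1, -t; 0, 0, 1] : Matrix (Fin 3) (Fin 3) F).det = y0 := by
    simp [det_fin_three]
  have e2 : (!![1, 0, 0; 0, 1, 0; 0, 0, -1] : Matrix (Fin 3) (Fin 3) F).det = -1 := by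
    simp [det_fin_three]
  rw [e1, e2] at this
  rw [← neg_inj, ← mul_neg_one, this]
  · simp only [Matrix.add_mul, Matrix.mul_fin_three]
    simp only [det_fin_three, Matrix.add_apply, of_apply, cons_val_zero, cons_val_one, cons_val]
    ring
  · simp only [Matrix.mul_fin_three]
    ext r s
    fin_cases r <;> fin_cases s <;> simp <;> ring
  · ext r s
    fin_cases r <;> fin_cases s <;> simp
  · simp only [Matrix.mul_fin_three]
    ext r s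
    fin_cases r <;> fin_cases s <;> simp

theorem Kos_std : ∃ s : ℤ, s ≠ 0 ∧ ∀ (B : Fin 3 → Fin 3 → Fin 4 → F) (γ : F) (Y : Fin 3 → F),
    Y 0 ≠ 0 → B 0 0 = ![0, -γ, 0, 0] → B 1 0 = ![γ, 0, 0, 0] → B 2 0 = ![0, 0, 0, 0] →
    B 2 1 = ![0, 0, 1, 0] → B 2 2 = ![0, 0, 0, 1] →
    (Kos fun k i l => B k i l.castSucc - Y l * B k i 3).det =
      s * γ ^ 3 * Scub ![B 0 1 0, B 0 1 1 + B 1 1 0, B 1 1 1] ![B 0 2 0, B 0 2 1 + B 1 2 0, B 1 2 1]
        ![-B 0 2 2, -B 1 2 2] ![B 0 1 2 - B 0 2 3, B 1 1 2 - B 1 2 3] ![B 0 1 3, B 1 1 3]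
        ![Y 0, Y 1, Y 2, 1] := by
  refine ⟨-(Equiv.Perm.sign sigR * Equiv.Perm.sign sigC : ℤˣ), by simp, ?_⟩
  intro B γ Y hY h00 h10 h20 h21 h22
  have h2 := Kos_std0 (fun k i l => B k i l.castSucc - Y l * B k i 3) γ (Y 0) (Y 1) (Y 2) hY
    (by simp [h00]) (by simp [h00]) (by simp [h00]) (by simp [h10]) (by simp [h10]) (by simp [h10])
    (by simp [h20]) (by simp [h20]) (by simp [h20]) (by simp [h21]) (by simp [h21]) (by simp [h21])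
    (by simp [h22]) (by simp [h22]) (by simp [h22])
  set M := Kos fun k i l => B k i l.castSucc - Y l * B k i 3 with hM
  have h1 : (M.submatrix sigR sigC).det =
      ((Equiv.Perm.sign sigR * Equiv.Perm.sign sigC : ℤˣ) : ℤ) * M.det := by
    have : M.submatrix sigR sigC = (M.submatrix sigR id).submatrix id sigC := rfl
    rw [this, det_permute', det_permute]
    push_cast
    ring
  have h4 : (((Equiv.Perm.sign sigR * Equiv.Perm.sign sigC : ℤˣ) : ℤ) : F) ^ 2 = 1 := by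
    rw [← Int.cast_pow, ← Units.val_pow_eq_pow_val, Int.units_sq]; simp
  rw [h1] at h2
  have c0 : (0 : Fin 3).castSucc = (0 : Fin 4) := rfl
  have c1 : (1 : Fin 3).castSucc = (1 : Fin 4) := rfl
  have c2 : (2 : Fin 3).castSucc = (2 : Fin 4) := rfl
  simp only [c0, c1, c2, det_fin_three, of_apply, cons_val_zero, cons_val_one, cons_val] at h2
  simp only [Scub, det_fin_three, of_apply, cons_val_zero, cons_val_one, cons_val, Int.cast_neg]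
  generalize (((Equiv.Perm.sign sigR * Equiv.Perm.sign sigC : ℤˣ) : ℤ) : F) = s at h2 h4 ⊢
  linear_combination s * h2 - M.det * h4

end Pool.Agent.Work.MP_7daf81_ag.V22
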