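import Pool.Agent.Work.MP_7daf81_ag.V22.Lin3

/-! The conic of isotropic planes in a symplectic four-space. -/

namespace Pool.Agent.Work.MP_7daf81_ag.V22

open Module

theorem algA (θ : Fin 3 → ℂ) (c0 c1 : ℂ) (hθ : ¬(θ 0 = 0 ∧ θ 1 = 0 ∧ θ 2 = 0))
    (hc : ¬(c0 = 0 ∧ c1 = 0)) : ∃ a0 a1 : ℂ, ¬(a0 = 0 ∧ a1 = 0) ∧
      θ 0 * a0 ^ 2 + θ 1 * a0 * a1 + θ 2 * a1 ^ 2 = 0 ∧ ∀ θ' : Fin 3 → ℂ,
        (∀ y0 y1, (Matrix.of ![θ, mu c0 c1 y0 y1, θ']).det = 0) →
        θ' 0 * a0 ^ 2 + θ' 1 * a0 * a1 + θ' 2 * a1 ^ 2 = 0 := by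
  have key : ∀ θ' : Fin 3 → ℂ, (∀ y0 y1, (Matrix.of ![θ, mu c0 c1 y0 y1, θ']).det = 0) →
      ∀ i, (θ 0 * c1 ^ 2 - θ 1 * c1 * c0 + θ 2 * c0 ^ 2) * θ' i =
        (θ' 0 * c1 ^ 2 - θ' 1 * c1 * c0 + θ' 2 * c0 ^ 2) * θ i := by
    intro θ' h i
    have e0 := h 1 0
    have e1 := h 0 1
    simp only [mu, Matrix.det_fin_three, Matrix.of_apply, Matrix.cons_val_zero, Matrix.cons_val_one,
      Matrix.cons_val] at e0 e1
    fin_cases i
    · change _ * θ' 0 = _ * θ 0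
      linear_combination -c0 * e1
    · change _ * θ' 1 = _ * θ 1
      linear_combination c0 * e0 - c1 * e1
    · change _ * θ' 2 = _ * θ 2
      linear_combination c1 * e0
  by_cases hρ : θ 0 * c1 ^ 2 - θ 1 * c1 * c0 + θ 2 * c0 ^ 2 = 0
  · refine ⟨c1, -c0, fun h => hc ⟨neg_eq_zero.mp h.2, h.1⟩, by linear_combination hρ, fun θ' h => ?_⟩
    by_contra hne
    have h' : θ' 0 * c1 ^ 2 - θ' 1 * c1 * c0 + θ' 2 * c0 ^ 2 ≠ 0 := fun h0 =>
      hne (by linear_combination h0)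
    have := fun i => key θ' h i
    simp only [hρ, zero_mul] at this
    exact hθ ⟨(mul_eq_zero.mp (this 0).symm).resolve_left h',
      (mul_eq_zero.mp (this 1).symm).resolve_left h', (mul_eq_zero.mp (this 2).symm).resolve_left h'⟩
  · obtain ⟨a0, a1, ha, hq⟩ := exists_root_quad (θ 0) (θ 1) (θ 2)
    refine ⟨a0, a1, ha, hq, fun θ' h => ?_⟩
    apply mul_left_cancel₀ hρ
    linear_combination a0 ^ 2 * key θ' h 0 + a0 * a1 * key θ' h 1 + a1 ^ 2 * key θ' h 2 +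
      (θ' 0 * c1 ^ 2 - θ' 1 * c1 * c0 + θ' 2 * c0 ^ 2) * hq

theorem algB (p0 p1 p2 q0 q1 q2 : ℂ)
    (h : ∀ s r : ℂ, (s * p1 + r * q1) ^ 2 - 4 * (s * p0 + r * q0) * (s * p2 + r * q2) = 0) :
    ∃ a0 a1 : ℂ, ¬(a0 = 0 ∧ a1 = 0) ∧ 2 * p0 * a0 + p1 * a1 = 0 ∧ p1 * a0 + 2 * p2 * a1 = 0 ∧
      2 * q0 * a0 + q1 * a1 = 0 ∧ q1 * a0 + 2 * q2 * a1 = 0 := by
  have hp : p1 ^ 2 - 4 * p0 * p2 = 0 := by linear_combination h 1 0
  have hq : q1 ^ 2 - 4 * q0 * q2 = 0 := by linear_combination h 0 1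
  have hm : p1 * q1 - 2 * p0 * q2 - 2 * p2 * q0 = 0 := by linear_combination (h 1 1 - hp - hq) / 2
  have e1 : p0 * q1 - q0 * p1 = 0 := pow_eq_zero_iff (n := 2) (by norm_num) |>.mp (by
    linear_combination p0 ^ 2 * hq + q0 ^ 2 * hp - 2 * p0 * q0 * hm)
  have e2 : p2 * q1 - q2 * p1 = 0 := pow_eq_zero_iff (n := 2) (by norm_num) |>.mp (by
    linear_combination p2 ^ 2 * hq + q2 ^ 2 * hp - 2 * p2 * q2 * hm)
  have e3 : p1 * q1 - 4 * p0 * q2 = 0 := pow_eq_zero_iff (n := 2) (by norm_num) |>.mp (by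
    linear_combination q1 ^ 2 * hp + 4 * p0 * p2 * hq - 8 * p0 * q2 * hm)
  have e4 : p1 * q1 - 4 * p2 * q0 = 0 := by linear_combination 2 * hm - e3
  by_cases h0 : p0 = 0
  · by_cases h2 : p2 = 0
    · by_cases g0 : q0 = 0
      · by_cases g2 : q2 = 0
        · have : p1 = 0 := pow_eq_zero_iff (n := 2) (by norm_num) |>.mp (by
            linear_combination hp + 4 * p2 * h0)
          have : q1 = 0 := pow_eq_zero_iff (n := 2) (by norm_num) |>.mp (by
            linear_combination hq + 4 * q2 * g0)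
          exact ⟨1, 0, by simp, by simp [*], by simp [*], by simp [*], by simp [*]⟩
        · exact ⟨2 * q2, -q1, fun hh => g2 (by linear_combination hh.1 / 2), by linear_combination -e3,
            by linear_combination -2 * e2, by linear_combination -hq, by ring⟩
      · exact ⟨-q1, 2 * q0, fun hh => g0 (by linear_combination hh.2 / 2),
          by linear_combination -2 * e1, by linear_combination -e4, by ring, by linear_combination -hq⟩
    · exact ⟨2 * p2, -p1, fun hh => h2 (by linear_combination hh.1 / 2), by linear_combination -hp,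
        by ring, by linear_combination -e4, by linear_combination 2 * e2⟩
  · exact ⟨-p1, 2 * p0, fun hh => h0 (by linear_combination hh.2 / 2), by ring,
      by linear_combination -hp, by linear_combination 2 * e1, by linear_combination -e3⟩

variable {E : Type} [AddCommGroup E] [Module ℂ E] [FiniteDimensional ℂ E]

theorem span4 (hE : finrank ℂ E = 4) {x y z w : E} (h : Ind4 x y z w) (v : E) :
    ∃ a b c d : ℂ, v = a • x + b • y + c • z + d • w := by
  have := h.li.span_eq_top_of_card_eq_finrank (by rw [hE]; rfl)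
  obtain ⟨c, hc⟩ := (Submodule.mem_span_range_iff_exists_fun ℂ).mp (this ▸ Submodule.mem_top (x := v))
  exact ⟨c 0, c 1, c 2, c 3, by rw [← hc]; simp [Fin.sum_univ_four]⟩

variable {η : E →ₗ[ℂ] E →ₗ[ℂ] ℂ}

omit [FiniteDimensional ℂ E] in
theorem exists_one (hnd : ∀ x, η x = 0 → x = 0) {x : E} (hx : x ≠ 0) : ∃ g, η x g = 1 := by
  obtain ⟨y, hy⟩ : ∃ y, η x y ≠ 0 := by
    by_contra h
    push Not at h
    exact hx (hnd x (LinearMap.ext h))
  exact ⟨(η x y)⁻¹ • y, by rw [map_smul, smul_eq_mul, inv_mul_cancel₀ hy]⟩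

omit [FiniteDimensional ℂ E] in
theorem dual_pair (hnd : ∀ x, η x = 0 → x = 0) {x y : E} (h : Ind2 x y) :
    ∃ f2 f3, η x f2 = 1 ∧ η x f3 = 0 ∧ η y f2 = 0 ∧ η y f3 = 1 := by
  obtain ⟨g, hg⟩ := exists_one hnd (x := x) (fun h0 => by simpa using (h 1 0 (by simp [h0])).1)
  obtain ⟨k, hk⟩ := exists_one hnd (x := y - η y g • x) (fun h0 => by
    simpa using (h (-η y g) 1 (by rw [← h0]; module)).2)
  simp only [map_sub, map_smul, LinearMap.sub_apply, LinearMap.smul_apply, smul_eq_mul] at hk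
  refine ⟨g - η y g • (k - η x k • g), k - η x k • g, ?_, ?_, ?_, ?_⟩ <;>
    simp only [map_sub, map_smul, smul_eq_mul, hg]
  · ring
  · ring
  · linear_combination -η y g * hk
  · linear_combination hk

theorem lagr (hE : finrank ℂ E = 4) (hη : ∀ x y, η x y = -η y x) (hnd : ∀ x, η x = 0 → x = 0)
    {x y f2 f3 : E} (hxy : η x y = 0) (h1 : η x f2 = 1) (h2 : η x f3 = 0) (h3 : η y f2 = 0)
    (h4 : η y f3 = 1) (z : E) (z1 : η x z = 0) (z2 : η y z = 0) :
    z = η z f2 • x + η z f3 • y := by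
  have halt : ∀ x, η x x = 0 := fun x => by linear_combination hη x x / 2
  have hyx : η y x = 0 := by rw [hη, hxy, neg_zero]
  have hi : Ind4 x y f2 f3 := by
    intro a b c d h
    have e1 := congrArg (η x) h
    have e2 := congrArg (η y) h
    simp [halt, hxy, hyx, h1, h2, h3, h4] at e1 e2
    rw [e1, e2] at h
    have e3 := congrArg (fun z => η z f2) h
    have e4 := congrArg (fun z => η z f3) h
    simp [h1, h2, h3, h4] at e3 e4
    exact ⟨e3, e4, e1, e2⟩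
  obtain ⟨a, b, c, d, rfl⟩ := span4 hE hi z
  simp [halt, hxy, hyx, h1, h2, h3, h4] at z1 z2
  simp [z1, z2, h1, h2, h3, h4]

theorem sympl (hE : finrank ℂ E = 4) (hη : ∀ x y, η x y = -η y x) (hnd : ∀ x, η x = 0 → x = 0)
    {v : E} (hv : v ≠ 0) : ∃ g u u', η v g = 1 ∧ η v u = 0 ∧ η v u' = 0 ∧ η u u' = 1 ∧
      Ind4 v u u' g := by
  have halt : ∀ x, η x x = 0 := fun x => by linear_combination hη x x / 2
  obtain ⟨g, hg⟩ := exists_one hnd hv
  let f : E →ₗ[ℂ] (Fin 2 → ℂ) := LinearMap.pi ![η v, η g]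
  obtain ⟨u, hu, hu0⟩ := (Submodule.ne_bot_iff _).mp
    (LinearMap.ker_ne_bot_of_finrank_lt (f := f) (by simp [hE]))
  have u1 : η v u = 0 := congrFun hu 0
  obtain ⟨k, hk⟩ := exists_one hnd hu0
  have u2 : η u g = 0 := by
    have : η g u = 0 := congrFun hu 1
    rw [hη, this, neg_zero]
  have e1 : η v (k - η v k • g) = 0 := by simp [hg]
  have e2 : η u (k - η v k • g) = 1 := by simp [hk, u2]
  refine ⟨g, u, k - η v k • g, hg, u1, e1, e2, ?_⟩
  generalize k - η v k • g = u' at e1 e2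
  intro a b c d h
  have u3 : η u v = 0 := by rw [hη, u1, neg_zero]
  have t1 := congrArg (η v) h
  have t2 := congrArg (η u) h
  simp [halt, u1, e1, e2, hg, u2, u3] at t1 t2
  rw [t1, t2] at h
  have t3 := congrArg (fun z => η z u') h
  have t4 := congrArg (fun z => η z g) h
  simp [e1, e2, hg, u2] at t3 t4
  exact ⟨t4, t3, t2, t1⟩

end Pool.Agent.Work.MP_7daf81_ag.V22
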