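import Pool.Agent.Work.MP_7daf81_ag.V22.L4

/-! A good point on the conic, or a double line. -/

namespace Pool.Agent.Work.MP_7daf81_ag.V22

open Module

variable {E : Type} [AddCommGroup E] [Module ℂ E] [FiniteDimensional ℂ E]

/-- A good isotropic plane with a dual pair. -/
def GoodE (η η1 η2 : E →ₗ[ℂ] E →ₗ[ℂ] ℂ) (θ0 θ1 θ2 : E →ₗ[ℂ] ℂ) : Prop :=
  ∃ u2 u3 f2 f3 : E, η1 u2 u3 = 0 ∧ η2 u2 u3 = 0 ∧ η u2 u3 = 0 ∧ η u2 f2 = 1 ∧ η u2 f3 = 0 ∧
    η u3 f2 = 0 ∧ η u3 f3 = 1 ∧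
    GoodNum ![θ0 u2, θ1 u2, θ2 u2] ![θ0 u3, θ1 u3, θ2 u3] ![-η1 u3 f2, -η2 u3 f2]
      ![η1 u2 f2 - η1 u3 f3, η2 u2 f2 - η2 u3 f3] ![η1 u2 f3, η2 u2 f3]

variable {η η1 η2 : E →ₗ[ℂ] E →ₗ[ℂ] ℂ} {θ0 θ1 θ2 : E →ₗ[ℂ] ℂ}

theorem caseA (hE : finrank ℂ E = 4) (hη : ∀ x y, η x y = -η y x) (hη1 : ∀ x y, η1 x y = -η1 y x)
    (hη2 : ∀ x y, η2 x y = -η2 y x) (hnd : ∀ x, η x = 0 → x = 0) {v : E} (hv : v ≠ 0) {β1 β2 : ℂ}
    (h1 : η1 v = β1 • η v) (h2 : η2 v = β2 • η v) (hθ : ¬(θ0 v = 0 ∧ θ1 v = 0 ∧ θ2 v = 0))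
    (hK : ∀ a0 a1 : ℂ, ¬(a0 = 0 ∧ a1 = 0) → θ0 v * a0 ^ 2 + θ1 v * a0 * a1 + θ2 v * a1 ^ 2 = 0 →
      ∃ u, η v u = 0 ∧ θ0 u * a0 ^ 2 + θ1 u * a0 * a1 + θ2 u * a1 ^ 2 ≠ 0) :
    GoodE η η1 η2 θ0 θ1 θ2 ∨ ∀ w w', η v w = 0 → η v w' = 0 →
      η1 w w' = β1 * η w w' ∧ η2 w w' = β2 * η w w' := by
  have halt : ∀ x, η x x = 0 := fun x => by linear_combination hη x x / 2
  have halt1 : ∀ x, η1 x x = 0 := fun x => by linear_combination hη1 x x / 2
  have halt2 : ∀ x, η2 x x = 0 := fun x => by linear_combination hη2 x x / 2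
  have p1 : ∀ y, η1 v y = β1 * η v y := fun y => by rw [h1]; rfl
  have p2 : ∀ y, η2 v y = β2 * η v y := fun y => by rw [h2]; rfl
  obtain ⟨g, u, u', hg, hu, hu', huu, hi⟩ := sympl hE hη hnd hv
  have hdec : ∀ w, η v w = 0 → ∃ a b c : ℂ, w = a • v + b • u + c • u' := by
    intro w hw
    obtain ⟨a, b, c, d, rfl⟩ := span4 hE hi w
    simp [halt, hu, hu', hg] at hw
    exact ⟨a, b, c, by simp [hw]⟩
  have q0 : η u v = 0 := by rw [hη, hu, neg_zero]
  have q0' : η u' v = 0 := by rw [hη, hu', neg_zero]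
  have q1 : η1 u v = 0 := by rw [hη1, p1, hu]; simp
  have q1' : η1 u' v = 0 := by rw [hη1, p1, hu']; simp
  have q2 : η2 u v = 0 := by rw [hη2, p2, hu]; simp
  have q2' : η2 u' v = 0 := by rw [hη2, p2, hu']; simp
  by_cases hc : η1 u u' - β1 = 0 ∧ η2 u u' - β2 = 0
  · right
    intro w w' hw hw'
    obtain ⟨a, b, c, rfl⟩ := hdec w hw
    obtain ⟨a', b', c', rfl⟩ := hdec w' hw'
    simp only [map_add, map_smul, LinearMap.add_apply, LinearMap.smul_apply, smul_eq_mul, p1, p2,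
      halt, halt1, halt2, hu, hu', q0, q0', q1, q1', q2, q2', hη u' u, hη1 u' u, hη2 u' u, huu]
    exact ⟨by linear_combination (b * c' - c * b') * hc.1,
      by linear_combination (b * c' - c * b') * hc.2⟩
  · left
    obtain ⟨a0, a1, ha, hq, hall⟩ := algA ![θ0 v, θ1 v, θ2 v] _ _ hθ hc
    obtain ⟨u2, hu2, hne⟩ := hK a0 a1 ha hq
    obtain ⟨y0, y1, hy⟩ : ∃ y0 y1, (Matrix.of ![![θ0 v, θ1 v, θ2 v],
        mu (η1 u u' - β1) (η2 u u' - β2) y0 y1, ![θ0 u2, θ1 u2, θ2 u2]]).det ≠ 0 := by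
      by_contra hh
      push Not at hh
      exact hne (hall _ hh)
    obtain ⟨a, b, c, rfl⟩ := hdec u2 hu2
    obtain ⟨s, t, hst⟩ : ∃ s t : ℂ, b * t - c * s = 1 := by
      by_cases hb : b = 0
      · by_cases hc0 : c = 0
        · exfalso
          apply hne
          simp only [hb, hc0, zero_smul, add_zero, map_smul, smul_eq_mul]
          change θ0 v * a0 ^ 2 + θ1 v * a0 * a1 + θ2 v * a1 ^ 2 = 0 at hq
          linear_combination a * hq
        · exact ⟨-c⁻¹, 0, by field_simp; ring⟩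
      · exact ⟨0, b⁻¹, by field_simp; ring⟩
    have e1 : η (a • v + b • u + c • u') (s • u + t • u') = 1 := by
      simp only [map_add, map_smul, LinearMap.add_apply, LinearMap.smul_apply, smul_eq_mul, halt,
        hu, hu', hη u' u, huu]
      linear_combination hst
    have e2 : η v (s • u + t • u') = 0 := by simp [hu, hu']
    have e3 : η1 (a • v + b • u + c • u') (s • u + t • u') = η1 u u' := by
      simp only [map_add, map_smul, LinearMap.add_apply, LinearMap.smul_apply, smul_eq_mul, halt1,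
        p1, hu, hu', hη1 u' u]
      linear_combination η1 u u' * hst
    have e4 : η2 (a • v + b • u + c • u') (s • u + t • u') = η2 u u' := by
      simp only [map_add, map_smul, LinearMap.add_apply, LinearMap.smul_apply, smul_eq_mul, halt2,
        p2, hu, hu', hη2 u' u]
      linear_combination η2 u u' * hst
    generalize a • v + b • u + c • u' = u2 at hu2 hy e1 e3 e4
    generalize s • u + t • u' = f2 at e1 e2 e3 e4
    have e5 : η v (g - η u2 g • f2) = 1 := by simp [hg, e2]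
    refine ⟨u2, v, f2, g - η u2 g • f2, by rw [hη1, p1, hu2]; simp, by rw [hη2, p2, hu2]; simp,
      by rw [hη, hu2, neg_zero], e1, by simp [e1], e2, e5, Or.inr ⟨by simp [p1, e2],
        by simp [p2, e2], y0, y1, ?_⟩⟩
    simp only [Matrix.cons_val_zero, Matrix.cons_val_one, p1, p2, e3, e4, e5, mul_one]
    exact hy

omit [FiniteDimensional ℂ E] in
theorem eig2 {x y : E} (hi : Ind2 x y) (C D A B : ℂ) : ∃ s r l : ℂ, s • x + r • y ≠ 0 ∧
    s • (A • x + B • y) + r • (C • x + D • y) = l • (s • x + r • y) := by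
  obtain ⟨s, r, hsr, hq⟩ := exists_root_quad B (D - A) (-C)
  have hne : s • x + r • y ≠ 0 := fun h => hsr (hi s r h)
  by_cases hs : s = 0
  · have hr : r ≠ 0 := fun h => hsr ⟨hs, h⟩
    have hC : C = 0 := by
      rw [hs] at hq
      have : C * r ^ 2 = 0 := by linear_combination -hq
      exact (mul_eq_zero.mp this).resolve_right (pow_ne_zero _ hr)
    exact ⟨s, r, D, hne, by rw [hs, hC]; module⟩
  · refine ⟨s, r, (s * A + r * C) / s, hne, ?_⟩
    have : s * B + r * D = (s * A + r * C) / s * r := by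
      field_simp
      linear_combination hq
    have h2 : s * A + r * C = (s * A + r * C) / s * s := by field_simp
    calc _ = (s * A + r * C) • x + (s * B + r * D) • y := by module
      _ = _ := by rw [this]; nth_rewrite 1 [h2]; module

theorem caseB (hE : finrank ℂ E = 4) (hη : ∀ x y, η x y = -η y x) (hη1 : ∀ x y, η1 x y = -η1 y x)
    (hη2 : ∀ x y, η2 x y = -η2 y x) (hnd : ∀ x, η x = 0 → x = 0)
    (hno : ∀ v : E, v ≠ 0 → ∀ β1 β2 : ℂ, η1 v = β1 • η v → η2 v = β2 • η v → False)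
    (hK : ∀ a0 a1 : ℂ, ¬(a0 = 0 ∧ a1 = 0) →
      ∃ w, θ0 w * a0 ^ 2 + θ1 w * a0 * a1 + θ2 w * a1 ^ 2 ≠ 0) :
    GoodE η η1 η2 θ0 θ1 θ2 := by
  have halt : ∀ x, η x x = 0 := fun x => by linear_combination hη x x / 2
  have halt1 : ∀ x, η1 x x = 0 := fun x => by linear_combination hη1 x x / 2
  have halt2 : ∀ x, η2 x x = 0 := fun x => by linear_combination hη2 x x / 2
  have hsurj : Function.Surjective η := fun ξ =>
    exists_preimage η hη ξ fun x hx => by rw [hnd x hx, map_zero]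
  obtain ⟨J1, hJ1⟩ := Module.projective_lifting_property η η1 hsurj
  obtain ⟨J2, hJ2⟩ := Module.projective_lifting_property η η2 hsurj
  have j1 : ∀ x, η (J1 x) = η1 x := fun x => LinearMap.congr_fun hJ1 x
  have j2 : ∀ x, η (J2 x) = η2 x := fun x => LinearMap.congr_fun hJ2 x
  have : Nontrivial E := Module.nontrivial_of_finrank_pos (R := ℂ) (by omega)
  obtain ⟨x, hx⟩ := Module.End.exists_eigenvalue J1
  obtain ⟨v1, hv1⟩ := hx.exists_hasEigenvector
  have k1 : η1 v1 = x • η v1 := by rw [← j1, hv1.apply_eq_smul, map_smul]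
  obtain ⟨v2, hi, k2⟩ : ∃ v2, Ind2 v1 v2 ∧ η1 v2 = x • η v2 := by
    obtain ⟨g, u, u', -, -, -, -, hi⟩ := sympl hE hη hnd hv1.2
    set n := η1 - x • η with hn
    have n1 : ∀ y, n v1 y = 0 := fun y => by simp [hn, k1]
    have ns : ∀ y z, n y z = -n z y := fun y z => by
      simp only [hn, LinearMap.sub_apply, LinearMap.smul_apply, smul_eq_mul, hη1 y z, hη y z]; ring
    have na : ∀ y, n y y = 0 := fun y => by linear_combination ns y y / 2
    have n1' : ∀ y, n y v1 = 0 := fun y => by rw [ns, n1, neg_zero]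
    have key : ∀ z, n z u = 0 → n z u' = 0 → n z g = 0 → η1 z = x • η z := by
      intro z z1 z2 z3
      rw [← sub_eq_zero]
      ext y
      obtain ⟨a, b, c, d, rfl⟩ := span4 hE hi y
      change n z _ = 0
      simp [n1', z1, z2, z3]
    by_cases h0 : n g u = 0 ∧ n g u' = 0 ∧ n u u' = 0
    · refine ⟨g, fun a b h => ?_, key g h0.1 h0.2.1 (na g)⟩
      obtain ⟨g1, -, -, g4⟩ := hi a 0 0 b (by simpa using h)
      exact ⟨g1, g4⟩
    · refine ⟨n u u' • g - n g u' • u + n g u • u', fun a b h => ?_, key _ ?_ ?_ ?_⟩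
      · obtain ⟨g1, g2, g3, g4⟩ := hi a (-(b * n g u')) (b * n g u) (b * n u u')
          (by rw [← h]; module)
        refine ⟨g1, by_contra fun hb => h0 ⟨(mul_eq_zero.mp g3).resolve_left hb,
          (mul_eq_zero.mp (neg_eq_zero.mp g2)).resolve_left hb,
          (mul_eq_zero.mp g4).resolve_left hb⟩⟩
      · simp only [map_add, map_sub, map_smul, LinearMap.add_apply, LinearMap.sub_apply,
          LinearMap.smul_apply, smul_eq_mul, na, ns u' u]
        ring
      · simp only [map_add, map_sub, map_smul, LinearMap.add_apply, LinearMap.sub_apply,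
          LinearMap.smul_apply, smul_eq_mul, na]
        ring
      · simp only [map_add, map_sub, map_smul, LinearMap.add_apply, LinearMap.sub_apply,
          LinearMap.smul_apply, smul_eq_mul, na, ns u g, ns u' g]
        ring
  have hpt : ∀ v, v ≠ 0 → η1 v = x • η v → Ind2 v (J2 v) ∧ η v (J2 v) = 0 ∧ η2 v (J2 v) = 0 ∧
      η1 v (J2 v) = 0 := by
    intro v hv kv
    have e1 : η v (J2 v) = 0 := by rw [hη, j2, halt2, neg_zero]
    refine ⟨Ind2.of_not hv fun c hc => hno v hv x c kv (by rw [← j2, hc, map_smul]), e1,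
      by rw [← j2, halt], by rw [kv, LinearMap.smul_apply, e1, smul_zero]⟩
  have hinj : ∀ s r s' r' : ℂ, J2 (s • v1 + r • v2) = s' • v1 + r' • v2 → s • v1 + r • v2 = 0 := by
    intro s r s' r' h
    by_contra hw
    have kw : η1 (s • v1 + r • v2) = x • η (s • v1 + r • v2) := by
      simp only [map_add, map_smul, k1, k2]; module
    have kw' : η1 (J2 (s • v1 + r • v2)) = x • η (J2 (s • v1 + r • v2)) := by
      rw [h]; simp only [map_add, map_smul, k1, k2]; module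
    generalize s • v1 + r • v2 = w at hw kw kw'
    obtain ⟨i1, i2, i3, -⟩ := hpt w hw kw
    obtain ⟨f2, f3, d1, d2, d3, d4⟩ := dual_pair hnd i1
    have hl := lagr hE hη hnd i2 d1 d2 d3 d4 (J2 (J2 w)) (by rw [hη, j2, hη2, i3]; simp)
      (by rw [hη, j2, halt2, neg_zero])
    obtain ⟨a, b, l, hne, he⟩ := eig2 i1 (η (J2 (J2 w)) f2) (η (J2 (J2 w)) f3) 0 1
    refine hno _ hne x l (by simp only [map_add, map_smul, kw, kw']; module) ?_
    rw [← j2, ← map_smul η l, ← he, ← hl]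
    simp
  have hsp : ∀ a b a' b' : ℂ, a * b' - b * a' ≠ 0 → ∀ ξ : E →ₗ[ℂ] ℂ, ξ (a • v1 + b • v2) = 0 →
      ξ (J2 (a • v1 + b • v2)) = 0 → ξ (a' • v1 + b' • v2) = 0 → ξ (J2 (a' • v1 + b' • v2)) = 0 →
      ∀ w, ξ w = 0 := by
    intro a b a' b' hd ξ x1 x2 x3 x4 w
    have i4 : Ind4 v1 v2 (J2 v1) (J2 v2) := by
      intro p q r s h
      have := hinj r s (-p) (-q) (by
        rw [map_add, map_smul, map_smul, ← sub_eq_zero, ← h]; module)
      obtain ⟨g1, g2⟩ := hi r s this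
      rw [g1, g2] at h
      obtain ⟨g3, g4⟩ := hi p q (by simpa using h)
      exact ⟨g3, g4, g1, g2⟩
    obtain ⟨p, q, r, s, rfl⟩ := span4 hE i4 w
    simp only [map_add, map_smul, smul_eq_mul] at x1 x2 x3 x4 ⊢
    apply mul_left_cancel₀ hd
    linear_combination (p * b' - q * a') * x1 + (q * a - p * b) * x3 + (r * b' - s * a') * x2 +
      (s * a - r * b) * x4
  by_contra hgood
  have hfail : ∀ s r : ℂ, ¬(s = 0 ∧ r = 0) → ∃ a0 a1 : ℂ, ¬(a0 = 0 ∧ a1 = 0) ∧ ∀ b0 b1 : ℂ,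
      ((2 * a0 * b0) • θ0 + (a0 * b1 + a1 * b0) • θ1 + (2 * a1 * b1) • θ2) (s • v1 + r • v2) = 0 ∧
      ((2 * a0 * b0) • θ0 + (a0 * b1 + a1 * b0) • θ1 + (2 * a1 * b1) • θ2)
        (J2 (s • v1 + r • v2)) = 0 := by
    intro s r hsr
    have hw : s • v1 + r • v2 ≠ 0 := fun h => hsr (hi s r h)
    have kw : η1 (s • v1 + r • v2) = x • η (s • v1 + r • v2) := by
      simp only [map_add, map_smul, k1, k2]; module
    generalize s • v1 + r • v2 = w at hw kw
    obtain ⟨i1, i2, i3, i4⟩ := hpt w hw kw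
    obtain ⟨f2, f3, d1, d2, d3, d4⟩ := dual_pair hnd i1
    have l1 := lagr hE hη hnd i2 d1 d2 d3 d4 (J1 (J2 w)) (by rw [hη, j1, hη1, i4]; simp)
      (by rw [hη, j1, halt1, neg_zero])
    have l2 := lagr hE hη hnd i2 d1 d2 d3 d4 (J2 (J2 w)) (by rw [hη, j2, hη2, i3]; simp)
      (by rw [hη, j2, halt2, neg_zero])
    rw [j1] at l1
    rw [j2 (J2 w)] at l2
    have c1 : η1 w f2 = x := by rw [kw, LinearMap.smul_apply, d1, smul_eq_mul, mul_one]
    have c2 : η1 w f3 = 0 := by rw [kw, LinearMap.smul_apply, d2, smul_zero]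
    have c3 : η2 w f2 = 0 := by rw [← j2, d3]
    have c4 : η2 w f3 = 1 := by rw [← j2, d4]
    generalize hA : η1 (J2 w) f2 = A at l1
    generalize hB : η1 (J2 w) f3 = B at l1
    generalize hC : η2 (J2 w) f2 = C at l2
    generalize hD : η2 (J2 w) f3 = D at l2
    have m1 : η1 (J2 w) = A • η w + B • η (J2 w) := by rw [← j1, l1, map_add, map_smul, map_smul]
    have m2 : η2 (J2 w) = C • η w + D • η (J2 w) := by
      rw [← j2 (J2 w), l2, map_add, map_smul, map_smul]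
    have hΔ : (x - B) * (A * D + (x - B) * C) - A ^ 2 ≠ 0 := by
      intro h0
      by_cases hB0 : x - B = 0
      · have hA0 : A = 0 := pow_eq_zero_iff (n := 2) (by norm_num) |>.mp (by
          rw [hB0] at h0; linear_combination -h0)
        have hB1 : B = x := by linear_combination -hB0
        obtain ⟨a, b, l, hne, he⟩ := eig2 i1 C D 0 1
        refine hno _ hne x l (by simp only [map_add, map_smul, kw, m1, hA0, hB1]; module) ?_
        rw [← j2, ← map_smul η l, ← he, ← l2]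
        simp
      · refine hno (A • w - (x - B) • J2 w) (fun h => hB0 ?_) B ((A - (x - B) * D) / -(x - B)) ?_ ?_
        · have := (i1 A (-(x - B)) (by rw [← h]; module)).2
          linear_combination -this
        · simp only [map_sub, map_smul, kw, m1]; module
        · have hxB : -(x - B) ≠ 0 := neg_ne_zero.mpr hB0
          have t1 : (A - (x - B) * D) / -(x - B) * A = -((x - B) * C) := by
            field_simp
            linear_combination h0
          have t2 : (A - (x - B) * D) / -(x - B) * (x - B) = -(A - (x - B) * D) := by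
            field_simp
          simp only [map_sub, map_smul, m2, ← j2 w, smul_sub, smul_smul, t1, t2]
          module
    obtain ⟨a0, a1, ha, g1, g2, g3, g4⟩ := algB (θ0 w) (θ1 w) (θ2 w) (θ0 (J2 w)) (θ1 (J2 w))
      (θ2 (J2 w)) (fun s r => by
        by_contra hne
        refine hgood ⟨w, J2 w, f2, f3, i4, i3, i2, d1, d2, d3, d4, Or.inl ⟨?_, s, r, hne⟩⟩
        simp only [Matrix.cons_val_zero, Matrix.cons_val_one, c1, c2, c3, c4, hA, hB, hC, hD]
        intro h0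
        exact hΔ (by linear_combination h0))
    refine ⟨a0, a1, ha, fun b0 b1 => ?_⟩
    simp only [LinearMap.add_apply, LinearMap.smul_apply, smul_eq_mul]
    exact ⟨by linear_combination b0 * g1 + b1 * g2, by linear_combination b0 * g3 + b1 * g4⟩
  obtain ⟨a0, a1, ha, fa⟩ := hfail 1 0 (by simp)
  obtain ⟨b0, b1, hb, fb⟩ := hfail 0 1 (by simp)
  obtain ⟨c0, c1, hc, fc⟩ := hfail 1 1 (by simp)
  have sym : ∀ a0 a1 b0 b1 : ℂ, (2 * a0 * b0) • θ0 + (a0 * b1 + a1 * b0) • θ1 + (2 * a1 * b1) • θ2 =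
      (2 * b0 * a0) • θ0 + (b0 * a1 + b1 * a0) • θ1 + (2 * b1 * a1) • θ2 := by
    intro a0 a1 b0 b1
    module
  have zab := hsp 1 0 0 1 (by simp) _ (fa b0 b1).1 (fa b0 b1).2 (sym _ _ _ _ ▸ (fb a0 a1).1)
    (sym _ _ _ _ ▸ (fb a0 a1).2)
  have zac := hsp 1 0 1 1 (by simp) _ (fa c0 c1).1 (fa c0 c1).2 (sym _ _ _ _ ▸ (fc a0 a1).1)
    (sym _ _ _ _ ▸ (fc a0 a1).2)
  have zbc := hsp 0 1 1 1 (by simp) _ (fb c0 c1).1 (fb c0 c1).2 (sym _ _ _ _ ▸ (fc b0 b1).1)
    (sym _ _ _ _ ▸ (fc b0 b1).2)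
  simp only [LinearMap.add_apply, LinearMap.smul_apply, smul_eq_mul] at zab zac zbc
  obtain ⟨wa, hwa⟩ := hK a0 a1 ha
  obtain ⟨wb, hwb⟩ := hK b0 b1 hb
  have y2 : a0 * c1 - a1 * c0 = 0 := by
    apply mul_left_cancel₀ hwb
    linear_combination ((b0 * c1 - b1 * c0) * zab wb + (a0 * b1 - a1 * b0) * zbc wb) / 2
  by_cases hc0 : c0 = 0
  · have hc1 : c1 ≠ 0 := fun h => hc ⟨hc0, h⟩
    rw [hc0, mul_zero, sub_zero] at y2
    have a00 := (mul_eq_zero.mp y2).resolve_right hc1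
    apply hwa
    apply mul_left_cancel₀ hc1
    rw [a00, hc0] at zac
    rw [a00]
    linear_combination a1 * zac wa / 2
  · apply hwa
    apply mul_left_cancel₀ hc0
    linear_combination a0 * zac wa / 2 - (θ1 wa * a0 / 2 + θ2 wa * a1) * y2

end Pool.Agent.Work.MP_7daf81_ag.V22
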