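import Pool.Agent.Work.MP_7daf81_ag.V22.Iface

/-! Linear algebra of the net: kernels, maximal isotropic subspaces, Lemma K. -/

namespace Pool.Agent.Work.MP_7daf81_ag.V22

open Module

variable {V : Type} [AddCommGroup V] [Module ℂ V] [FiniteDimensional ℂ V]

/-- Independence of two vectors. -/
def Ind2 (x y : V) : Prop := ∀ a b : ℂ, a • x + b • y = 0 → a = 0 ∧ b = 0

/-- Independence of three vectors. -/
def Ind3 (x y z : V) : Prop := ∀ a b c : ℂ, a • x + b • y + c • z = 0 → a = 0 ∧ b = 0 ∧ c = 0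

/-- Independence of four vectors. -/
def Ind4 (x y z w : V) : Prop :=
  ∀ a b c d : ℂ, a • x + b • y + c • z + d • w = 0 → a = 0 ∧ b = 0 ∧ c = 0 ∧ d = 0

omit [FiniteDimensional ℂ V] in
theorem Ind3.li {x y z : V} (h : Ind3 x y z) : LinearIndependent ℂ ![x, y, z] := by
  rw [Fintype.linearIndependent_iff]
  intro g hg i
  obtain ⟨h0, h1, h2⟩ := h (g 0) (g 1) (g 2) (by simpa [Fin.sum_univ_three] using hg)
  fin_cases i
  exacts [h0, h1, h2]

omit [FiniteDimensional ℂ V] in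
theorem Ind4.li {x y z w : V} (h : Ind4 x y z w) : LinearIndependent ℂ ![x, y, z, w] := by
  rw [Fintype.linearIndependent_iff]
  intro g hg i
  obtain ⟨h0, h1, h2, h3⟩ := h (g 0) (g 1) (g 2) (g 3) (by simpa [Fin.sum_univ_four] using hg)
  fin_cases i
  exacts [h0, h1, h2, h3]

omit [FiniteDimensional ℂ V] in
theorem Ind2.of_not {x y : V} (hx : x ≠ 0) (h : ∀ c : ℂ, y ≠ c • x) : Ind2 x y := by
  intro a b hab
  have hb : b = 0 := by
    by_contra hb
    apply h (-(a / b))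
    have : y = b⁻¹ • (b • y) := by rw [smul_smul, inv_mul_cancel₀ hb, one_smul]
    rw [this, eq_neg_of_add_eq_zero_right hab]
    module
  rw [hb, zero_smul, add_zero, smul_eq_zero] at hab
  exact ⟨hab.resolve_right hx, hb⟩

omit [FiniteDimensional ℂ V] in
theorem Ind3.of_not {x y z : V} (hx : Ind2 x y) (h : ∀ a b : ℂ, z ≠ a • x + b • y) :
    Ind3 x y z := by
  intro a b c hab
  have hc : c = 0 := by
    by_contra hc
    apply h (-(a / c)) (-(b / c))
    have : z = c⁻¹ • (c • z) := by rw [smul_smul, inv_mul_cancel₀ hc, one_smul]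
    rw [this, eq_neg_of_add_eq_zero_right hab]
    module
  rw [hc, zero_smul, add_zero] at hab
  exact ⟨(hx a b hab).1, (hx a b hab).2, hc⟩

omit [FiniteDimensional ℂ V] in
theorem Ind4.of_not {x y z w : V} (hx : Ind3 x y z)
    (h : ∀ a b c : ℂ, w ≠ a • x + b • y + c • z) : Ind4 x y z w := by
  intro a b c d hab
  have hd : d = 0 := by
    by_contra hd
    apply h (-(a / d)) (-(b / d)) (-(c / d))
    have : w = d⁻¹ • (d • w) := by rw [smul_smul, inv_mul_cancel₀ hd, one_smul]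
    rw [this, eq_neg_of_add_eq_zero_right hab]
    module
  rw [hd, zero_smul, add_zero] at hab
  exact ⟨(hx a b c hab).1, (hx a b c hab).2.1, (hx a b c hab).2.2, hd⟩

theorem exists_ker_of_odd (B : V →ₗ[ℂ] V →ₗ[ℂ] ℂ) (hB : ∀ x y, B x y = -B y x)
    (h : Odd (finrank ℂ V)) : ∃ x, x ≠ 0 ∧ B x = 0 := by
  let b := Module.finBasis ℂ V
  let M : Matrix (Fin (finrank ℂ V)) (Fin (finrank ℂ V)) ℂ := Matrix.of fun i j => B (b i) (b j)
  have h1 : M.transpose = -M := by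
    ext i j
    simp only [M, Matrix.transpose_apply, Matrix.of_apply, Matrix.neg_apply]
    exact hB _ _
  have h2 : M.det = 0 := by
    have := congrArg Matrix.det h1
    rw [Matrix.det_transpose, Matrix.det_neg, Fintype.card_fin, h.neg_one_pow] at this
    linear_combination this / 2
  obtain ⟨v, hv0, hv⟩ := Matrix.exists_vecMul_eq_zero_iff.mpr h2
  refine ⟨∑ i, v i • b i, fun h0 => hv0 ?_, b.ext fun j => ?_⟩
  · funext i
    exact Fintype.linearIndependent_iff.mp b.linearIndependent v h0 i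
  · have := congrFun hv j
    simpa [M, Matrix.vecMul, dotProduct, LinearMap.sum_apply] using this

theorem exists_preimage (B : V →ₗ[ℂ] V →ₗ[ℂ] ℂ) (hB : ∀ x y, B x y = -B y x) (ξ : V →ₗ[ℂ] ℂ)
    (h : ∀ x, B x = 0 → ξ x = 0) : ∃ x, B x = ξ := by
  have h1 : ξ ∈ (LinearMap.ker B).dualAnnihilator := by
    rw [Submodule.mem_dualAnnihilator]
    exact fun x hx => h x hx
  rw [LinearMap.dualAnnihilator_ker_eq_range_flip] at h1
  obtain ⟨y, hy⟩ := h1
  refine ⟨-y, ?_⟩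
  ext x
  rw [← hy, LinearMap.flip_apply, hB x y, map_neg, LinearMap.neg_apply]

theorem finrank_ker_le {W : Type} [AddCommGroup W] [Module ℂ W] (B : V →ₗ[ℂ] W)
    (h : ∀ x y, B x = 0 → B y = 0 → x ≠ 0 → ∃ c : ℂ, y = c • x) :
    finrank ℂ (LinearMap.ker B) ≤ 1 := by
  rw [finrank_le_one_iff]
  by_cases h0 : ∃ x : LinearMap.ker B, x ≠ 0
  · obtain ⟨x, hx⟩ := h0
    refine ⟨x, fun y => ?_⟩
    obtain ⟨c, hc⟩ := h x y x.2 y.2 (fun h => hx (Subtype.ext h))
    exact ⟨c, Subtype.ext hc.symm⟩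
  · push Not at h0
    exact ⟨0, fun y => ⟨0, by rw [h0 y, smul_zero]⟩⟩

theorem maxIso (hV : finrank ℂ V = 7) (B : V →ₗ[ℂ] V →ₗ[ℂ] ℂ) (hB : ∀ x y, B x y = -B y x)
    (h : ∀ x y, B x = 0 → B y = 0 → x ≠ 0 → ∃ c : ℂ, y = c • x) {u0 u1 u2 u3 : V}
    (hi : Ind4 u0 u1 u2 u3) (h01 : B u0 u1 = 0) (h02 : B u0 u2 = 0) (h03 : B u0 u3 = 0)
    (h12 : B u1 u2 = 0) (h13 : B u1 u3 = 0) (h23 : B u2 u3 = 0) (x : V) (x0 : B u0 x = 0)
    (x1 : B u1 x = 0) (x2 : B u2 x = 0) (x3 : B u3 x = 0) :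
    ∃ a b c d : ℂ, x = a • u0 + b • u1 + c • u2 + d • u3 := by
  have halt : ∀ x, B x x = 0 := fun x => by linear_combination hB x x / 2
  set U := Submodule.span ℂ (Set.range ![u0, u1, u2, u3]) with hU
  have hU4 : finrank ℂ U = 4 := by rw [hU, finrank_span_eq_card hi.li]; rfl
  have hmem : ∀ y, B u0 y = 0 → B u1 y = 0 → B u2 y = 0 → B u3 y = 0 →
      y ∈ LinearMap.BilinForm.orthogonal B U := by
    intro y y0 y1 y2 y3 n hn
    obtain ⟨c, rfl⟩ := (Submodule.mem_span_range_iff_exists_fun ℂ).mp hn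
    simp [Fin.sum_univ_four, y0, y1, y2, y3]
  have hle : U ≤ LinearMap.BilinForm.orthogonal B U := by
    rw [hU, Submodule.span_le]
    rintro _ ⟨i, rfl⟩
    fin_cases i
    · exact hmem u0 (halt _) (by rw [hB, h01, neg_zero]) (by rw [hB, h02, neg_zero])
        (by rw [hB, h03, neg_zero])
    · exact hmem u1 h01 (halt _) (by rw [hB, h12, neg_zero]) (by rw [hB, h13, neg_zero])
    · exact hmem u2 h02 h12 (halt _) (by rw [hB, h23, neg_zero])
    · exact hmem u3 h03 h13 h23 (halt _)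
  have h1 := LinearMap.BilinForm.finrank_add_finrank_orthogonal' (B := B) U
  have h2 : finrank ℂ (U ⊓ LinearMap.ker B : Submodule ℂ V) ≤ 1 :=
    (Submodule.finrank_mono inf_le_right).trans (finrank_ker_le B h)
  have h3 := Submodule.eq_of_le_of_finrank_le hle (by omega)
  have h4 := hmem x x0 x1 x2 x3
  rw [← h3] at h4
  obtain ⟨c, hc⟩ := (Submodule.mem_span_range_iff_exists_fun ℂ).mp h4
  exact ⟨c 0, c 1, c 2, c 3, by rw [← hc]; simp [Fin.sum_univ_four]⟩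

theorem lemmaK_sub (hV : finrank ℂ V = 7) (B0 B1 : V →ₗ[ℂ] V →ₗ[ℂ] ℂ)
    (hB0 : ∀ x y, B0 x y = -B0 y x) (hB1 : ∀ x y, B1 x y = -B1 y x) {e : V} (he : e ≠ 0)
    (he0 : B0 e = 0) (hk : ∀ x, B0 x = 0 → ∃ c : ℂ, x = c • e)
    (hl : ∀ l : ℂ, finrank ℂ (LinearMap.ker (B1 - l • B0)) ≤ 1) (Y : Submodule ℂ V) (heY : e ∈ Y)
    (hY : finrank ℂ Y ≤ 3) (hiso : ∀ y ∈ Y, ∀ y' ∈ Y, B0 y y' = 0)
    (hinv : ∀ y ∈ Y, ∃ y' ∈ Y, B1 y = B0 y') : False := by
  set P := LinearMap.BilinForm.orthogonal B0 Y with hP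
  have hYP : Y ≤ P := fun y hy n hn => hiso n hn y hy
  have hP4 : 4 ≤ finrank ℂ P := by
    have := LinearMap.BilinForm.finrank_add_finrank_orthogonal' (B := B0) Y
    rw [← hP] at this
    omega
  have hr : ∀ x : P, (B1 ∘ₗ P.subtype) x ∈ LinearMap.range B0 := by
    intro x
    refine exists_preimage B0 hB0 _ fun z hz => ?_
    obtain ⟨c, rfl⟩ := hk z hz
    obtain ⟨y', hy', h⟩ := hinv e heY
    have h1 : B0 y' x = 0 := x.2 y' hy'
    simp only [LinearMap.comp_apply, Submodule.subtype_apply, map_smul]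
    rw [hB1, h, h1]; simp
  obtain ⟨A0, hA0⟩ := Module.projective_lifting_property B0.rangeRestrict
    ((B1 ∘ₗ P.subtype).codRestrict _ hr) B0.surjective_rangeRestrict
  have hA : ∀ x : P, B0 (A0 x) = B1 x := fun x => by
    have := congrArg Subtype.val (LinearMap.congr_fun hA0 x)
    simpa using this
  have hAP : ∀ x : P, A0 x ∈ P := by
    intro x y hy
    obtain ⟨y', hy', h⟩ := hinv y hy
    have h1 : B0 y' x = 0 := x.2 y' hy'
    rw [hB0, hA, hB1, h, h1]; simp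
  let A : P →ₗ[ℂ] P := A0.codRestrict P hAP
  let Y' : Submodule ℂ P := Y.comap P.subtype
  have hAY : Y' ≤ Y'.comap A := by
    intro x hx
    obtain ⟨y', hy', h⟩ := hinv x hx
    obtain ⟨c, hc⟩ := hk (A0 x - y') (by rw [map_sub, hA, h, sub_self])
    change A0 x ∈ Y
    rw [sub_eq_iff_eq_add] at hc
    rw [hc]
    exact Y.add_mem (Y.smul_mem c heY) hy'
  have hY' : finrank ℂ Y' = finrank ℂ Y := (Submodule.comapSubtypeEquivOfLe hYP).finrank_eq
  have : Nontrivial (P ⧸ Y') := Submodule.Quotient.nontrivial_iff.mpr (by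
    intro h
    rw [h, finrank_top] at hY'
    omega)
  obtain ⟨l, hl'⟩ := Module.End.exists_eigenvalue (Y'.mapQ Y' A hAY)
  obtain ⟨q, hq⟩ := hl'.exists_hasEigenvector
  obtain ⟨x, rfl⟩ := Y'.mkQ_surjective q
  have hx : (x : V) ∉ Y := fun h => hq.2 ((Submodule.Quotient.mk_eq_zero Y').mpr h)
  have hx2 : A0 x - l • (x : V) ∈ Y := by
    have := hq.apply_eq_smul
    rw [Submodule.mkQ_apply, Submodule.mapQ_apply, ← Submodule.Quotient.mk_smul,
      Submodule.Quotient.eq] at this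
    exact this
  set Z := Y ⊔ Submodule.span ℂ {(x : V)} with hZ
  have hZr : finrank ℂ Z = finrank ℂ Y + 1 := Submodule.finrank_sup_span_singleton hx
  set T := B1 - l • B0 with hT
  have r1 := LinearMap.finrank_range_add_finrank_ker (T.domRestrict Z)
  have r2 := LinearMap.finrank_range_add_finrank_ker (B0.domRestrict Y)
  have r3 : LinearMap.range (T.domRestrict Z) ≤ LinearMap.range (B0.domRestrict Y) := by
    rintro _ ⟨⟨z, hz⟩, rfl⟩
    obtain ⟨y, hy, w, hw, rfl⟩ := Submodule.mem_sup.mp hz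
    obtain ⟨c, rfl⟩ := Submodule.mem_span_singleton.mp hw
    obtain ⟨y', hy', h⟩ := hinv y hy
    refine ⟨⟨y' - l • y + c • (A0 x - l • (x : V)),
      Y.add_mem (Y.sub_mem hy' (Y.smul_mem l hy)) (Y.smul_mem c hx2)⟩, ?_⟩
    simp only [LinearMap.domRestrict_apply, hT, map_add, map_sub, map_smul, hA, h,
      LinearMap.sub_apply, LinearMap.smul_apply]
  have r4 := Submodule.finrank_mono r3
  have r5 : 0 < finrank ℂ (LinearMap.ker (B0.domRestrict Y)) := by
    rw [finrank_pos_iff_exists_ne_zero]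
    exact ⟨⟨⟨e, heY⟩, he0⟩, fun h => he (congrArg (fun z => z.1.1) h)⟩
  have r6 : finrank ℂ (LinearMap.ker (T.domRestrict Z)) ≤ 1 := by
    rw [← Submodule.finrank_map_subtype_eq]
    refine le_trans (Submodule.finrank_mono ?_) (hl l)
    rintro _ ⟨z, hz, rfl⟩
    exact hz
  omega

variable {Ω : (Fin 3 → ℂ) →ₗ[ℂ] V →ₗ[ℂ] V →ₗ[ℂ] ℂ}

theorem lemmaK (hV : finrank ℂ V = 7) (hsk : ∀ n x y, Ω n x y = -Ω n y x) (h1 : H1 Ω)
    {m0 m1 : Fin 3 → ℂ} (hm : Ind2 m0 m1) {e y1 y2 : V} (he : e ≠ 0) (he0 : Ω m0 e = 0)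
    (h12 : Ω m0 y1 y2 = 0) (ie : ∃ b c : ℂ, Ω m1 e = b • Ω m0 y1 + c • Ω m0 y2)
    (i1 : ∃ b c : ℂ, Ω m1 y1 = b • Ω m0 y1 + c • Ω m0 y2)
    (i2 : ∃ b c : ℂ, Ω m1 y2 = b • Ω m0 y1 + c • Ω m0 y2) : False := by
  have hm0 : m0 ≠ 0 := fun h => by simpa using (hm 1 0 (by simp [h])).1
  have halt : ∀ x, Ω m0 x x = 0 := fun x => by linear_combination hsk m0 x x / 2
  refine lemmaK_sub hV (Ω m0) (Ω m1) (hsk m0) (hsk m1) he he0 (fun x hx => h1 m0 hm0 e x he0 hx he)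
    (fun l => ?_) (Submodule.span ℂ (Set.range ![e, y1, y2]))
    (Submodule.subset_span ⟨0, rfl⟩) (finrank_range_le_card ![e, y1, y2]) ?_ ?_
  · rw [← map_smul, ← map_sub]
    refine finrank_ker_le _ (h1 _ fun h => ?_)
    have := (hm (-l) 1 (by rw [← h]; module)).2
    simp at this
  · intro y hy y' hy'
    obtain ⟨c, rfl⟩ := (Submodule.mem_span_range_iff_exists_fun ℂ).mp hy
    obtain ⟨c', rfl⟩ := (Submodule.mem_span_range_iff_exists_fun ℂ).mp hy'
    have g1 : Ω m0 y1 e = 0 := by rw [hsk, he0]; simp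
    have g2 : Ω m0 y2 e = 0 := by rw [hsk, he0]; simp
    have g3 : Ω m0 y2 y1 = 0 := by rw [hsk, h12]; simp
    simp [Fin.sum_univ_three, he0, g1, g2, g3, h12, halt]
  · intro y hy
    obtain ⟨c, rfl⟩ := (Submodule.mem_span_range_iff_exists_fun ℂ).mp hy
    obtain ⟨a0, b0, g0⟩ := ie
    obtain ⟨a1, b1, g1⟩ := i1
    obtain ⟨a2, b2, g2⟩ := i2
    refine ⟨(c 0 * a0 + c 1 * a1 + c 2 * a2) • y1 + (c 0 * b0 + c 1 * b1 + c 2 * b2) • y2,
      Submodule.add_mem _ (Submodule.smul_mem _ _ (Submodule.subset_span ⟨1, rfl⟩))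
        (Submodule.smul_mem _ _ (Submodule.subset_span ⟨2, rfl⟩)), ?_⟩
    simp only [Fin.sum_univ_three, map_add, map_smul, Matrix.cons_val_zero, Matrix.cons_val_one,
      Matrix.cons_val, g0, g1, g2]
    module

end Pool.Agent.Work.MP_7daf81_ag.V22
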