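import Pool.Agent.Work.MP_7daf81_ag.V22.Lin1

/-! Consequences of smoothness. -/

namespace Pool.Agent.Work.MP_7daf81_ag.V22

open Module

variable {V : Type} [AddCommGroup V] [Module ℂ V] [FiniteDimensional ℂ V]
variable {Ω : (Fin 3 → ℂ) →ₗ[ℂ] V →ₗ[ℂ] V →ₗ[ℂ] ℂ}

theorem exists_compl3 (n : Fin 3 → ℂ) (hn : n ≠ 0) : ∃ n' n'' : Fin 3 → ℂ,
    ∀ m : Fin 3 → ℂ, ∃ a b c : ℂ, m = a • n + b • n' + c • n'' := by
  by_cases h0 : n 0 = 0
  · by_cases h1 : n 1 = 0
    · have h2 : n 2 ≠ 0 := fun h2 => hn (by funext i; fin_cases i; exacts [h0, h1, h2])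
      refine ⟨![1, 0, 0], ![0, 1, 0], fun m => ⟨m 2 / n 2, m 0, m 1, ?_⟩⟩
      funext i; simp only [Pi.add_apply, Pi.smul_apply]; fin_cases i <;> simp [h0, h1, h2]
    · refine ⟨![1, 0, 0], ![0, 0, 1], fun m => ⟨m 1 / n 1, m 0, m 2 - m 1 / n 1 * n 2, ?_⟩⟩
      funext i; simp only [Pi.add_apply, Pi.smul_apply]; fin_cases i <;> simp [h0, h1]
  · refine ⟨![0, 1, 0], ![0, 0, 1], fun m =>
      ⟨m 0 / n 0, m 1 - m 0 / n 0 * n 1, m 2 - m 0 / n 0 * n 2, ?_⟩⟩
    funext i; simp only [Pi.add_apply, Pi.smul_apply]; fin_cases i <;> simp [h0]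

theorem no_iso_plane (hV : finrank ℂ V = 7) (hsk : ∀ n x y, Ω n x y = -Ω n y x) (hS : Sm Ω)
    {n n' n'' : Fin 3 → ℂ} (hn : n ≠ 0) (hc : ∀ m : Fin 3 → ℂ, ∃ a b c : ℂ, m = a • n + b • n' + c • n'')
    {p q : V} (hi : Ind2 p q) (hp : Ω n p = 0) (hq : Ω n q = 0) (h1 : Ω n' p q = 0)
    (h2 : Ω n'' p q = 0) : False := by
  let f : V →ₗ[ℂ] (Fin 4 → ℂ) := LinearMap.pi ![Ω n' p, Ω n' q, Ω n'' p, Ω n'' q]
  have r1 := LinearMap.finrank_range_add_finrank_ker f
  have r2 : finrank ℂ (LinearMap.range f) ≤ 4 := by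
    simpa using (LinearMap.range f).finrank_le
  obtain ⟨w, hw, hw'⟩ : ∃ w ∈ LinearMap.ker f, w ∉ Submodule.span ℂ (Set.range ![p, q]) := by
    by_contra hh
    push Not at hh
    have r3 := Submodule.finrank_mono (show LinearMap.ker f ≤ _ from hh)
    have r4 : finrank ℂ (Submodule.span ℂ (Set.range ![p, q])) ≤ 2 := finrank_range_le_card ![p, q]
    omega
  have w0 : Ω n' p w = 0 := congrFun hw 0
  have w1 : Ω n' q w = 0 := congrFun hw 1
  have w2 : Ω n'' p w = 0 := congrFun hw 2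
  have w3 : Ω n'' q w = 0 := congrFun hw 3
  have h3 : Ind3 p q w := Ind3.of_not hi fun a b h => hw' (by
    rw [h]
    exact Submodule.add_mem _ (Submodule.smul_mem _ _ (Submodule.subset_span ⟨0, rfl⟩))
      (Submodule.smul_mem _ _ (Submodule.subset_span ⟨1, rfl⟩)))
  refine hn (hS p q w h3.li (fun m => ?_) (fun m => ?_) (fun m => ?_) 0 0 n (by simp [hq])
    (by simp [hp]) (by simp)).2.2
  · obtain ⟨a, b, c, rfl⟩ := hc m
    simp [hp, h1, h2]
  · obtain ⟨a, b, c, rfl⟩ := hc m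
    simp [hp, w0, w2]
  · obtain ⟨a, b, c, rfl⟩ := hc m
    simp [hq, w1, w3]

theorem h1_of_sm (hV : finrank ℂ V = 7) (hsk : ∀ n x y, Ω n x y = -Ω n y x) (hS : Sm Ω) :
    H1 Ω := by
  intro n hn x y hx hy hx0
  by_contra hxy
  push Not at hxy
  have hi := Ind2.of_not hx0 hxy
  have halt : ∀ m z, Ω m z z = 0 := fun m z => by linear_combination hsk m z z / 2
  obtain ⟨n', n'', hc⟩ := exists_compl3 n hn
  obtain ⟨C, hC⟩ := Submodule.exists_isCompl (Submodule.span ℂ (Set.range ![x, y]))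
  have hli : LinearIndependent ℂ ![x, y] := LinearIndependent.pair_iff.mpr hi
  have hC5 : finrank ℂ C = 5 := by
    have := Submodule.finrank_add_eq_of_isCompl hC
    rw [finrank_span_eq_card hli, Fintype.card_fin] at this
    omega
  obtain ⟨z, hz0, hz⟩ := exists_ker_of_odd ((Ω n).compl₁₂ C.subtype C.subtype)
    (fun a b => hsk n a b) (by rw [hC5]; decide)
  have hz' : Ω n z = 0 := by
    ext v
    obtain ⟨a, c, ha, hc', rfl⟩ := Submodule.codisjoint_iff_exists_add_eq.mp hC.codisjoint v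
    obtain ⟨g, rfl⟩ := (Submodule.mem_span_range_iff_exists_fun ℂ).mp ha
    have := LinearMap.congr_fun hz ⟨c, hc'⟩
    simp only [LinearMap.compl₁₂_apply, Submodule.subtype_apply, LinearMap.zero_apply] at this
    have g1 : Ω n z x = 0 := by rw [hsk, hx]; simp
    have g2 : Ω n z y = 0 := by rw [hsk, hy]; simp
    simp [Fin.sum_univ_two, this, g1, g2]
  have h3 : Ind3 x y z := Ind3.of_not hi fun a b h => hz0 (by
    have h1 : (z : V) ∈ Submodule.span ℂ (Set.range ![x, y]) := by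
      rw [h]
      exact Submodule.add_mem _ (Submodule.smul_mem _ _ (Submodule.subset_span ⟨0, rfl⟩))
        (Submodule.smul_mem _ _ (Submodule.subset_span ⟨1, rfl⟩))
    exact Subtype.ext (Submodule.disjoint_def.mp hC.disjoint _ h1 z.2))
  generalize (z : V) = z at hz' h3
  have key : ∀ x y z : V, Ind3 x y z → Ω n x = 0 → Ω n y = 0 → Ω n z = 0 → ∀ a b c : ℂ, c ≠ 0 →
      a * Ω n' y z + b * Ω n' z x + c * Ω n' x y = 0 →
      a * Ω n'' y z + b * Ω n'' z x + c * Ω n'' x y = 0 → False := by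
    intro x y z hi hx hy hz a b c hc0 e1 e2
    refine no_iso_plane hV hsk hS hn hc (p := c • x - a • z) (q := c • y - b • z) ?_
      (by simp [hx, hz]) (by simp [hy, hz]) ?_ ?_
    · intro s t hst
      obtain ⟨g1, g2, -⟩ := hi (s * c) (t * c) (-(s * a) - t * b) (by rw [← hst]; module)
      exact ⟨(mul_eq_zero.mp g1).resolve_right hc0, (mul_eq_zero.mp g2).resolve_right hc0⟩
    · simp only [map_sub, map_smul, LinearMap.sub_apply, LinearMap.smul_apply, smul_eq_mul, halt,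
        hsk n' x z, hsk n' z y]
      linear_combination c * e1
    · simp only [map_sub, map_smul, LinearMap.sub_apply, LinearMap.smul_apply, smul_eq_mul, halt,
        hsk n'' x z, hsk n'' z y]
      linear_combination c * e2
  let f : (Fin 3 → ℂ) →ₗ[ℂ] (Fin 2 → ℂ) := Matrix.mulVecLin
    !![Ω n' y z, Ω n' z x, Ω n' x y; Ω n'' y z, Ω n'' z x, Ω n'' x y]
  obtain ⟨l, hl, hl0⟩ := (Submodule.ne_bot_iff _).mp
    (LinearMap.ker_ne_bot_of_finrank_lt (f := f) (by simp))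
  have l0 := congrFun hl 0
  have l1 := congrFun hl 1
  simp [f, Matrix.mulVec, dotProduct, Fin.sum_univ_three] at l0 l1
  by_cases c2 : l 2 = 0
  · by_cases c1 : l 1 = 0
    · have c0 : l 0 ≠ 0 := fun c0 => hl0 (by funext i; fin_cases i; exacts [c0, c1, c2])
      refine key y z x (fun a b c h => ?_) hy hz' hx (l 1) (l 2) (l 0) c0
        (by linear_combination l0) (by linear_combination l1)
      obtain ⟨g1, g2, g3⟩ := h3 c a b (by rw [← h]; module)
      exact ⟨g2, g3, g1⟩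
    · refine key z x y (fun a b c h => ?_) hz' hx hy (l 2) (l 0) (l 1) c1
        (by linear_combination l0) (by linear_combination l1)
      obtain ⟨g1, g2, g3⟩ := h3 b c a (by rw [← h]; module)
      exact ⟨g3, g1, g2⟩
  · exact key x y z h3 hx hy hz' (l 0) (l 1) (l 2) c2
      (by linear_combination l0) (by linear_combination l1)

theorem det_poly {ι : Type} [Fintype ι] [DecidableEq ι] (A B : Matrix ι ι ℂ) :
    ∃ p : Polynomial ℂ, ∀ s : ℂ, (A + s • B).det = p.eval s := by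
  refine ⟨(A.map Polynomial.C + (Polynomial.X : Polynomial ℂ) • B.map Polynomial.C).det,
    fun s => ?_⟩
  rw [← Polynomial.coe_evalRingHom, RingHom.map_det]
  congr 1
  ext i j
  simp
  ring

theorem exists_root_homog (F : ℂ → ℂ → ℂ) (p q : Polynomial ℂ) (hp : ∀ s, F 1 s = p.eval s)
    (hq : ∀ x, F x 1 = q.eval x) (hh : ∀ x, x ≠ 0 → F x 1 = x ^ 3 * F 1 x⁻¹) :
    ∃ t0 t1 : ℂ, ¬(t0 = 0 ∧ t1 = 0) ∧ F t0 t1 = 0 := by
  by_cases hd : p.degree = 0
  · have hc := Polynomial.eq_C_of_degree_eq_zero hd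
    have : q = Polynomial.C (p.coeff 0) * Polynomial.X ^ 3 := by
      apply Polynomial.eq_of_infinite_eval_eq
      refine Set.Infinite.mono (s := {0}ᶜ) (fun x hx => ?_) (Set.finite_singleton (0 : ℂ)).infinite_compl
      simp only [Set.mem_setOf_eq, Polynomial.eval_mul, Polynomial.eval_C, Polynomial.eval_pow,
        Polynomial.eval_X]
      rw [← hq, hh x hx, hp, hc, Polynomial.eval_C, Polynomial.coeff_C_zero, mul_comm]
    exact ⟨0, 1, by simp, by rw [hq, this]; simp⟩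
  · obtain ⟨s, hs⟩ := IsAlgClosed.exists_root p hd
    exact ⟨1, s, by simp, by rw [hp]; exact hs⟩

theorem no_iso_four (hV : finrank ℂ V = 7) (hsk : ∀ n x y, Ω n x y = -Ω n y x) (hS : Sm Ω)
    {u0 u1 w0 w1 : V} (hi : Ind4 u0 u1 w0 w1) (h01 : ∀ n, Ω n u0 u1 = 0) (h02 : ∀ n, Ω n u0 w0 = 0)
    (h03 : ∀ n, Ω n u0 w1 = 0) (h12 : ∀ n, Ω n u1 w0 = 0) (h13 : ∀ n, Ω n u1 w1 = 0)
    (h23 : ∀ n, Ω n w0 w1 = 0) : False := by
  have halt : ∀ m z, Ω m z z = 0 := fun m z => by linear_combination hsk m z z / 2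
  obtain ⟨g0, l0⟩ := exists_linearIndependent_cons_of_lt_finrank hi.li (by omega)
  obtain ⟨g1, l1⟩ := exists_linearIndependent_cons_of_lt_finrank l0 (by omega)
  obtain ⟨g2, l2⟩ := exists_linearIndependent_cons_of_lt_finrank l1 (by omega)
  let b := basisOfLinearIndependentOfCardEqFinrank l2 (by rw [hV]; rfl)
  have hb : ∀ ξ : V →ₗ[ℂ] ℂ, ξ g0 = 0 → ξ g1 = 0 → ξ g2 = 0 → ξ u0 = 0 → ξ u1 = 0 → ξ w0 = 0 →
      ξ w1 = 0 → ξ = 0 := by
    intro ξ a0 a1 a2 a3 a4 a5 a6
    refine b.ext fun i => ?_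
    simp only [b, coe_basisOfLinearIndependentOfCardEqFinrank]
    fin_cases i
    exacts [a2, a1, a0, a3, a4, a5, a6]
  let g : Fin 3 → V := ![g0, g1, g2]
  let M : V → V → V → Matrix (Fin 3 × Fin 3) (Fin 3 × Fin 3) ℂ := fun x y z => Matrix.of fun p q =>
    (!![0, Ω (Pi.single q.2 1) z (g p.2), -Ω (Pi.single q.2 1) y (g p.2);
      -Ω (Pi.single q.2 1) z (g p.2), 0, Ω (Pi.single q.2 1) x (g p.2);
      Ω (Pi.single q.2 1) y (g p.2), -Ω (Pi.single q.2 1) x (g p.2), 0] :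
        Matrix (Fin 3) (Fin 3) ℂ) p.1 q.1
  have hM : ∀ z z' (s : ℂ), M u0 u1 (z + s • z') = M u0 u1 z + s • M 0 0 z' := by
    intro z z' s
    ext ⟨a, l⟩ ⟨c, k⟩
    fin_cases a <;> fin_cases c <;> simp [M] <;> ring
  have hH : ∀ z (x : ℂ), x ≠ 0 → (M u0 u1 (x • z)).det = x ^ 3 * (M u0 u1 z).det := by
    intro z x hx
    have e : M u0 u1 (x • z) * Matrix.diagonal (fun q => ![1, 1, x] q.1) =
        Matrix.diagonal (fun p => ![x, x, 1] p.1) * M u0 u1 z := by
      ext ⟨a, l⟩ ⟨c, k⟩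
      rw [Matrix.mul_diagonal, Matrix.diagonal_mul]
      fin_cases a <;> fin_cases c <;> simp [M, mul_comm]
    have := congrArg Matrix.det e
    rw [Matrix.det_mul, Matrix.det_mul, Matrix.det_diagonal, Matrix.det_diagonal] at this
    simp only [Fintype.prod_prod_type, Fin.prod_univ_three, Matrix.cons_val_zero,
      Matrix.cons_val_one, Matrix.cons_val] at this
    apply mul_left_cancel₀ (pow_ne_zero 3 hx)
    linear_combination this
  obtain ⟨p, hp⟩ := det_poly (M u0 u1 w0) (M 0 0 w1)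
  obtain ⟨q, hq⟩ := det_poly (M u0 u1 w1) (M 0 0 w0)
  obtain ⟨t0, t1, ht, hd⟩ := exists_root_homog (fun t0 t1 => (M u0 u1 (t0 • w0 + t1 • w1)).det) p q
    (fun s => by rw [one_smul, hM, hp]) (fun x => by rw [one_smul, add_comm, hM, hq])
    (fun x hx => by
      rw [← hH _ x hx, smul_add, smul_smul, smul_smul, mul_one, mul_inv_cancel₀ hx])
  set z := t0 • w0 + t1 • w1 with hz
  obtain ⟨v, hv0, hv⟩ := Matrix.exists_mulVec_eq_zero_iff.mpr hd
  have hn : ∀ (c : Fin 3) (x y : V), Ω (fun k => v (c, k)) x y =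
      ∑ k, v (c, k) * Ω (Pi.single k 1) x y := by
    intro c x y
    have : (fun k => v (c, k)) = ∑ k, v (c, k) • (Pi.single k 1 : Fin 3 → ℂ) := by
      funext k
      simp [Finset.sum_apply, Pi.single_apply]
    rw [this]
    simp [LinearMap.sum_apply]
  have he : ∀ a l, ∑ c, ∑ k, M u0 u1 z (a, l) (c, k) * v (c, k) = 0 := fun a l => by
    have := congrFun hv (a, l)
    simpa [Matrix.mulVec, dotProduct, Fintype.sum_prod_type] using this
  have z0 : ∀ n, Ω n u0 z = 0 := fun n => by simp [hz, h02, h03]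
  have z1 : ∀ n, Ω n u1 z = 0 := fun n => by simp [hz, h12, h13]
  have z2 : ∀ n, Ω n z w0 = 0 := fun n => by simp [hz, halt, hsk n w1 w0, h23]
  have z3 : ∀ n, Ω n z w1 = 0 := fun n => by simp [hz, halt, h23]
  have z4 : ∀ n, Ω n z u0 = 0 := fun n => by rw [hsk, z0, neg_zero]
  have z5 : ∀ n, Ω n z u1 = 0 := fun n => by rw [hsk, z1, neg_zero]
  have z6 : ∀ n, Ω n u1 u0 = 0 := fun n => by rw [hsk, h01, neg_zero]
  have hi3 : Ind3 u0 u1 z := by
    intro a b c h
    obtain ⟨a0, a1, a2, a3⟩ := hi a b (c * t0) (c * t1) (by rw [← h, hz]; module)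
    refine ⟨a0, a1, by_contra fun hc => ht ⟨(mul_eq_zero.mp a2).resolve_left hc,
      (mul_eq_zero.mp a3).resolve_left hc⟩⟩
  have e0 : ∀ l, (Ω (fun k => v (1, k)) z - Ω (fun k => v (2, k)) u1) (g l) = 0 := fun l => by
    have := he 0 l
    simp only [M, Fin.sum_univ_three, Matrix.of_apply, Matrix.cons_val_zero, Matrix.cons_val_one,
      Matrix.cons_val] at this
    simp only [LinearMap.sub_apply, hn, Fin.sum_univ_three]
    linear_combination this
  have e1 : ∀ l, (Ω (fun k => v (2, k)) u0 - Ω (fun k => v (0, k)) z) (g l) = 0 := fun l => by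
    have := he 1 l
    simp only [M, Fin.sum_univ_three, Matrix.of_apply, Matrix.cons_val_zero, Matrix.cons_val_one,
      Matrix.cons_val] at this
    simp only [LinearMap.sub_apply, hn, Fin.sum_univ_three]
    linear_combination this
  have e2 : ∀ l, (Ω (fun k => v (0, k)) u1 - Ω (fun k => v (1, k)) u0) (g l) = 0 := fun l => by
    have := he 2 l
    simp only [M, Fin.sum_univ_three, Matrix.of_apply, Matrix.cons_val_zero, Matrix.cons_val_one,
      Matrix.cons_val] at this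
    simp only [LinearMap.sub_apply, hn, Fin.sum_univ_three]
    linear_combination this
  obtain ⟨f0, f1, f2⟩ := hS u0 u1 z hi3.li h01 z0 z1 (fun k => v (0, k)) (fun k => v (1, k))
    (fun k => v (2, k))
    (sub_eq_zero.mp (hb _ (e0 0) (e0 1) (e0 2) (by simp [z4, z6]) (by simp [z5, halt])
      (by simp [z2, h12]) (by simp [z3, h13])))
    (sub_eq_zero.mp (hb _ (e1 0) (e1 1) (e1 2) (by simp [z4, halt]) (by simp [z5, h01])
      (by simp [z2, h02]) (by simp [z3, h03])))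
    (sub_eq_zero.mp (hb _ (e2 0) (e2 1) (e2 2) (by simp [z6, halt]) (by simp [halt, h01])
      (by simp [h12, h02]) (by simp [h13, h03])))
  apply hv0
  funext ⟨c, k⟩
  fin_cases c
  exacts [congrFun f0 k, congrFun f1 k, congrFun f2 k]

end Pool.Agent.Work.MP_7daf81_ag.V22
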