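import Pool.Agent.Work.MP_7daf81_ag.V22.Lin2

/-! Existence of a base member of the net. -/

namespace Pool.Agent.Work.MP_7daf81_ag.V22

open Module

variable {V : Type} [AddCommGroup V] [Module ℂ V] [FiniteDimensional ℂ V]
variable {Ω : (Fin 3 → ℂ) →ₗ[ℂ] V →ₗ[ℂ] V →ₗ[ℂ] ℂ}

theorem exists_root_quad (α β δ : ℂ) : ∃ a0 a1 : ℂ, ¬(a0 = 0 ∧ a1 = 0) ∧
    α * a0 ^ 2 + β * a0 * a1 + δ * a1 ^ 2 = 0 := by
  by_cases h : α = 0
  · exact ⟨1, 0, by simp, by simp [h]⟩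
  · obtain ⟨z, hz⟩ := IsAlgClosed.exists_pow_nat_eq (β ^ 2 - 4 * α * δ) (n := 2) (by norm_num)
    refine ⟨z - β, 2 * α, fun hh => h (by linear_combination hh.2 / 2), ?_⟩
    linear_combination α * hz

omit [FiniteDimensional ℂ V] in
theorem chain (B0 B1 : V →ₗ[ℂ] V →ₗ[ℂ] ℂ) (hB0 : ∀ x y, B0 x y = -B0 y x)
    (hB1 : ∀ x y, B1 x y = -B1 y x) (e : V) (st : V → V)
    (hst : ∀ x, B1 x e = 0 → B0 (st x) = -B1 x) :
    B0 (st e) = -B1 e ∧ B0 (st (st e)) = -B1 (st e) ∧ B0 (st (st (st e))) = -B1 (st (st e)) ∧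
      B0 (st (st (st (st e)))) = -B1 (st (st (st e))) ∧ B1 e (st (st (st e))) = 0 := by
  have a0 : ∀ x, B0 x x = 0 := fun x => by linear_combination hB0 x x / 2
  have a1 : ∀ x, B1 x x = 0 := fun x => by linear_combination hB1 x x / 2
  have r1 := hst e (a1 e)
  have t1 : ∀ y, B0 (st e) y = -B1 e y := fun y => by rw [r1]; rfl
  have r2 := hst (st e) (by linear_combination hB1 (st e) e - t1 (st e) + a0 (st e))
  have t2 : ∀ y, B0 (st (st e)) y = -B1 (st e) y := fun y => by rw [r2]; rfl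
  have r3 := hst (st (st e)) (by
    linear_combination hB1 (st (st e)) e - t1 (st (st e)) + hB0 (st e) (st (st e)) - t2 (st e) +
      a1 (st e))
  have t3 : ∀ y, B0 (st (st (st e))) y = -B1 (st (st e)) y := fun y => by rw [r3]; rfl
  have s03 : B1 e (st (st (st e))) = 0 := by
    linear_combination t1 (st (st (st e))) - hB0 (st e) (st (st (st e))) + t3 (st e) -
      hB1 (st (st e)) (st e) + t2 (st (st e)) - a0 (st (st e))
  exact ⟨r1, r2, r3, hst _ (by rw [hB1, s03, neg_zero]), s03⟩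

theorem pencil_contra (hV : finrank ℂ V = 7) (hsk : ∀ n x y, Ω n x y = -Ω n y x) (hS : Sm Ω)
    (hno : ∀ (n3 : Fin 3 → ℂ) (e : V), n3 ≠ 0 → e ≠ 0 → Ω n3 e = 0 → ∀ m k, Ω n3 k = -Ω m e →
      ∀ n, Ω n e k = 0)
    {m0 m : Fin 3 → ℂ} (hm : Ind2 m0 m) {e k1 k2 k3 k4 : V} (he : e ≠ 0) (r0 : Ω m0 e = 0)
    (r1 : Ω m0 k1 = -Ω m e) (r2 : Ω m0 k2 = -Ω m k1) (r3 : Ω m0 k3 = -Ω m k2)
    (r4 : Ω m0 k4 = -Ω m k3) (h03 : ∀ n, Ω n e k3 = 0) : False := by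
  have h1 := h1_of_sm hV hsk hS
  have hm0 : m0 ≠ 0 := fun h => by simpa using (hm 1 0 (by simp [h])).1
  have halt : ∀ n x, Ω n x x = 0 := fun n x => by linear_combination hsk n x x / 2
  have t0 : ∀ y, Ω m0 e y = 0 := fun y => by rw [r0]; rfl
  have t1 : ∀ y, Ω m0 k1 y = -Ω m e y := fun y => by rw [r1]; rfl
  have t2 : ∀ y, Ω m0 k2 y = -Ω m k1 y := fun y => by rw [r2]; rfl
  have t3 : ∀ y, Ω m0 k3 y = -Ω m k2 y := fun y => by rw [r3]; rfl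
  have t4 : ∀ y, Ω m0 k4 y = -Ω m k3 y := fun y => by rw [r4]; rfl
  have b12 : Ω m0 k1 k2 = 0 := by linear_combination hsk m0 k1 k2 - t2 k1 + halt m k1
  have b23 : Ω m0 k2 k3 = 0 := by linear_combination hsk m0 k2 k3 - t3 k2 + halt m k2
  have b34 : Ω m0 k3 k4 = 0 := by linear_combination hsk m0 k3 k4 - t4 k3 + halt m k3
  have b13 : Ω m0 k1 k3 = 0 := by
    linear_combination hsk m0 k1 k3 - t3 k1 + hsk m k2 k1 - t2 k2 + halt m0 k2
  have b24 : Ω m0 k2 k4 = 0 := by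
    linear_combination hsk m0 k2 k4 - t4 k2 + hsk m k3 k2 - t3 k3 + halt m0 k3
  have b14 : Ω m0 k1 k4 = 0 := by
    linear_combination hsk m0 k1 k4 - t4 k1 + hsk m k3 k1 - t2 k3 + b23
  have q0 : Ω m e = (-1 : ℂ) • Ω m0 k1 := by rw [r1]; module
  have q1 : Ω m k1 = (-1 : ℂ) • Ω m0 k2 := by rw [r2]; module
  have q2 : Ω m k2 = (-1 : ℂ) • Ω m0 k3 := by rw [r3]; module
  have i2 : Ind2 e k1 := Ind2.of_not he fun c hc => by
    have : Ω m e = 0 := by rw [q0, hc, map_smul, r0]; simp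
    exact lemmaK hV hsk h1 hm he r0 (y1 := e) (y2 := e) (halt _ _) ⟨0, 0, by simp [this]⟩
      ⟨0, 0, by simp [this]⟩ ⟨0, 0, by simp [this]⟩
  have i3 : Ind3 e k1 k2 := Ind3.of_not i2 fun a b hc => by
    have : Ω m k1 = (-b) • Ω m0 k1 + (0 : ℂ) • Ω m0 k1 := by
      rw [q1, hc, map_add, map_smul, map_smul, r0]; module
    exact lemmaK hV hsk h1 hm he r0 (y1 := k1) (y2 := k1) (halt _ _) ⟨-1, 0, by rw [q0]; module⟩
      ⟨_, _, this⟩ ⟨_, _, this⟩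
  have i4 : Ind4 e k1 k2 k3 := Ind4.of_not i3 fun a b c hc => by
    have : Ω m k2 = (-b) • Ω m0 k1 + (-c) • Ω m0 k2 := by
      rw [q2, hc, map_add, map_add, map_smul, map_smul, map_smul, r0]; module
    exact lemmaK hV hsk h1 hm he r0 (y1 := k1) (y2 := k2) b12 ⟨-1, 0, by rw [q0]; module⟩
      ⟨0, -1, by rw [q1]; module⟩ ⟨_, _, this⟩
  obtain ⟨c0, c1, c2, c3, hc⟩ := maxIso hV (Ω m0) (hsk m0) (h1 m0 hm0) i4 (t0 _) (t0 _) (t0 _)
    b12 b13 b23 k4 (t0 _) b14 b24 b34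
  set κ1 := k1 - c3 • e with hκ1
  set κ2 := k2 - c3 • k1 - c2 • e with hκ2
  set κ3 := k3 - c3 • k2 - c2 • k1 - c1 • e with hκ3
  have s1 : Ω m0 κ1 = -Ω m e := by rw [hκ1, map_sub, map_smul, r0, r1]; module
  have s2 : Ω m0 κ2 = -Ω m κ1 := by
    simp only [hκ1, hκ2, map_sub, map_smul, r0, r1, r2]; module
  have s3 : Ω m0 κ3 = -Ω m κ2 := by
    simp only [hκ2, hκ3, map_sub, map_smul, r0, r1, r2, r3]; module
  have s4 : Ω m κ3 = 0 := by
    have : Ω m k3 = -Ω m0 k4 := by rw [r4, neg_neg]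
    simp only [hκ3, map_sub, map_smul, this, hc, map_add, r0, q0, q1, q2]; module
  have j4 : Ind4 e κ1 κ2 κ3 := by
    intro a b c d h
    obtain ⟨g0, g1, g2, g3⟩ := i4 (a - b * c3 - c * c2 - d * c1) (b - c * c3 - d * c2) (c - d * c3) d
      (by rw [← h, hκ1, hκ2, hκ3]; module)
    rw [g3] at g0 g1 g2
    have g2' : c = 0 := by linear_combination g2
    rw [g2'] at g0 g1
    have g1' : b = 0 := by linear_combination g1
    rw [g1'] at g0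
    exact ⟨by linear_combination g0, g1', g2', g3⟩
  have hf : ∀ (n : Fin 3 → ℂ) (x : ℂ), Ω n e κ1 + 2 * x * Ω n e κ2 +
      x ^ 2 * (3 * Ω n e κ3 + Ω n κ1 κ2) + 2 * x ^ 3 * Ω n κ1 κ3 + x ^ 4 * Ω n κ2 κ3 = 0 := by
    intro n x
    have := hno (m0 + x • m) (e + x • κ1 + x ^ 2 • κ2 + x ^ 3 • κ3)
      (fun h => by simpa using (hm 1 x (by simpa using h)).1)
      (fun h => by simpa using (j4 1 x (x ^ 2) (x ^ 3) (by simpa using h)).1)
      (by simp only [map_add, map_smul, LinearMap.add_apply, LinearMap.smul_apply, r0, s1, s2, s3, s4]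
          module) m (κ1 + (2 * x) • κ2 + (3 * x ^ 2) • κ3)
      (by simp only [map_add, map_smul, LinearMap.add_apply, LinearMap.smul_apply, s1, s2, s3, s4]
          module) n
    simp only [map_add, map_smul, LinearMap.add_apply, LinearMap.smul_apply, smul_eq_mul, halt,
      hsk n κ2 κ1, hsk n κ3 κ1, hsk n κ3 κ2] at this
    linear_combination this
  have g01 : ∀ n, Ω n e κ1 = 0 := fun n => by linear_combination hf n 0
  have g02 : ∀ n, Ω n e κ2 = 0 := fun n => by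
    linear_combination (8 * (hf n 1 - hf n (-1)) - (hf n 2 - hf n (-2))) / 24
  have g13 : ∀ n, Ω n κ1 κ3 = 0 := fun n => by
    linear_combination ((hf n 2 - hf n (-2)) - 2 * (hf n 1 - hf n (-1))) / 24
  have g23 : ∀ n, Ω n κ2 κ3 = 0 := fun n => by
    linear_combination ((hf n 2 + hf n (-2)) - 4 * (hf n 1 + hf n (-1)) + 6 * hf n 0) / 24
  have g03 : ∀ n, Ω n e κ3 = 0 := fun n => by
    have a1 := g01 n
    have a2 := g02 n
    have a3 := h03 n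
    simp only [hκ1, hκ2, hκ3, map_sub, map_smul, smul_eq_mul, halt] at a1 a2 ⊢
    linear_combination a3 - c3 * a2 - (c2 + c3 ^ 2) * a1
  have g12 : ∀ n, Ω n κ1 κ2 = 0 := fun n => by
    linear_combination (16 * (hf n 1 + hf n (-1)) - (hf n 2 + hf n (-2)) - 30 * hf n 0) / 24 -
      3 * g03 n
  exact no_iso_four hV hsk hS j4 g01 g02 g03 g12 g13 g23

theorem exists_base (hV : finrank ℂ V = 7) (hsk : ∀ n x y, Ω n x y = -Ω n y x) (hS : Sm Ω) :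
    ∃ (n1 n2 n3 : Fin 3 → ℂ) (e k1 k2 : V), IsBase Ω n1 n2 n3 e k1 k2 := by
  have h1 := h1_of_sm hV hsk hS
  have halt : ∀ n x, Ω n x x = 0 := fun n x => by linear_combination hsk n x x / 2
  by_contra hcon
  have hno : ∀ (n3 : Fin 3 → ℂ) (e : V), n3 ≠ 0 → e ≠ 0 → Ω n3 e = 0 → ∀ m k, Ω n3 k = -Ω m e →
      ∀ n, Ω n e k = 0 := by
    intro n3 e hn he h3 m k hk n
    obtain ⟨k1, hk1⟩ := exists_preimage (Ω n3) (hsk n3) (-Ω n e) (fun x hx => by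
      obtain ⟨c, rfl⟩ := h1 n3 hn e x h3 hx he
      simp [halt])
    by_contra hne
    refine hcon ⟨n, m, n3, e, k1, k, he, h3, hk1, hk, ?_⟩
    rw [hk1]
    simpa using hne
  set m0 : Fin 3 → ℂ := Pi.single 2 1 with hm0
  set ε0 : Fin 3 → ℂ := Pi.single 0 1 with hε0
  set ε1 : Fin 3 → ℂ := Pi.single 1 1 with hε1
  have hm00 : m0 ≠ 0 := fun h => by simpa [hm0] using congrFun h 2
  obtain ⟨e, he, r0⟩ := exists_ker_of_odd (Ω m0) (hsk m0) (by rw [hV]; decide)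
  obtain ⟨g, hg⟩ := LinearMap.exists_rightInverse_of_surjective (Ω m0).rangeRestrict
    (LinearMap.range_rangeRestrict _)
  obtain ⟨R, hR⟩ := LinearMap.exists_extend g
  have hR' : ∀ ξ : V →ₗ[ℂ] ℂ, ξ e = 0 → Ω m0 (R ξ) = ξ := by
    intro ξ hξ
    have hr : ξ ∈ LinearMap.range (Ω m0) := exists_preimage (Ω m0) (hsk m0) ξ (fun x hx => by
      obtain ⟨c, rfl⟩ := h1 m0 hm00 e x r0 hx he
      simp [hξ])
    have e1 : R ξ = g ⟨ξ, hr⟩ := LinearMap.congr_fun hR ⟨ξ, hr⟩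
    have e2 := congrArg Subtype.val (LinearMap.congr_fun hg ⟨ξ, hr⟩)
    rw [e1]
    simpa using e2
  let A0 : V →ₗ[ℂ] V := -(R ∘ₗ Ω ε0)
  let A1 : V →ₗ[ℂ] V := -(R ∘ₗ Ω ε1)
  have hch := fun a0 a1 : ℂ => chain (Ω m0) (Ω (a0 • ε0 + a1 • ε1)) (hsk _) (hsk _) e
    (fun x => a0 • A0 x + a1 • A1 x) (fun x hx => by
      have : a0 • A0 x + a1 • A1 x = R (-Ω (a0 • ε0 + a1 • ε1) x) := by
        simp only [A0, A1, LinearMap.neg_apply, LinearMap.comp_apply, map_add, map_smul, map_neg,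
          LinearMap.add_apply, LinearMap.smul_apply]
        module
      rw [this, hR' _ (by rw [LinearMap.neg_apply, hx, neg_zero])])
  have hex : ∀ (n : Fin 3 → ℂ) (a0 a1 : ℂ), Ω n e
      (a0 • A0 (a0 • A0 (a0 • A0 e + a1 • A1 e) + a1 • A1 (a0 • A0 e + a1 • A1 e)) +
        a1 • A1 (a0 • A0 (a0 • A0 e + a1 • A1 e) + a1 • A1 (a0 • A0 e + a1 • A1 e))) =
      a0 ^ 3 * Ω n e (A0 (A0 (A0 e))) +
        a0 ^ 2 * a1 * (Ω n e (A0 (A0 (A1 e))) + Ω n e (A0 (A1 (A0 e))) + Ω n e (A1 (A0 (A0 e)))) +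
        a0 * a1 ^ 2 * (Ω n e (A0 (A1 (A1 e))) + Ω n e (A1 (A0 (A1 e))) + Ω n e (A1 (A1 (A0 e)))) +
        a1 ^ 3 * Ω n e (A1 (A1 (A1 e))) := by
    intro n a0 a1
    simp only [map_add, map_smul, smul_eq_mul]
    ring
  have hcomb : ∀ (a b : ℂ) (y : V), Ω (a • ε0 + b • ε1) e y = a * Ω ε0 e y + b * Ω ε1 e y := by
    intro a b y
    simp
  generalize hg00 : Ω ε0 e (A0 (A0 (A0 e))) = g00
  generalize hg01 : Ω ε0 e (A0 (A0 (A1 e))) + Ω ε0 e (A0 (A1 (A0 e))) + Ω ε0 e (A1 (A0 (A0 e))) = g01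
  generalize hg02 : Ω ε0 e (A0 (A1 (A1 e))) + Ω ε0 e (A1 (A0 (A1 e))) + Ω ε0 e (A1 (A1 (A0 e))) = g02
  generalize hg03 : Ω ε0 e (A1 (A1 (A1 e))) = g03
  generalize hg10 : Ω ε1 e (A0 (A0 (A0 e))) = g10
  generalize hg11 : Ω ε1 e (A0 (A0 (A1 e))) + Ω ε1 e (A0 (A1 (A0 e))) + Ω ε1 e (A1 (A0 (A0 e))) = g11
  generalize hg12 : Ω ε1 e (A0 (A1 (A1 e))) + Ω ε1 e (A1 (A0 (A1 e))) + Ω ε1 e (A1 (A1 (A0 e))) = g12
  generalize hg13 : Ω ε1 e (A1 (A1 (A1 e))) = g13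
  have hid : ∀ a0 a1 : ℂ, a0 * (a0 ^ 3 * g00 + a0 ^ 2 * a1 * g01 + a0 * a1 ^ 2 * g02 + a1 ^ 3 * g03) +
      a1 * (a0 ^ 3 * g10 + a0 ^ 2 * a1 * g11 + a0 * a1 ^ 2 * g12 + a1 ^ 3 * g13) = 0 := by
    intro a0 a1
    have := (hch a0 a1).2.2.2.2
    rw [hcomb, hex, hex, hg00, hg01, hg02, hg03, hg10, hg11, hg12, hg13] at this
    exact this
  have z0 : g00 = 0 := by linear_combination hid 1 0
  have z4 : g13 = 0 := by linear_combination hid 0 1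
  have z2 : g02 + g11 = 0 := by linear_combination (hid 1 1 + hid 1 (-1)) / 2 - z0 - z4
  have z3 : g03 + g12 = 0 := by
    linear_combination (hid 1 2 - z0 - 16 * z4 - 4 * z2 - (hid 1 1 - hid 1 (-1))) / 6
  have z1 : g01 + g10 = 0 := by linear_combination (hid 1 1 - hid 1 (-1)) / 2 - z3
  obtain ⟨a0, a1, ha, hq⟩ := exists_root_quad g10 g11 g12
  obtain ⟨r1, r2, r3, r4, -⟩ := hch a0 a1
  refine pencil_contra hV hsk hS hno (m0 := m0) (m := a0 • ε0 + a1 • ε1) ?_ he r0 r1 r2 r3 r4 ?_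
  · intro s t h
    have e0 := congrFun h 0
    have e1 := congrFun h 1
    have e2 := congrFun h 2
    simp [hm0, hε0, hε1] at e0 e1 e2
    refine ⟨e2, by_contra fun ht => ha ⟨e0.resolve_left ht, e1.resolve_left ht⟩⟩
  · intro n
    have hn : n = n 0 • ε0 + n 1 • ε1 + n 2 • m0 := by
      funext i
      fin_cases i <;> simp [hm0, hε0, hε1]
    have hc3 : ∀ y, Ω (n 0 • ε0 + n 1 • ε1 + n 2 • m0) e y = n 0 * Ω ε0 e y + n 1 * Ω ε1 e y := by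
      intro y
      simp [r0]
    rw [hn, hc3, hex, hex, hg00, hg01, hg02, hg03, hg10, hg11, hg12, hg13]
    linear_combination (n 1 * a0 - n 0 * a1) * hq + n 0 * a0 ^ 3 * z0 + n 0 * a0 ^ 2 * a1 * z1 +
      n 0 * a0 * a1 ^ 2 * z2 + n 0 * a1 ^ 3 * z3 + n 1 * a1 ^ 3 * z4

end Pool.Agent.Work.MP_7daf81_ag.V22
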