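import Pool.Agent.Work.MP_7daf81_ag.V22.Glob2
import Pool.Agent.Work.MP_7daf81_ag.V22.Asm2

/-! The main theorem. -/

namespace Pool.Agent.Work.MP_7daf81_ag.V22

open Matrix

theorem sm_of_smooth (ω : Fin 3 → Matrix (Fin 7) (Fin 7) ℂ) (hω : ∀ k, (ω k)ᵀ = -ω k)
    (h : SmoothThreefold ω) : Sm (Om ω) := by
  intro u0 u1 u2 hi h01 h02 h12 n0 n1 n2 e0 e1 e2
  have hsk := Om_skew ω hω
  have hf : ∀ k (x y : Fin 7 → ℂ), form (ω k) x y = Om ω (Pi.single k 1) x y := fun k x y => by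
    rw [Om_apply]
    simp [Pi.single_apply]
  have halt : ∀ n x, Om ω n x x = 0 := fun n x => by linear_combination hsk n x x / 2
  have hiso : Isotropic ω ![u0, u1, u2] := by
    intro k i j
    rw [hf]
    fin_cases i <;> fin_cases j
    · exact halt _ _
    · exact h01 _
    · exact h02 _
    · rw [hsk, neg_eq_zero]; exact h01 _
    · exact halt _ _
    · exact h12 _
    · rw [hsk, neg_eq_zero]; exact h02 _
    · rw [hsk, neg_eq_zero]; exact h12 _
    · exact halt _ _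
  have key : ∀ c : Fin 3 × Fin 3 → ℂ,
      ∑ k, n0 k * c (k, 0) + ∑ k, n1 k * c (k, 1) + ∑ k, n2 k * c (k, 2) = 0 := by
    intro c
    obtain ⟨φ, rfl⟩ := h _ hi hiso c
    have t0 := LinearMap.congr_fun e0 (φ 0)
    have t1 := LinearMap.congr_fun e1 (φ 1)
    have t2 := LinearMap.congr_fun e2 (φ 2)
    have s0 : ∑ k, n0 k * dE ω ![u0, u1, u2] φ (k, 0) = Om ω n0 (φ 1) u2 + Om ω n0 u1 (φ 2) := by
      rw [Om_apply, Om_apply, ← Finset.sum_add_distrib]
      exact Finset.sum_congr rfl fun k _ => mul_add _ _ _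
    have s1 : ∑ k, n1 k * dE ω ![u0, u1, u2] φ (k, 1) = Om ω n1 (φ 2) u0 + Om ω n1 u2 (φ 0) := by
      rw [Om_apply, Om_apply, ← Finset.sum_add_distrib]
      exact Finset.sum_congr rfl fun k _ => mul_add _ _ _
    have s2 : ∑ k, n2 k * dE ω ![u0, u1, u2] φ (k, 2) = Om ω n2 (φ 0) u1 + Om ω n2 u0 (φ 1) := by
      rw [Om_apply, Om_apply, ← Finset.sum_add_distrib]
      exact Finset.sum_congr rfl fun k _ => mul_add _ _ _
    rw [s0, s1, s2, hsk n0 (φ 1), hsk n1 (φ 2), hsk n2 (φ 0)]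
    linear_combination t0 + t1 + t2
  refine ⟨funext fun k => ?_, funext fun k => ?_, funext fun k => ?_⟩
  · simpa [Pi.single_apply] using key (Pi.single (k, 0) 1)
  · simpa [Pi.single_apply] using key (Pi.single (k, 1) 1)
  · simpa [Pi.single_apply] using key (Pi.single (k, 2) 1)

theorem toricChart (ω : Fin 3 → Matrix (Fin 7) (Fin 7) ℂ) (hω : ∀ k, (ω k)ᵀ = -ω k)
    (h : SmoothThreefold ω) : ToricChart ω := by
  obtain ⟨n1, n2, n3, e, k1, k2, hB, hG⟩ :=
    exists_good (by simp) (Om_skew ω hω) (sm_of_smooth ω hω h)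
  exact toricChart_of_good ω hω hB hG

end Pool.Agent.Work.MP_7daf81_ag.V22
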