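import Pool.Agent.Work.MP_7daf81_ag.V22.Iface

/-! Lemma N, part one: functions of one variable, norms, and the basic toric chart. -/

namespace Pool.Agent.Work.MP_7daf81_ag.V22

open Polynomial

/-- `m` is a rational function of `τ`. -/
def Fn (τ m : K) : Prop :=
  (∃ m' : K, ∀ D : Derivation ℂ K K, D m = m' * D τ) ∧
    ∀ L : IntermediateField ℂ K, τ ∈ L → m ∈ L

theorem Fn.self (τ : K) : Fn τ τ := ⟨⟨1, fun D => by simp⟩, fun _ h => h⟩

theorem Fn.const (τ : K) (c : ℂ) : Fn τ (algebraMap ℂ K c) :=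
  ⟨⟨0, fun D => by simp⟩, fun L _ => L.algebraMap_mem c⟩

theorem Fn.one (τ : K) : Fn τ 1 := by simpa using Fn.const τ 1
theorem Fn.zero (τ : K) : Fn τ 0 := by simpa using Fn.const τ 0
theorem Fn.two (τ : K) : Fn τ 2 := by
  have := Fn.const τ 2
  rwa [map_ofNat] at this

theorem Fn.add {τ a b : K} (ha : Fn τ a) (hb : Fn τ b) : Fn τ (a + b) := by
  obtain ⟨⟨a', ha1⟩, ha2⟩ := ha
  obtain ⟨⟨b', hb1⟩, hb2⟩ := hb
  refine ⟨⟨a' + b', fun D => ?_⟩, fun L h => L.add_mem (ha2 L h) (hb2 L h)⟩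
  rw [map_add, ha1, hb1]; ring

theorem Fn.mul {τ a b : K} (ha : Fn τ a) (hb : Fn τ b) : Fn τ (a * b) := by
  obtain ⟨⟨a', ha1⟩, ha2⟩ := ha
  obtain ⟨⟨b', hb1⟩, hb2⟩ := hb
  refine ⟨⟨a * b' + b * a', fun D => ?_⟩, fun L h => L.mul_mem (ha2 L h) (hb2 L h)⟩
  rw [Derivation.leibniz, ha1, hb1, smul_eq_mul, smul_eq_mul]; ring

theorem Fn.neg {τ a : K} (ha : Fn τ a) : Fn τ (-a) := by
  obtain ⟨⟨a', ha1⟩, ha2⟩ := ha
  refine ⟨⟨-a', fun D => ?_⟩, fun L h => L.neg_mem (ha2 L h)⟩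
  rw [map_neg, ha1]; ring

theorem Fn.sub {τ a b : K} (ha : Fn τ a) (hb : Fn τ b) : Fn τ (a - b) := by
  rw [sub_eq_add_neg]; exact ha.add hb.neg

theorem Fn.inv {τ a : K} (ha : Fn τ a) : Fn τ a⁻¹ := by
  obtain ⟨⟨a', ha1⟩, ha2⟩ := ha
  refine ⟨⟨-a⁻¹ ^ 2 * a', fun D => ?_⟩, fun L h => L.inv_mem (ha2 L h)⟩
  rw [Derivation.leibniz_inv, ha1, smul_eq_mul]; ring

theorem Fn.div {τ a b : K} (ha : Fn τ a) (hb : Fn τ b) : Fn τ (a / b) := by
  rw [div_eq_mul_inv]; exact ha.mul hb.inv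

theorem Fn.sq {τ a : K} (ha : Fn τ a) : Fn τ (a ^ 2) := by
  rw [pow_two]; exact ha.mul ha

theorem Fn.aeval {τ σ : K} (h : Fn τ σ) (p : ℂ[X]) : Fn τ (aeval σ p) := by
  induction p using Polynomial.induction_on' with
  | add p q hp hq => rw [map_add]; exact hp.add hq
  | monomial n a =>
    rw [aeval_monomial]
    refine (Fn.const τ a).mul ?_
    induction n with
    | zero => simpa using Fn.one τ
    | succ n ih => rw [pow_succ]; exact ih.mul h

theorem aeval_ne_zero {τ : K} (hτ : ∀ s : ℂ, τ ≠ algebraMap ℂ K s) {p : ℂ[X]} (hp : p ≠ 0) :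
    aeval τ p ≠ 0 := by
  intro h
  have halg : IsAlgebraic ℂ τ := ⟨p, hp, h⟩
  have hint : IsIntegral ℂ τ := halg.isIntegral
  have hdeg := IsAlgClosed.degree_eq_one_of_irreducible ℂ (minpoly.irreducible hint)
  obtain ⟨s, hs⟩ := RingHom.mem_range.mp (minpoly.mem_range_of_degree_eq_one ℂ τ hdeg)
  exact hτ s hs.symm

/-- `r` is a norm from the quadratic extension given by `τ² - κ`. -/
def IsNorm (τ : K) (κ : ℂ) (r : K) : Prop :=
  ∃ p0 p1 : K, Fn τ p0 ∧ Fn τ p1 ∧ p0 ^ 2 - (τ ^ 2 - algebraMap ℂ K κ) * p1 ^ 2 = r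

theorem IsNorm.mul {τ : K} {κ : ℂ} {r s : K} (hr : IsNorm τ κ r) (hs : IsNorm τ κ s) :
    IsNorm τ κ (r * s) := by
  obtain ⟨p0, p1, h0, h1, rfl⟩ := hr
  obtain ⟨q0, q1, g0, g1, rfl⟩ := hs
  refine ⟨p0 * q0 + (τ ^ 2 - algebraMap ℂ K κ) * p1 * q1, p0 * q1 + p1 * q0, ?_, ?_, by ring⟩
  · exact (h0.mul g0).add (((((Fn.self τ).sq).sub (Fn.const τ κ)).mul h1).mul g1)
  · exact (h0.mul g1).add (h1.mul g0)

theorem IsNorm.sq {τ : K} (κ : ℂ) {a : K} (ha : Fn τ a) : IsNorm τ κ (a ^ 2) :=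
  ⟨a, 0, ha, Fn.zero τ, by ring⟩

theorem IsNorm.const (τ : K) (κ c : ℂ) : IsNorm τ κ (algebraMap ℂ K c) := by
  obtain ⟨z, hz⟩ := IsAlgClosed.exists_pow_nat_eq c (n := 2) (by norm_num)
  rw [← hz, map_pow]
  exact IsNorm.sq κ (Fn.const τ z)

theorem IsNorm.lin {τ : K} (hτ : τ ≠ 0) (κ c : ℂ) : IsNorm τ κ (τ + algebraMap ℂ K c) := by
  have h2 : (2 : K) ≠ 0 := two_ne_zero
  by_cases h : κ = 0 ∧ c = 0
  · obtain ⟨rfl, rfl⟩ := h
    refine ⟨(1 + τ) / 2, (τ - 1) / (2 * τ), ((Fn.one τ).add (Fn.self τ)).div (Fn.two τ),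
      ((Fn.self τ).sub (Fn.one τ)).div ((Fn.two τ).mul (Fn.self τ)), ?_⟩
    simp only [map_zero]
    field_simp
    ring
  · have hX : ∃ x : ℂ, x ≠ 0 ∧ 4 * x ^ 4 - 4 * c * x ^ 2 + κ = 0 := by
      obtain ⟨z, hz⟩ := IsAlgClosed.exists_pow_nat_eq (c ^ 2 - κ) (n := 2) (by norm_num)
      have : (c + z) / 2 ≠ 0 ∨ (c - z) / 2 ≠ 0 := by
        by_contra hh
        push Not at hh
        obtain ⟨h1, h2⟩ := hh
        have hc : c = 0 := by linear_combination h1 + h2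
        have hz0 : z = 0 := by linear_combination h1 - h2
        apply h
        refine ⟨?_, hc⟩
        rw [hc, hz0] at hz
        linear_combination hz
      rcases this with h1 | h1
      · obtain ⟨x, hx⟩ := IsAlgClosed.exists_pow_nat_eq ((c + z) / 2) (n := 2) (by norm_num)
        refine ⟨x, fun h0 => h1 (by rw [← hx, h0]; ring), ?_⟩
        linear_combination (4 * x ^ 2 + 2 * (c + z) - 4 * c) * hx + hz
      · obtain ⟨x, hx⟩ := IsAlgClosed.exists_pow_nat_eq ((c - z) / 2) (n := 2) (by norm_num)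
        refine ⟨x, fun h0 => h1 (by rw [← hx, h0]; ring), ?_⟩
        linear_combination (4 * x ^ 2 + 2 * (c - z) - 4 * c) * hx + hz
    obtain ⟨x, hx0, hx⟩ := hX
    have hx0' : algebraMap ℂ K x ≠ 0 := (_root_.map_ne_zero _).mpr hx0
    have hx' : 4 * algebraMap ℂ K x ^ 4 - 4 * algebraMap ℂ K c * algebraMap ℂ K x ^ 2 +
        algebraMap ℂ K κ = 0 := by
      have := congrArg (algebraMap ℂ K) hx
      simpa [map_ofNat] using this
    refine ⟨algebraMap ℂ K x + τ / (2 * algebraMap ℂ K x), 1 / (2 * algebraMap ℂ K x),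
      (Fn.const τ x).add ((Fn.self τ).div ((Fn.two τ).mul (Fn.const τ x))),
      (Fn.one τ).div ((Fn.two τ).mul (Fn.const τ x)), ?_⟩
    field_simp
    linear_combination hx'

theorem IsNorm.aeval {τ : K} (hτ : τ ≠ 0) (κ s : ℂ) (p : ℂ[X]) :
    IsNorm τ κ (aeval (τ - algebraMap ℂ K s) p) := by
  have hs : p.Splits := IsAlgClosed.splits p
  rw [hs.eq_prod_roots, map_mul, aeval_C]
  refine (IsNorm.const τ κ _).mul ?_
  induction p.roots using Multiset.induction_on with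
  | empty => simpa using IsNorm.const τ κ 1
  | cons a t ih =>
    rw [Multiset.map_cons, Multiset.prod_cons, map_mul]
    refine IsNorm.mul ?_ ih
    have := IsNorm.lin hτ κ (-s - a)
    convert this using 1
    simp only [map_sub, map_neg, aeval_X, aeval_C]
    ring

/-- Pointwise form of `Toric`. -/
def TD (a1 a2 τ w : K) : Prop :=
  ∃ c : ℂ, c ≠ 0 ∧ w ≠ 0 ∧
    (∀ L : IntermediateField ℂ K, a1 ∈ L → a2 ∈ L → τ ∈ L → ∀ i, tt i ∈ L) ∧
    ∀ D : Fin 3 → Derivation ℂ K K,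
      Jac D ![a1, a2, τ] * (tt 0 * tt 1 * tt 2) = algebraMap ℂ K c * Jac D tt * w

theorem TD.toric {F : K → K → K → K} {a1 a2 τ : K} (h : TD a1 a2 τ (F a1 a2 τ)) : Toric F := by
  obtain ⟨c, hc, hw, hg, hJ⟩ := h
  refine ⟨![a1, a2, τ], c, hc, by simpa using hw, fun i => hg _ ?_ ?_ ?_ i, by simpa using hJ⟩
  · exact IntermediateField.subset_adjoin _ _ ⟨0, rfl⟩
  · exact IntermediateField.subset_adjoin _ _ ⟨1, rfl⟩
  · exact IntermediateField.subset_adjoin _ _ ⟨2, rfl⟩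

theorem TD.scale {a1 a2 τ w : K} (h : TD a1 a2 τ w) {s : ℂ} (hs : s ≠ 0) :
    TD a1 a2 τ (algebraMap ℂ K s * w) := by
  obtain ⟨c, hc, hw, hg, hJ⟩ := h
  have hs' : algebraMap ℂ K s ≠ 0 := (_root_.map_ne_zero _).mpr hs
  refine ⟨c / s, div_ne_zero hc hs, mul_ne_zero hs' hw, hg, fun D => ?_⟩
  rw [hJ D, map_div₀]
  field_simp

theorem TD.shift {a1 a2 τ w : K} (h : TD a1 a2 τ w) (s : ℂ) :
    TD a1 a2 (τ - algebraMap ℂ K s) w := by
  obtain ⟨c, hc, hw, hg, hJ⟩ := h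
  refine ⟨c, hc, hw, fun L h1 h2 h3 => hg L h1 h2 ?_, fun D => ?_⟩
  · have := L.add_mem h3 (L.algebraMap_mem s)
    simpa using this
  · rw [← hJ D]
    simp [Jac, Matrix.det_fin_three]

theorem TD.affine {A1 A2 τ w : K} (h : TD A1 A2 τ w) {m11 m12 m21 m22 c1 c2 : K}
    (h11 : Fn τ m11) (h12 : Fn τ m12) (h21 : Fn τ m21) (h22 : Fn τ m22) (g1 : Fn τ c1)
    (g2 : Fn τ c2) (hdet : m11 * m22 - m12 * m21 ≠ 0) :
    ∃ a1 a2 : K, A1 = m11 * a1 + m12 * a2 + c1 ∧ A2 = m21 * a1 + m22 * a2 + c2 ∧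
      TD a1 a2 τ (w / (m11 * m22 - m12 * m21)) := by
  obtain ⟨a1, a2, e1, e2⟩ : ∃ a1 a2 : K, A1 = m11 * a1 + m12 * a2 + c1 ∧
      A2 = m21 * a1 + m22 * a2 + c2 :=
    ⟨(m22 * (A1 - c1) - m12 * (A2 - c2)) / (m11 * m22 - m12 * m21),
      (m11 * (A2 - c2) - m21 * (A1 - c1)) / (m11 * m22 - m12 * m21),
      by
        have := mul_inv_cancel₀ hdet
        rw [div_eq_mul_inv, div_eq_mul_inv]
        linear_combination (c1 - A1) * this,
      by
        have := mul_inv_cancel₀ hdet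
        rw [div_eq_mul_inv, div_eq_mul_inv]
        linear_combination (c2 - A2) * this⟩
  refine ⟨a1, a2, e1, e2, ?_⟩
  obtain ⟨c, hc, hw, hg, hJ⟩ := h
  refine ⟨c, hc, div_ne_zero hw hdet, fun L h1 h2 h3 => hg L ?_ ?_ h3, fun D => ?_⟩
  · rw [e1]
    exact L.add_mem (L.add_mem (L.mul_mem (h11.2 L h3) h1) (L.mul_mem (h12.2 L h3) h2)) (g1.2 L h3)
  · rw [e2]
    exact L.add_mem (L.add_mem (L.mul_mem (h21.2 L h3) h1) (L.mul_mem (h22.2 L h3) h2)) (g2.2 L h3)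
  · obtain ⟨n11, k11⟩ := h11.1
    obtain ⟨n12, k12⟩ := h12.1
    obtain ⟨n21, k21⟩ := h21.1
    obtain ⟨n22, k22⟩ := h22.1
    obtain ⟨d1, l1⟩ := g1.1
    obtain ⟨d2, l2⟩ := g2.1
    have hD1 : ∀ E : Derivation ℂ K K,
        E A1 = m11 * E a1 + m12 * E a2 + (a1 * n11 + a2 * n12 + d1) * E τ := by
      intro E
      rw [e1, map_add, map_add, Derivation.leibniz, Derivation.leibniz, k11, k12, l1]
      simp only [smul_eq_mul]; ring
    have hD2 : ∀ E : Derivation ℂ K K,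
        E A2 = m21 * E a1 + m22 * E a2 + (a1 * n21 + a2 * n22 + d2) * E τ := by
      intro E
      rw [e2, map_add, map_add, Derivation.leibniz, Derivation.leibniz, k21, k22, l2]
      simp only [smul_eq_mul]; ring
    have hJac : Jac D ![A1, A2, τ] = (m11 * m22 - m12 * m21) * Jac D ![a1, a2, τ] := by
      simp only [Jac, Matrix.det_fin_three, Matrix.of_apply, Matrix.cons_val_zero,
        Matrix.cons_val_one, Matrix.cons_val, hD1, hD2]
      ring
    have := hJ D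
    rw [hJac] at this
    field_simp
    linear_combination this

theorem tt_ne_zero (i : Fin 3) : tt i ≠ 0 := by
  unfold tt
  rw [map_ne_zero_iff _ (IsFractionRing.injective _ _)]
  exact MvPolynomial.X_ne_zero i

/-- The third coordinate of the basic chart. -/
noncomputable def tau0 (κ ε : ℂ) : K :=
  (tt 2 - tt 0 ^ 2 - algebraMap ℂ K κ * tt 1 ^ 2 + algebraMap ℂ K ε) / (2 * tt 0 * tt 1)

theorem tau0_eq (κ ε : ℂ) : 2 * tt 0 * tt 1 * tau0 κ ε =
    tt 2 - tt 0 ^ 2 - algebraMap ℂ K κ * tt 1 ^ 2 + algebraMap ℂ K ε := by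
  have h0 := tt_ne_zero 0
  have h1 := tt_ne_zero 1
  have h2 : (2 : K) ≠ 0 := two_ne_zero
  unfold tau0
  field_simp

theorem tau0_ne (κ ε s : ℂ) : tau0 κ ε ≠ algebraMap ℂ K s := by
  intro h
  have h1 := tau0_eq κ ε
  rw [h] at h1
  have h2 : (2 * MvPolynomial.X 0 * MvPolynomial.X 1 * MvPolynomial.C s :
      MvPolynomial (Fin 3) ℂ) = MvPolynomial.X 2 - MvPolynomial.X 0 ^ 2 -
        MvPolynomial.C κ * MvPolynomial.X 1 ^ 2 + MvPolynomial.C ε := by
    apply IsFractionRing.injective (MvPolynomial (Fin 3) ℂ) K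
    have hC : ∀ z : ℂ, algebraMap (MvPolynomial (Fin 3) ℂ) K (MvPolynomial.C z) =
        algebraMap ℂ K z := fun z => (IsScalarTower.algebraMap_apply ℂ _ K z).symm
    simp only [map_mul, map_add, map_sub, map_pow, hC, map_ofNat]
    exact h1
  have h3 := congrArg (MvPolynomial.eval ![0, 0, 1 - ε]) h2
  simp at h3

theorem TD.base (κ ε : ℂ) : TD (tt 0 + tau0 κ ε * tt 1) (tt 1) (tau0 κ ε) (tt 2) := by
  have h0 := tt_ne_zero 0
  have h1 := tt_ne_zero 1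
  have h2 : (2 : K) ≠ 0 := two_ne_zero
  have he := tau0_eq κ ε
  refine ⟨1 / 2, by norm_num, tt_ne_zero 2, fun L g1 g2 g3 => ?_, fun D => ?_⟩
  · have g0 : tt 0 ∈ L := by
      have := L.sub_mem g1 (L.mul_mem g3 g2)
      simpa using this
    have g4 : tt 2 ∈ L := by
      have e : tt 2 = algebraMap ℂ K 2 * tt 0 * tt 1 * tau0 κ ε + tt 0 * tt 0 +
          algebraMap ℂ K κ * tt 1 * tt 1 - algebraMap ℂ K ε := by
        rw [map_ofNat]; linear_combination -he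
      rw [e]
      exact L.sub_mem (L.add_mem (L.add_mem
        (L.mul_mem (L.mul_mem (L.mul_mem (L.algebraMap_mem 2) g0) g2) g3) (L.mul_mem g0 g0))
        (L.mul_mem (L.mul_mem (L.algebraMap_mem κ) g2) g2)) (L.algebraMap_mem ε)
    intro i
    fin_cases i
    · exact g0
    · exact g2
    · exact g4
  · have hD : ∀ E : Derivation ℂ K K, E (tt 2) = 2 * tt 0 * tt 1 * E (tau0 κ ε) +
        (2 * tt 1 * tau0 κ ε + 2 * tt 0) * E (tt 0) +
        (2 * tt 0 * tau0 κ ε + 2 * algebraMap ℂ K κ * tt 1) * E (tt 1) := by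
      intro E
      have e : tt 2 = algebraMap ℂ K 2 * tt 0 * tt 1 * tau0 κ ε + tt 0 * tt 0 +
          algebraMap ℂ K κ * tt 1 * tt 1 - algebraMap ℂ K ε := by
        rw [map_ofNat]; linear_combination -he
      have := congrArg E e
      simp only [map_add, map_sub, Derivation.leibniz, Derivation.map_algebraMap, smul_eq_mul,
        map_ofNat] at this
      have h2' : E 2 = 0 := by
        have := E.map_algebraMap 2
        rwa [map_ofNat] at this
      rw [this, h2']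
      ring
    have hh : algebraMap ℂ K (1 / 2) = 1 / 2 := by rw [map_div₀, map_one, map_ofNat]
    simp only [Jac, Matrix.det_fin_three, Matrix.of_apply, Matrix.cons_val_zero,
      Matrix.cons_val_one, Matrix.cons_val, map_add, Derivation.leibniz, smul_eq_mul, hD, hh]
    ring

end Pool.Agent.Work.MP_7daf81_ag.V22
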