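import Pool.Agent.Work.MP_7daf81_ag.V22.N1

/-! Lemma N, part two: conic bundles with quadratic part of discriminant degree two. -/

namespace Pool.Agent.Work.MP_7daf81_ag.V22

open Polynomial

theorem lemmaN_core (α β δ L1 L2 L0 : ℂ[X]) (hα : α ≠ 0) (d s κ : ℂ) (hd : d ≠ 0)
    (hD : β ^ 2 - 4 * α * δ = C d * ((X + C s) ^ 2 - C κ)) :
    ∃ a1 a2 τ : K, TD a1 a2 τ (aeval τ α * a1 ^ 2 + aeval τ β * a1 * a2 + aeval τ δ * a2 ^ 2 +
      aeval τ L1 * a1 + aeval τ L2 * a2 + aeval τ L0) := by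
  set e : ℂ[X] := β * L1 - 2 * α * L2 with he
  set Dp : ℂ[X] := β ^ 2 - 4 * α * δ with hDp
  set R : ℂ[X] := Dp * (L1 ^ 2 - 4 * α * L0) - e ^ 2 with hR
  have hDp0 : Dp ≠ 0 := by
    rw [hD]
    refine mul_ne_zero (C_ne_zero.mpr hd) ?_
    intro h
    have h1 := congrArg (eval (1 - s)) h
    have h2 := congrArg (eval (-s)) h
    simp at h1 h2
    rw [h2] at h1
    simp at h1
  have hne : ∀ ε z : ℂ, tau0 κ ε - algebraMap ℂ K s ≠ algebraMap ℂ K z := by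
    intro ε z h
    apply tau0_ne κ ε (z + s)
    rw [map_add, ← h]; ring
  have h00 : ∀ ε : ℂ, tau0 κ ε ≠ 0 := fun ε => by simpa using tau0_ne κ ε 0
  obtain ⟨ε, p0, p1, ν, f0, f1, hν, hν0, hn⟩ : ∃ (ε : ℂ) (p0 p1 ν : K), Fn (tau0 κ ε) p0 ∧
      Fn (tau0 κ ε) p1 ∧ p0 ^ 2 - (tau0 κ ε ^ 2 - algebraMap ℂ K κ) * p1 ^ 2 = ν ∧ ν ≠ 0 ∧
      aeval (tau0 κ ε - algebraMap ℂ K s) R =
        algebraMap ℂ K ε * ν * aeval (tau0 κ ε - algebraMap ℂ K s) Dp := by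
    by_cases hR0 : R = 0
    · exact ⟨0, 1, 0, 1, Fn.one _, Fn.zero _, by ring, one_ne_zero, by simp [hR0]⟩
    · have hτ : Fn (tau0 κ 1) (tau0 κ 1 - algebraMap ℂ K s) := (Fn.self _).sub (Fn.const _ _)
      have hDv := aeval_ne_zero (hne 1) hDp0
      have hRv := aeval_ne_zero (hne 1) hR0
      obtain ⟨p0, p1, g0, g1, hp⟩ := ((IsNorm.aeval (h00 1) κ s R).mul
        (IsNorm.aeval (h00 1) κ s Dp)).mul (IsNorm.sq κ (hτ.aeval Dp).inv)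
      refine ⟨1, p0, p1, _, g0, g1, hp, ?_, ?_⟩
      · exact mul_ne_zero (mul_ne_zero hRv hDv) (pow_ne_zero _ (inv_ne_zero hDv))
      · rw [map_one]; field_simp
  set τ0 := tau0 κ ε with hτ0
  set τ := τ0 - algebraMap ℂ K s with hτdef
  have hτ : Fn τ0 τ := (Fn.self _).sub (Fn.const _ _)
  obtain ⟨σ, hσ⟩ := IsAlgClosed.exists_pow_nat_eq d (n := 2) (by norm_num)
  have hσ0 : σ ≠ 0 := fun h => hd (by rw [← hσ, h]; ring)
  have hσ' : algebraMap ℂ K σ ≠ 0 := (_root_.map_ne_zero _).mpr hσ0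
  have hDv : aeval τ Dp ≠ 0 := aeval_ne_zero (hne ε) hDp0
  have hαv : aeval τ α ≠ 0 := aeval_ne_zero (hne ε) hα
  have hDe : aeval τ Dp = algebraMap ℂ K σ ^ 2 * (τ0 ^ 2 - algebraMap ℂ K κ) := by
    rw [hD]
    simp only [map_mul, map_sub, map_pow, map_add, aeval_C, aeval_X, ← hσ, hτdef]
    ring
  have hD' : Fn τ0 (τ0 ^ 2 - algebraMap ℂ K κ) := (Fn.self _).sq.sub (Fn.const _ _)
  have hνf : Fn τ0 ν := by rw [← hν]; exact f0.sq.sub (hD'.mul f1.sq)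
  have hdet1 : p0 / ν * (p0 / ν) - -((τ0 ^ 2 - algebraMap ℂ K κ) * p1 / ν) * -(p1 / ν) = ν⁻¹ := by
    field_simp
    linear_combination hν
  obtain ⟨B1, B2, eA1, eA2, hB⟩ := (TD.base κ ε).affine (f0.div hνf) ((hD'.mul f1).div hνf).neg
    (f1.div hνf).neg (f0.div hνf) (Fn.zero _) (Fn.zero _) (by rw [hdet1]; exact inv_ne_zero hν0)
  rw [hdet1] at hB
  have h2 : (2 : K) ≠ 0 := two_ne_zero
  obtain ⟨a1, a2, eB1, eB2, ha⟩ := hB.affine ((Fn.two τ0).mul (hτ.aeval α)) (hτ.aeval β)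
    (Fn.zero _) (Fn.const _ σ) (hτ.aeval L1)
    (((Fn.const _ σ).mul (hτ.aeval e)).div (hτ.aeval Dp))
    (by simpa using ⟨hαv, hσ0⟩)
  refine ⟨a1, a2, τ, ?_⟩
  have hfin := (ha.shift s).scale (s := σ / 2) (div_ne_zero hσ0 two_ne_zero)
  convert hfin using 1
  have ht2 : tt 2 = (tt 0 + τ0 * tt 1) ^ 2 - (τ0 ^ 2 - algebraMap ℂ K κ) * tt 1 ^ 2 -
      algebraMap ℂ K ε := by
    have := tau0_eq κ ε
    rw [← hτ0] at this
    linear_combination -this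
  have hBv : tt 2 * ν = B1 ^ 2 - (τ0 ^ 2 - algebraMap ℂ K κ) * B2 ^ 2 - algebraMap ℂ K ε * ν := by
    rw [ht2, eA1]
    nth_rewrite 1 [eA2]
    field_simp
    linear_combination (B1 ^ 2 - (τ0 ^ 2 - algebraMap ℂ K κ) * B2 ^ 2) * hν
  have hDa : aeval τ Dp = aeval τ β ^ 2 - 4 * aeval τ α * aeval τ δ := by
    rw [hDp]; simp [map_ofNat]
  have hea : aeval τ e = aeval τ β * aeval τ L1 - 2 * aeval τ α * aeval τ L2 := by
    rw [he]; simp [map_ofNat]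
  have hRa : aeval τ R = aeval τ Dp * (aeval τ L1 ^ 2 - 4 * aeval τ α * aeval τ L0) -
      aeval τ e ^ 2 := by
    rw [hR]; simp [map_ofNat]
  rw [map_div₀, map_ofNat, div_inv_eq_mul, hBv]
  have hεν : algebraMap ℂ K ε * ν = aeval τ L1 ^ 2 - 4 * aeval τ α * aeval τ L0 -
      aeval τ e ^ 2 / aeval τ Dp := by
    field_simp
    linear_combination hRa - hn
  have hB2 : (τ0 ^ 2 - algebraMap ℂ K κ) * B2 ^ 2 =
      aeval τ Dp * a2 ^ 2 + 2 * aeval τ e * a2 + aeval τ e ^ 2 / aeval τ Dp := by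
    rw [eB2]
    have : τ0 ^ 2 - algebraMap ℂ K κ = aeval τ Dp / algebraMap ℂ K σ ^ 2 := by
      rw [hDe]; field_simp
    rw [this]
    field_simp
    ring
  rw [hεν, hB2, eB1, hea]
  nth_rewrite 1 [hDa]
  generalize (aeval τ β * aeval τ L1 - 2 * aeval τ α * aeval τ L2) ^ 2 / aeval τ Dp = z
  simp only [mul_zero, sub_zero]
  field_simp
  ring

theorem lemmaN (α β δ L1 L2 L0 : ℂ[X]) (α1 α0 β1 β0 δ1 δ0 : ℂ) (hα : α = C α1 * X + C α0)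
    (hβ : β = C β1 * X + C β0) (hδ : δ = C δ1 * X + C δ0) (hd : β1 ^ 2 - 4 * α1 * δ1 ≠ 0) :
    ∃ a1 a2 τ : K, TD a1 a2 τ (aeval τ α * a1 ^ 2 + aeval τ β * a1 * a2 + aeval τ δ * a2 ^ 2 +
      aeval τ L1 * a1 + aeval τ L2 * a2 + aeval τ L0) := by
  obtain ⟨μ, hμ⟩ : ∃ μ : ℂ, α1 + β1 * μ + δ1 * μ ^ 2 ≠ 0 := by
    by_contra h
    push Not at h
    apply hd
    have h0 := h 0
    have h1 := h 1
    have h2 := h (-1)
    have hb : β1 = 0 := by linear_combination (h1 - h2) / 2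
    have ha : α1 = 0 := by linear_combination h0
    rw [ha, hb]; ring
  set d := β1 ^ 2 - 4 * α1 * δ1 with hdd
  set d1 := 2 * β1 * β0 - 4 * α1 * δ0 - 4 * α0 * δ1 with hd1
  set d0 := β0 ^ 2 - 4 * α0 * δ0 with hd0
  obtain ⟨a1, a2, τ, h⟩ := lemmaN_core (α + β * C μ + δ * C μ ^ 2) (β + 2 * δ * C μ) δ
    (L1 + C μ * L2) L2 L0 (by
      intro h
      have := congrArg (fun p => p.coeff 1) h
      simp only [hα, hβ, hδ, ← C_pow, coeff_add, coeff_mul_C, coeff_C_mul, coeff_X_one, coeff_C,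
        coeff_zero] at this
      apply hμ
      simpa using this) d (d1 / (2 * d)) ((d1 / (2 * d)) ^ 2 - d0 / d) hd (by
      apply Polynomial.funext
      intro z
      simp only [hα, hβ, hδ, eval_add, eval_sub, eval_mul, eval_pow, eval_C, eval_X, eval_ofNat]
      field_simp
      simp only [hdd, hd1, hd0]
      ring)
  obtain ⟨b1, b2, e1, e2, hb⟩ := h.affine (Fn.one τ) (Fn.zero τ) (Fn.const τ μ).neg (Fn.one τ)
    (Fn.zero τ) (Fn.zero τ) (by simp)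
  refine ⟨b1, b2, τ, ?_⟩
  convert hb using 1
  rw [e1, e2]
  simp only [map_add, map_mul, map_pow, aeval_C, map_ofNat]
  ring

/-- Lemma P in numerical form. -/
theorem toric_of_coeffs (F : K → K → K → K) (α1 α0 β1 β0 δ1 δ0 l2 l1 l0 m2 m1 m0 r3 r2 r1 r0 : ℂ)
    (hd : β1 ^ 2 - 4 * α1 * δ1 ≠ 0)
    (hF : ∀ a1 a2 t : K, F a1 a2 t =
      (algebraMap ℂ K α1 * t + algebraMap ℂ K α0) * a1 ^ 2 +
      (algebraMap ℂ K β1 * t + algebraMap ℂ K β0) * a1 * a2 +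
      (algebraMap ℂ K δ1 * t + algebraMap ℂ K δ0) * a2 ^ 2 +
      (algebraMap ℂ K l2 * t ^ 2 + algebraMap ℂ K l1 * t + algebraMap ℂ K l0) * a1 +
      (algebraMap ℂ K m2 * t ^ 2 + algebraMap ℂ K m1 * t + algebraMap ℂ K m0) * a2 +
      (algebraMap ℂ K r3 * t ^ 3 + algebraMap ℂ K r2 * t ^ 2 + algebraMap ℂ K r1 * t +
        algebraMap ℂ K r0)) : Toric F := by
  obtain ⟨a1, a2, τ, h⟩ := lemmaN _ _ _ (C l2 * X ^ 2 + C l1 * X + C l0)
    (C m2 * X ^ 2 + C m1 * X + C m0) (C r3 * X ^ 3 + C r2 * X ^ 2 + C r1 * X + C r0)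
    α1 α0 β1 β0 δ1 δ0 rfl rfl rfl hd
  apply TD.toric (a1 := a1) (a2 := a2) (τ := τ)
  rw [hF]
  simpa using h

end Pool.Agent.Work.MP_7daf81_ag.V22
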