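import Pool.Agent.Work.MP_7daf81_ag.V22.L5

/-! At a base member of the net there is a good point or the conic is a double line. -/

namespace Pool.Agent.Work.MP_7daf81_ag.V22

open Module

variable {V : Type} [AddCommGroup V] [Module ℂ V] [FiniteDimensional ℂ V]
variable {Ω : (Fin 3 → ℂ) →ₗ[ℂ] V →ₗ[ℂ] V →ₗ[ℂ] ℂ}

theorem no_common_kernel (hV : finrank ℂ V = 7) (hsk : ∀ n x y, Ω n x y = -Ω n y x) (h1 : H1 Ω)
    {m m' : Fin 3 → ℂ} (hm : Ind2 m m') {x : V} (hx : x ≠ 0) (h : Ω m x = 0) (h' : Ω m' x = 0) :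
    False :=
  lemmaK hV hsk h1 hm hx h (y1 := x) (y2 := x) (by rw [h]; rfl) ⟨0, 0, by simp [h']⟩
    ⟨0, 0, by simp [h']⟩ ⟨0, 0, by simp [h']⟩

theorem par {a0 a1 s t : ℂ} (ha : ¬(a0 = 0 ∧ a1 = 0)) (h : t * a0 - s * a1 = 0) :
    ∃ l : ℂ, s = l * a0 ∧ t = l * a1 := by
  by_cases h0 : a0 = 0
  · have h1 : a1 ≠ 0 := fun h1 => ha ⟨h0, h1⟩
    refine ⟨t / a1, ?_, by field_simp⟩
    rw [h0, mul_zero, zero_sub, neg_eq_zero] at h
    rw [h0, mul_zero]
    exact (mul_eq_zero.mp h).resolve_right h1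
  · refine ⟨s / a0, by field_simp, ?_⟩
    field_simp
    linear_combination h

section Base

omit [FiniteDimensional ℂ V]
variable (hsk : ∀ n x y, Ω n x y = -Ω n y x) {n1 n2 n3 : Fin 3 → ℂ} {e k1 k2 : V}
  (hB : IsBase Ω n1 n2 n3 e k1 k2)
include hsk hB

theorem IsBase.q1 (w : V) : Ω n3 w k1 = Ω n1 e w := by
  have := LinearMap.congr_fun hB.hk1 w
  rw [LinearMap.neg_apply, hsk] at this
  linear_combination -this

theorem IsBase.q2 (w : V) : Ω n3 w k2 = Ω n2 e w := by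
  have := LinearMap.congr_fun hB.hk2 w
  rw [LinearMap.neg_apply, hsk] at this
  linear_combination -this

theorem IsBase.p11 : Ω n1 e k1 = 0 := by
  linear_combination hsk n3 k1 k1 / 2 - hB.q1 hsk k1

theorem IsBase.p22 : Ω n2 e k2 = 0 := by
  linear_combination hsk n3 k2 k2 / 2 - hB.q2 hsk k2

theorem IsBase.p12 : Ω n1 e k2 = -Ω n3 k1 k2 := by
  linear_combination hsk n3 k2 k1 - hB.q1 hsk k2

theorem IsBase.p21 : Ω n2 e k1 = Ω n3 k1 k2 := (hB.q2 hsk k1).symm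

theorem IsBase.ind : Ind3 n1 n2 n3 := by
  intro a b c h
  have t1 := congrArg (fun n => Ω n e k2) h
  have t2 := congrArg (fun n => Ω n e k1) h
  have t3 := congrArg (fun n => Ω n k1 k2) h
  simp [hB.p11 hsk, hB.p12 hsk, hB.p21 hsk, hB.p22 hsk, hB.h3, hB.hg] at t1 t2
  simp [t1, t2, hB.hg] at t3
  exact ⟨t1, t2, t3⟩

theorem IsBase.comb (ξ : V →ₗ[ℂ] ℂ) (h : ∀ w, Ω n1 e w = 0 → Ω n2 e w = 0 → ξ w = 0) :
    ∃ s t : ℂ, ξ = s • Ω n1 e + t • Ω n2 e := by
  have hg := hB.hg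
  refine ⟨-ξ k2 / Ω n3 k1 k2, ξ k1 / Ω n3 k1 k2, ?_⟩
  ext x
  have := h (x - (Ω n2 e x / Ω n3 k1 k2) • k1 + (Ω n1 e x / Ω n3 k1 k2) • k2)
    (by simp only [map_add, map_sub, map_smul, smul_eq_mul, hB.p11 hsk, hB.p12 hsk]
        field_simp; ring)
    (by simp only [map_add, map_sub, map_smul, smul_eq_mul, hB.p21 hsk, hB.p22 hsk]
        field_simp; ring)
  simp only [map_add, map_sub, map_smul, smul_eq_mul, LinearMap.add_apply,
    LinearMap.smul_apply] at this ⊢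
  linear_combination this

theorem IsBase.nondeg (h1 : H1 Ω) {w : V} (w1 : Ω n1 e w = 0) (w2 : Ω n2 e w = 0)
    (h : ∀ w', Ω n1 e w' = 0 → Ω n2 e w' = 0 → Ω n3 w w' = 0) : ∃ c : ℂ, w = c • e := by
  obtain ⟨s, t, hst⟩ := hB.comb hsk _ h
  have t1 := LinearMap.congr_fun hst k1
  have t2 := LinearMap.congr_fun hst k2
  simp [hB.q1 hsk w, hB.q2 hsk w, w1, w2, hB.p11 hsk, hB.p12 hsk, hB.p21 hsk, hB.p22 hsk, hB.hg] at t1 t2
  refine h1 n3 (fun h0 => hB.hg (by simp [h0])) e w hB.h3 (by simp [hst, t1, t2]) hB.he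

end Base

theorem good_or_dbl (hV : finrank ℂ V = 7) (hsk : ∀ n x y, Ω n x y = -Ω n y x) (h1 : H1 Ω)
    {n1 n2 n3 : Fin 3 → ℂ} {e k1 k2 : V} (hB : IsBase Ω n1 n2 n3 e k1 k2) :
    IsGood Ω n1 n2 n3 e k1 k2 ∨ IsDbl Ω n1 n2 n3 e := by
  have halt : ∀ n x, Ω n x x = 0 := fun n x => by linear_combination hsk n x x / 2
  have hg := hB.hg
  have p11 := hB.p11 hsk
  have p12 := hB.p12 hsk
  have p21 := hB.p21 hsk
  have p22 := hB.p22 hsk
  have q1 := hB.q1 hsk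
  have q2 := hB.q2 hsk
  have p3 : ∀ w, Ω n3 e w = 0 := fun w => by rw [hB.h3]; rfl
  have p3' : ∀ w, Ω n3 w e = 0 := fun w => by rw [hsk, p3, neg_zero]
  obtain ⟨ξ0, hξ0⟩ := Module.Projective.exists_dual_eq_one ℂ hB.he
  let φ : V →ₗ[ℂ] (Fin 3 → ℂ) := LinearMap.pi ![Ω n1 e, Ω n2 e, ξ0]
  let E0 := LinearMap.ker φ
  have mE : ∀ w, Ω n1 e w = 0 → Ω n2 e w = 0 → ξ0 w = 0 → w ∈ E0 := fun w a b c => by
    change φ w = 0
    funext i
    fin_cases i
    exacts [a, b, c]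
  have m1 : ∀ w : E0, Ω n1 e w = 0 := fun w => congrFun w.2 0
  have m2 : ∀ w : E0, Ω n2 e w = 0 := fun w => congrFun w.2 1
  have m3 : ∀ w : E0, ξ0 w = 0 := fun w => congrFun w.2 2
  have hdec : ∀ w, Ω n1 e w = 0 → Ω n2 e w = 0 → ∃ (w' : E0) (c : ℂ), w = w' + c • e :=
    fun w a b => ⟨⟨w - ξ0 w • e, mE _ (by simp [a, halt]) (by simp [b, halt]) (by simp [hξ0])⟩,
      ξ0 w, by simp⟩
  have hE : finrank ℂ E0 = 4 := by
    have r1 := LinearMap.finrank_range_add_finrank_ker φ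
    have r2 : LinearMap.range φ = ⊤ := by
      rw [LinearMap.range_eq_top]
      intro y
      refine ⟨(y 1 / Ω n3 k1 k2) • k1 - (y 0 / Ω n3 k1 k2) • k2 +
        (y 2 - ξ0 ((y 1 / Ω n3 k1 k2) • k1 - (y 0 / Ω n3 k1 k2) • k2)) • e, ?_⟩
      funext i
      fin_cases i
      · change Ω n1 e _ = y 0
        simp only [map_add, map_sub, map_smul, smul_eq_mul, p11, p12, halt]
        field_simp; ring
      · change Ω n2 e _ = y 1
        simp only [map_add, map_sub, map_smul, smul_eq_mul, p21, p22, halt]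
        field_simp; ring
      · change ξ0 _ = y 2
        rw [map_add, map_smul, hξ0]; simp
    rw [r2, finrank_top, hV] at r1
    simp only [finrank_fintype_fun_eq_card, Fintype.card_fin] at r1
    change 3 + finrank ℂ E0 = 7 at r1
    omega
  let η := (Ω n3).compl₁₂ E0.subtype E0.subtype
  let η1 := (Ω n1).compl₁₂ E0.subtype E0.subtype
  let η2 := (Ω n2).compl₁₂ E0.subtype E0.subtype
  let θ0 := (Ω n1).flip k1 ∘ₗ E0.subtype
  let θ1 := ((Ω n1).flip k2 + (Ω n2).flip k1) ∘ₗ E0.subtype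
  let θ2 := (Ω n2).flip k2 ∘ₗ E0.subtype
  have hnd : ∀ x : E0, η x = 0 → x = 0 := by
    intro x hx
    obtain ⟨c, hc⟩ := hB.nondeg hsk h1 (m1 x) (m2 x) (fun w' a b => by
      obtain ⟨w'', c, rfl⟩ := hdec w' a b
      have : Ω n3 x w'' = 0 := LinearMap.congr_fun hx w''
      simp [this, p3'])
    have := m3 x
    rw [hc, map_smul, hξ0, smul_eq_mul, mul_one] at this
    exact Subtype.ext (by rw [hc, this, zero_smul]; rfl)
  have hq : ∀ (w : E0) (a0 a1 : ℂ), θ0 w * a0 ^ 2 + θ1 w * a0 * a1 + θ2 w * a1 ^ 2 =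
      -Ω (a0 • n1 + a1 • n2) (a0 • k1 + a1 • k2) w := by
    intro w a0 a1
    rw [← hsk]
    change Ω n1 w k1 * a0 ^ 2 + (Ω n1 w k2 + Ω n2 w k1) * a0 * a1 + Ω n2 w k2 * a1 ^ 2 = _
    simp only [map_add, map_smul, LinearMap.add_apply, LinearMap.smul_apply, smul_eq_mul]
    ring
  have hka : ∀ a0 a1 : ℂ, Ω (a0 • n1 + a1 • n2) e = -Ω n3 (a0 • k1 + a1 • k2) := by
    intro a0 a1
    simp only [map_add, map_smul, LinearMap.add_apply, LinearMap.smul_apply, hB.hk1, hB.hk2]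
    module
  have hind : ∀ a0 a1 : ℂ, ¬(a0 = 0 ∧ a1 = 0) → Ind2 n3 (a0 • n1 + a1 • n2) := by
    intro a0 a1 ha s t h
    obtain ⟨g1, g2, g3⟩ := hB.ind hsk (t * a0) (t * a1) s (by rw [← h]; module)
    exact ⟨g3, by_contra fun ht => ha ⟨(mul_eq_zero.mp g1).resolve_left ht,
      (mul_eq_zero.mp g2).resolve_left ht⟩⟩
  have hcomb : ∀ a0 a1 : ℂ, ¬(a0 = 0 ∧ a1 = 0) → ∀ ξ : V →ₗ[ℂ] ℂ, ξ e = 0 → (∀ w : E0, ξ w = 0) →
      ξ (a0 • k1 + a1 • k2) = 0 → ∃ l : ℂ, ξ = l • Ω n3 (a0 • k1 + a1 • k2) := by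
    intro a0 a1 ha ξ h0 hξ hk
    obtain ⟨s, t, hst⟩ := hB.comb hsk ξ (fun w a b => by
      obtain ⟨w', c, rfl⟩ := hdec w a b
      simp [hξ, h0])
    rw [hst] at hk
    simp only [map_add, map_smul, LinearMap.add_apply, LinearMap.smul_apply, smul_eq_mul, p11, p12,
      p21, p22] at hk
    obtain ⟨l, rfl, rfl⟩ := par (s := s) (t := t) ha (by
      apply mul_left_cancel₀ hg
      linear_combination hk)
    refine ⟨-l, ?_⟩
    rw [hst, map_add, map_smul, map_smul, hB.hk1, hB.hk2]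
    module
  have hke : ∀ a0 a1 : ℂ, Ω (a0 • n1 + a1 • n2) (a0 • k1 + a1 • k2) e = 0 := by
    intro a0 a1
    rw [hsk, hka, LinearMap.neg_apply, halt]; simp
  have toGood : GoodE η η1 η2 θ0 θ1 θ2 → IsGood Ω n1 n2 n3 e k1 k2 := by
    rintro ⟨u2, u3, f2, f3, g1, g2, g3, g4, g5, g6, g7, g8⟩
    exact ⟨u2, u3, f2, f3, ⟨m1 _, m1 _, m2 _, m2 _, m1 _, m1 _, m2 _, m2 _, g1, g2, g3, g4, g5, g6,
      g7⟩, g8⟩
  by_cases hA : ∃ (v : E0) (β1 β2 : ℂ), v ≠ 0 ∧ η1 v = β1 • η v ∧ η2 v = β2 • η v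
  · obtain ⟨v, β1, β2, hv, e1, e2⟩ := hA
    have f1 : ∀ w : E0, Ω n1 v w = β1 * Ω n3 v w := fun w => LinearMap.congr_fun e1 w
    have f2 : ∀ w : E0, Ω n2 v w = β2 * Ω n3 v w := fun w => LinearMap.congr_fun e2 w
    have ve1 : Ω n1 v e = 0 := by rw [hsk, m1, neg_zero]
    have ve2 : Ω n2 v e = 0 := by rw [hsk, m2, neg_zero]
    have hve : ∀ c : ℂ, (v : V) ≠ c • e := by
      intro c hc
      have := m3 v
      rw [hc, map_smul, hξ0, smul_eq_mul, mul_one] at this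
      exact hv (Subtype.ext (by rw [hc, this, zero_smul]; rfl))
    have hvW : ∀ w, Ω n1 e w = 0 → Ω n2 e w = 0 →
        Ω (n1 - β1 • n3) v w = 0 ∧ Ω (n2 - β2 • n3) v w = 0 := by
      intro w a b
      obtain ⟨w', c, rfl⟩ := hdec w a b
      simp [f1, f2, ve1, ve2, p3']
    rcases caseA (θ0 := θ0) (θ1 := θ1) (θ2 := θ2) hE (fun x y => hsk n3 x y) (fun x y => hsk n1 x y)
      (fun x y => hsk n2 x y) hnd hv e1 e2 (by
        rintro ⟨z0, z1, z2⟩
        change Ω n1 v k1 = 0 at z0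
        change Ω n1 v k2 + Ω n2 v k1 = 0 at z1
        change Ω n2 v k2 = 0 at z2
        obtain ⟨s1, t1, g1⟩ := hB.comb hsk _ fun w a b => (hvW w a b).1
        obtain ⟨s2, t2, g2⟩ := hB.comb hsk _ fun w a b => (hvW w a b).2
        have a1 := LinearMap.congr_fun g1 k1
        have a2 := LinearMap.congr_fun g1 k2
        have a3 := LinearMap.congr_fun g2 k1
        have a4 := LinearMap.congr_fun g2 k2
        simp only [map_sub, map_smul, LinearMap.sub_apply, LinearMap.add_apply, LinearMap.smul_apply,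
          smul_eq_mul, p11, p12, p21, p22, q1 v, q2 v, m1, m2] at a1 a2 a3 a4
        have b1 : t1 = 0 := by apply mul_left_cancel₀ hg; linear_combination z0 - a1
        have b2 : s2 = 0 := by apply mul_left_cancel₀ hg; linear_combination a4 - z2
        have b3 : t2 = s1 := by apply mul_left_cancel₀ hg; linear_combination z1 - a2 - a3
        refine no_common_kernel hV hsk h1 (m := n1 - β1 • n3) (m' := n2 - β2 • n3) ?_
          (x := v - s1 • e) (fun h => hve s1 (sub_eq_zero.mp h)) ?_ ?_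
        · intro s t h
          obtain ⟨c1, c2, -⟩ := hB.ind hsk s t (-(s * β1) - t * β2) (by rw [← h]; module)
          exact ⟨c1, c2⟩
        · rw [map_sub (Ω _), g1, b1]; simp [hB.h3]
        · rw [map_sub (Ω _), g2, b2, b3]; simp [hB.h3]) (by
        intro a0 a1 ha hv0
        by_contra hh
        push Not at hh
        obtain ⟨g, hg1⟩ := exists_one hnd hv
        have hg1' : Ω n3 v g = 1 := hg1
        have hvk : Ω n3 v (a0 • k1 + a1 • k2) = 0 := by simp [q1 v, q2 v, m1, m2]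
        obtain ⟨l, hl⟩ := hcomb a0 a1 ha (Ω (a0 • n1 + a1 • n2) (a0 • k1 + a1 • k2) -
          Ω (a0 • n1 + a1 • n2) (a0 • k1 + a1 • k2) g • Ω n3 v)
          (by rw [LinearMap.sub_apply, hke, LinearMap.smul_apply, p3']; simp) (fun w => by
            have := hh (w - Ω n3 v w • g) (by
              change Ω n3 v ((w - Ω n3 v w • g : E0) : V) = 0
              simp [hg1'])
            rw [hq, neg_eq_zero, Submodule.coe_sub, Submodule.coe_smul, map_sub, map_smul] at this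
            rw [LinearMap.sub_apply, LinearMap.smul_apply, smul_eq_mul, mul_comm]
            exact this)
          (by rw [LinearMap.sub_apply, halt, LinearMap.smul_apply, hvk]; simp)
        obtain ⟨l', hl'⟩ := hcomb a0 a1 ha (Ω (a0 • n1 + a1 • n2) v - (a0 * β1 + a1 * β2) • Ω n3 v)
          (by simp [ve1, ve2, p3']) (fun w => by simp [f1, f2]; ring) (by
            rw [hq, neg_eq_zero, hsk, neg_eq_zero] at hv0
            rw [LinearMap.sub_apply, hv0, LinearMap.smul_apply, hvk]; simp)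
        exact lemmaK hV hsk h1 (hind a0 a1 ha) hB.he hB.h3 (y1 := a0 • k1 + a1 • k2) (y2 := v)
          (by rw [hsk, hvk, neg_zero]) ⟨-1, 0, by rw [hka]; module⟩
          ⟨l, _, sub_eq_iff_eq_add.mp hl⟩ ⟨l', _, sub_eq_iff_eq_add.mp hl'⟩) with hG | hD
    · exact Or.inl (toGood hG)
    · refine Or.inr ⟨β1, β2, v, m1 v, m2 v, hve, hvW, ?_⟩
      intro w w' a b c a' b' c'
      obtain ⟨x, s, rfl⟩ := hdec w a b
      obtain ⟨x', s', rfl⟩ := hdec w' a' b'
      obtain ⟨d1, d2⟩ := hD x x' (show Ω n3 v x = 0 by simpa [p3'] using c)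
        (show Ω n3 v x' = 0 by simpa [p3'] using c')
      change Ω n1 x x' = β1 * Ω n3 x x' at d1
      change Ω n2 x x' = β2 * Ω n3 x x' at d2
      have xe1 : Ω n1 x e = 0 := by rw [hsk, m1, neg_zero]
      have xe2 : Ω n2 x e = 0 := by rw [hsk, m2, neg_zero]
      simp [d1, d2, xe1, xe2, m1, m2, p3, p3', halt]
  · refine Or.inl (toGood (caseB hE (fun x y => hsk n3 x y) (fun x y => hsk n1 x y)
      (fun x y => hsk n2 x y) hnd (fun v hv β1 β2 a b => hA ⟨v, β1, β2, hv, a, b⟩) ?_))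
    intro a0 a1 ha
    by_contra hh
    push Not at hh
    obtain ⟨l, hl⟩ := hcomb a0 a1 ha (Ω (a0 • n1 + a1 • n2) (a0 • k1 + a1 • k2)) (hke a0 a1)
      (fun w => by
        have := hh w
        rwa [hq, neg_eq_zero] at this) (halt _ _)
    exact lemmaK hV hsk h1 (hind a0 a1 ha) hB.he hB.h3 (y1 := a0 • k1 + a1 • k2)
      (y2 := a0 • k1 + a1 • k2) (halt _ _) ⟨-1, 0, by rw [hka]; module⟩
      ⟨l, 0, by rw [hl]; module⟩ ⟨l, 0, by rw [hl]; module⟩

end Pool.Agent.Work.MP_7daf81_ag.V22
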